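import Mathlib

set_option autoImplicit false

/-!
Sets of positive algebraic numbers of bounded degree in a compact interval, any two quotients of
which are multiplicatively dependent, are finite.
-/

namespace Pool.Agent.Zk26

open Polynomial

/-- finitely many algebraic integers of bounded degree with bounded conjugates -/
theorem finite_int (d : ℕ) (B : ℝ) : {z : ℂ | IsIntegral ℤ z ∧ (minpoly ℚ z).natDegree ≤ d ∧
    ∀ w ∈ (minpoly ℚ z).aroots ℂ, ‖w‖ ≤ B}.Finite := by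
  classical
  let C := Nat.ceil (max B 1 ^ d * d.choose (d / 2))
  have := bUnion_roots_finite (algebraMap ℤ ℂ) d (Set.finite_Icc (-C : ℤ) C)
  refine this.subset fun x hx => ?_
  obtain ⟨h1, h2, h3⟩ := hx
  simp_rw [Set.mem_iUnion]
  have hm := minpoly.isIntegrallyClosed_eq_field_fractions' ℚ h1
  refine ⟨minpoly ℤ x, ⟨?_, fun i => ?_⟩, ?_⟩
  · rw [← (minpoly.monic h1).natDegree_map (algebraMap ℤ ℚ), ← hm]; exact h2
  · rw [Set.mem_Icc, ← abs_le, ← @Int.cast_le ℝ]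
    have h5 : IsIntegral ℚ x := h1.tower_top
    have h4 := coeff_bdd_of_roots_le (F := ℚ) (K := ℂ) (B := B) (d := d) (algebraMap ℚ ℂ)
      (p := minpoly ℚ x) (minpoly.monic h5) (IsAlgClosed.splits _) h2 h3 i
    refine le_trans ?_ (h4.trans (Nat.le_ceil _))
    rw [hm, coeff_map, coeff_map, eq_intCast]
    simp
  · rw [Finset.mem_coe, Multiset.mem_toFinset, mem_roots']
    refine ⟨?_, ?_⟩
    · rw [Ne, Polynomial.map_eq_zero_iff (algebraMap ℤ ℂ).injective_int]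
      exact minpoly.ne_zero h1
    · rw [IsRoot.def, eval_map_algebraMap]
      exact minpoly.aeval ℤ x

noncomputable abbrev QC : IntermediateField ℚ ℂ := algebraicClosure ℚ ℂ

theorem qc_int (x : QC) : IsIntegral ℚ x := by
  have h : IsIntegral ℚ (x : ℂ) := (mem_algebraicClosure_iff.mp x.2).isIntegral
  exact (isIntegral_algebraMap_iff (algebraMap QC ℂ).injective).mp h

theorem bdd_conj (x : QC) : ∃ G : ℝ, ∀ φ : QC →ₐ[ℚ] ℂ, ‖φ x‖ ≤ G := by
  classical
  have hx : IsIntegral ℚ x := qc_int x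
  have h1 : ((fun z : ℂ => ‖z‖) '' ((minpoly ℚ x).rootSet ℂ)).Finite :=
    (rootSet_finite _ _).image _
  obtain ⟨G, hG⟩ := h1.bddAbove
  refine ⟨G, fun φ => hG ⟨φ x, ?_, rfl⟩⟩
  rw [mem_rootSet]
  refine ⟨minpoly.ne_zero hx, ?_⟩
  rw [aeval_algHom_apply, minpoly.aeval, map_zero]

theorem conj_exists (z : QC) (w : ℂ) (hw : w ∈ (minpoly ℚ (z : ℂ)).aroots ℂ) :
    ∃ φ : QC →ₐ[ℚ] ℂ, φ z = w := by
  have h1 : minpoly ℚ (z : ℂ) = minpoly ℚ z := minpoly.algebraMap_eq (algebraMap QC ℂ).injective z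
  rw [h1, mem_aroots] at hw
  exact IntermediateField.exists_algHom_of_splits_of_aeval
    (fun s => ⟨qc_int s, IsAlgClosed.splits _⟩) hw.2

theorem int_mult (x : QC) : ∃ N : ℤ, N ≠ 0 ∧ IsIntegral ℤ ((N : ℂ) * (x : ℂ)) := by
  have h1 : IsAlgebraic ℚ (x : ℂ) := mem_algebraicClosure_iff.mp x.2
  have h2 : IsAlgebraic ℤ (x : ℂ) := (IsFractionRing.isAlgebraic_iff ℤ ℚ ℂ).mpr h1
  obtain ⟨N, hN, h⟩ := h2.exists_integral_multiple
  refine ⟨N, hN, ?_⟩
  rwa [zsmul_eq_mul] at h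

theorem isIntegral_intCast (n : ℤ) : IsIntegral ℤ (n : ℂ) := isIntegral_algebraMap (x := n)

/-- the relation between `τ` and `g`, with exponents of bounded size -/
theorem relation {M : ℝ} {a b c : ℝ} (ha : 0 < a) (hb : 0 < b) (hc : 0 < c) (hab : a ≠ b)
    (ha1 : |Real.log a| ≤ M) (hc1 : |Real.log c| ≤ M) (m : Fin 2 → ℤ) (hm : m ≠ 0)
    (h : ∏ i, ((![b, c] : Fin 2 → ℝ) i / a) ^ m i = 1) :
    ∃ n k : ℕ, 0 < n ∧ k ≤ ⌈2 * M / |Real.log (b / a)|⌉₊ * n ∧
      ((c / a) ^ n = (b / a) ^ k ∨ (c / a) ^ n = ((b / a)⁻¹) ^ k) := by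
  have hg0 : 0 < b / a := div_pos hb ha
  have ht0 : 0 < c / a := div_pos hc ha
  have hg1 : b / a ≠ 1 := by
    intro h1
    rw [div_eq_one_iff_eq ha.ne'] at h1
    exact hab h1.symm
  have hlg : Real.log (b / a) ≠ 0 := Real.log_ne_zero_of_pos_of_ne_one hg0 hg1
  rw [Fin.prod_univ_two] at h
  have h' : (b / a) ^ m 0 * (c / a) ^ m 1 = 1 := h
  have hlog : (m 0 : ℝ) * Real.log (b / a) + (m 1 : ℝ) * Real.log (c / a) = 0 := by
    have := congrArg Real.log h'
    rwa [Real.log_mul (zpow_pos hg0 _).ne' (zpow_pos ht0 _).ne', Real.log_zpow, Real.log_zpow,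
      Real.log_one] at this
  have hm1 : m 1 ≠ 0 := by
    intro h1
    rw [h1] at hlog
    have h2 : (m 0 : ℝ) = 0 := by
      have : (m 0 : ℝ) * Real.log (b / a) = 0 := by simpa using hlog
      exact (mul_eq_zero.mp this).resolve_right hlg
    apply hm
    funext i
    fin_cases i
    · exact_mod_cast h2
    · exact h1
  -- the integer exponent
  obtain ⟨n, j, hn, hj⟩ : ∃ (n : ℕ) (j : ℤ), 0 < n ∧ (c / a) ^ n = (b / a) ^ j := by
    rcases lt_or_gt_of_ne hm1 with h1 | h1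
    · refine ⟨(-(m 1)).toNat, m 0, by omega, ?_⟩
      have h2 : ((-(m 1)).toNat : ℤ) = -(m 1) := Int.toNat_of_nonneg (by omega)
      rw [← zpow_natCast, h2, zpow_neg]
      exact (eq_inv_of_mul_eq_one_left h').symm
    · refine ⟨(m 1).toNat, -(m 0), by omega, ?_⟩
      have h2 : ((m 1).toNat : ℤ) = m 1 := Int.toNat_of_nonneg (by omega)
      rw [← zpow_natCast, h2, zpow_neg]
      exact eq_inv_of_mul_eq_one_right h'
  have hl : (n : ℝ) * Real.log (c / a) = (j : ℝ) * Real.log (b / a) := by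
    have := congrArg Real.log hj
    rwa [Real.log_pow, Real.log_zpow] at this
  have hlt : |Real.log (c / a)| ≤ 2 * M := by
    rw [Real.log_div hc.ne' ha.ne']
    have := abs_sub (Real.log c) (Real.log a)
    linarith
  have hjb : |(j : ℝ)| ≤ (⌈2 * M / |Real.log (b / a)|⌉₊ : ℝ) * n := by
    have h1 : |(j : ℝ)| * |Real.log (b / a)| = n * |Real.log (c / a)| := by
      rw [← abs_mul, ← hl, abs_mul, Nat.abs_cast]
    have h2 : 0 < |Real.log (b / a)| := abs_pos.mpr hlg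
    have h3 : |(j : ℝ)| = n * |Real.log (c / a)| / |Real.log (b / a)| := by
      rw [← h1]; field_simp
    rw [h3]
    have h4 : |Real.log (c / a)| / |Real.log (b / a)| ≤ ⌈2 * M / |Real.log (b / a)|⌉₊ :=
      le_trans (by gcongr) (Nat.le_ceil _)
    calc n * |Real.log (c / a)| / |Real.log (b / a)|
        = n * (|Real.log (c / a)| / |Real.log (b / a)|) := by ring
      _ ≤ n * ⌈2 * M / |Real.log (b / a)|⌉₊ := by gcongr
      _ = _ := by ring
  refine ⟨n, j.natAbs, hn, ?_, ?_⟩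
  · have h1 : ((j.natAbs : ℕ) : ℝ) = |(j : ℝ)| := by
      rw [Nat.cast_natAbs, Int.cast_abs]
    have h2 : ((j.natAbs : ℕ) : ℝ) ≤ ((⌈2 * M / |Real.log (b / a)|⌉₊ * n : ℕ) : ℝ) := by
      rw [h1]; push_cast; exact hjb
    exact_mod_cast h2
  · rcases le_or_gt 0 j with h1 | h1
    · left
      rw [hj, ← zpow_natCast, Int.natAbs_of_nonneg h1]
    · right
      have h2 : ((j.natAbs : ℕ) : ℤ) = -j := by omega
      rw [hj, ← zpow_natCast, h2, inv_zpow, zpow_neg, inv_inv]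

/-- integrality of a bounded multiple -/
theorem integral_mult {τ g : ℂ} {N : ℤ} (hN : IsIntegral ℤ ((N : ℂ) * g)) {n k K : ℕ} (hn : 0 < n)
    (hk : k ≤ K * n) (h : τ ^ n = g ^ k) : IsIntegral ℤ ((N : ℂ) ^ K * τ) := by
  apply IsIntegral.of_pow hn
  have h1 : ((N : ℂ) ^ K * τ) ^ n = (N : ℂ) ^ (K * n - k) * ((N : ℂ) * g) ^ k := by
    rw [mul_pow, ← pow_mul, h, mul_pow, ← mul_assoc, ← pow_add]
    congr 2
    omega
  rw [h1]
  exact ((isIntegral_intCast N).pow _).mul (hN.pow _)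

theorem norm_bound {τ g : ℂ} {G : ℝ} (hG : 1 ≤ G) (hg : ‖g‖ ≤ G) {n k K : ℕ} (hn : 0 < n)
    (hk : k ≤ K * n) (h : τ ^ n = g ^ k) : ‖τ‖ ≤ G ^ K := by
  have h1 : ‖τ‖ ^ n ≤ (G ^ K) ^ n := by
    rw [← norm_pow, h, norm_pow, ← pow_mul]
    calc ‖g‖ ^ k ≤ G ^ k := pow_le_pow_left₀ (norm_nonneg _) hg k
      _ ≤ G ^ (K * n) := pow_le_pow_right₀ hG hk
  exact le_of_pow_le_pow_left₀ hn.ne' (by positivity) h1

/-- a set of rank at most one has finitely many elements of bounded degree in `[1 / M, M]` -/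
theorem rank_one_finite {S : Set ℝ} (hS : ∀ a ∈ S, ∀ f : Fin 2 → ℝ, (∀ i, f i ∈ S) →
    ∃ m : Fin 2 → ℤ, m ≠ 0 ∧ ∏ i, (f i / a) ^ m i = 1) (d : ℕ) (M : ℝ) :
    {a : ℝ | a ∈ S ∧ 0 < a ∧ IsAlgebraic ℚ a ∧ (minpoly ℚ a).natDegree ≤ d ∧
      |Real.log a| ≤ M}.Finite := by
  classical
  set S' := {a : ℝ | a ∈ S ∧ 0 < a ∧ IsAlgebraic ℚ a ∧ (minpoly ℚ a).natDegree ≤ d ∧
      |Real.log a| ≤ M} with hS'
  by_cases hsub : S'.Subsingleton
  · exact hsub.finite
  rw [Set.not_subsingleton_iff] at hsub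
  obtain ⟨a, ha, b, hb, hab⟩ := hsub
  have halg : ∀ x : ℝ, IsAlgebraic ℚ x → (x : ℂ) ∈ QC := fun x hx =>
    mem_algebraicClosure_iff.mpr (by simpa using hx.algebraMap (A := ℂ))
  obtain ⟨haS, ha0, haa, had, haM⟩ := ha
  obtain ⟨hbS, hb0, hba, hbd, hbM⟩ := hb
  let A : QC := ⟨(a : ℂ), halg a haa⟩
  let Bq : QC := ⟨(b : ℂ), halg b hba⟩
  let g : QC := Bq / A
  have hA0 : A ≠ 0 := by
    intro h
    have : (a : ℂ) = 0 := congrArg (fun z : QC => (z : ℂ)) h
    exact ha0.ne' (by exact_mod_cast this)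
  obtain ⟨N₁, hN₁, hi₁⟩ := int_mult g
  obtain ⟨N₂, hN₂, hi₂⟩ := int_mult g⁻¹
  obtain ⟨N₃, hN₃, hi₃⟩ := int_mult A
  obtain ⟨G₁, hG₁⟩ := bdd_conj g
  obtain ⟨G₂, hG₂⟩ := bdd_conj g⁻¹
  obtain ⟨G₃, hG₃⟩ := bdd_conj A
  set K := ⌈2 * M / |Real.log (b / a)|⌉₊ with hK
  set G := max 1 (max G₁ G₂) with hG
  set D : ℤ := N₃ * (N₁ * N₂) ^ K with hD
  have hD0 : D ≠ 0 := by
    rw [hD]
    exact mul_ne_zero hN₃ (pow_ne_zero _ (mul_ne_zero hN₁ hN₂))
  have hfin := finite_int d (‖(D : ℂ)‖ * (G₃ * G ^ K))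
  have hinj : Function.Injective (fun c : ℝ => (D : ℂ) * (c : ℂ)) := by
    intro c c' hcc
    have h1 : (D : ℂ) ≠ 0 := by exact_mod_cast hD0
    have h2 : (c : ℂ) = (c' : ℂ) := mul_left_cancel₀ h1 hcc
    exact_mod_cast h2
  refine (hfin.preimage hinj.injOn).subset ?_
  intro c hc
  obtain ⟨hcS, hc0, hca, hcd, hcM⟩ := hc
  obtain ⟨m, hm, hrel⟩ := hS a haS ![b, c] (by
    intro i
    fin_cases i
    · exact hbS
    · exact hcS)
  obtain ⟨n, k, hn, hk, hor⟩ := relation ha0 hb0 hc0 hab haM hcM m hm hrel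
  rw [← hK] at hk
  let Cq : QC := ⟨(c : ℂ), halg c hca⟩
  let τ : QC := Cq / A
  have hτ : (τ : ℂ) = ((c / a : ℝ) : ℂ) := by
    change (c : ℂ) / (a : ℂ) = _
    push_cast; rfl
  have hg : (g : ℂ) = ((b / a : ℝ) : ℂ) := by
    change (b : ℂ) / (a : ℂ) = _
    push_cast; rfl
  have hCA : Cq = A * τ := by
    change Cq = A * (Cq / A)
    field_simp
  -- the relation in the field of algebraic numbers
  have hor' : τ ^ n = g ^ k ∨ τ ^ n = (g⁻¹) ^ k := by
    rcases hor with h | h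
    · left
      apply Subtype.ext
      change (τ : ℂ) ^ n = (g : ℂ) ^ k
      rw [hτ, hg]
      exact_mod_cast h
    · right
      apply Subtype.ext
      change (τ : ℂ) ^ n = ((g : ℂ)⁻¹) ^ k
      rw [hτ, hg]
      exact_mod_cast h
  refine ⟨?_, ?_, ?_⟩
  · -- integrality
    have h1 : IsIntegral ℤ (((N₁ * N₂ : ℤ) : ℂ) ^ K * (τ : ℂ)) := by
      rcases hor' with h | h
      · refine integral_mult (g := (g : ℂ)) ?_ hn hk ?_
        · have : ((N₁ * N₂ : ℤ) : ℂ) * (g : ℂ) = (N₂ : ℂ) * ((N₁ : ℂ) * (g : ℂ)) := by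
            push_cast; ring
          rw [this]
          exact (isIntegral_intCast N₂).mul hi₁
        · exact congrArg (fun z : QC => (z : ℂ)) h
      · refine integral_mult (g := ((g⁻¹ : QC) : ℂ)) ?_ hn hk ?_
        · have : ((N₁ * N₂ : ℤ) : ℂ) * ((g⁻¹ : QC) : ℂ) = (N₁ : ℂ) * ((N₂ : ℂ) * ((g⁻¹ : QC) : ℂ)) := by
            push_cast; ring
          rw [this]
          exact (isIntegral_intCast N₁).mul hi₂
        · exact congrArg (fun z : QC => (z : ℂ)) h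
    have h2 : (D : ℂ) * (c : ℂ) = ((N₃ : ℂ) * (A : ℂ)) * (((N₁ * N₂ : ℤ) : ℂ) ^ K * (τ : ℂ)) := by
      have h3 : (c : ℂ) = (A : ℂ) * (τ : ℂ) := congrArg (fun z : QC => (z : ℂ)) hCA
      rw [h3, hD]
      push_cast
      ring
    change IsIntegral ℤ ((D : ℂ) * (c : ℂ))
    rw [h2]
    exact hi₃.mul h1
  · -- degree
    have hcC : IsIntegral ℚ (c : ℂ) := by
      have : IsAlgebraic ℚ (c : ℂ) := mem_algebraicClosure_iff.mp (halg c hca)
      exact this.isIntegral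
    have h1 : minpoly ℚ (c : ℂ) = minpoly ℚ c := by
      have := minpoly.algebraMap_eq (A := ℚ) (algebraMap ℝ ℂ).injective c
      simpa using this
    have h2 := minpoly.min ℚ ((D : ℂ) * (c : ℂ))
      (p := (minpoly ℚ (c : ℂ)).scaleRoots (D : ℚ))
      (by
        rw [Polynomial.monic_scaleRoots_iff]
        exact minpoly.monic hcC)
      (by
        have := Polynomial.scaleRoots_aeval_eq_zero (r := (D : ℚ)) (minpoly.aeval ℚ (c : ℂ))
        simpa using this)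
    have h3 := natDegree_le_natDegree h2
    rw [Polynomial.natDegree_scaleRoots, h1] at h3
    exact h3.trans hcd
  · -- conjugates
    intro w hw
    have hz : (D : ℂ) * (c : ℂ) = (((D : ℤ) : QC) * Cq : QC) := by
      push_cast
      rfl
    have hw' : w ∈ (minpoly ℚ ((((D : ℤ) : QC) * Cq : QC) : ℂ)).aroots ℂ := by
      rw [← hz]; exact hw
    obtain ⟨φ, hφ⟩ := conj_exists _ w hw'
    rw [← hφ, map_mul, map_intCast, norm_mul]
    gcongr
    rw [hCA, map_mul, norm_mul]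
    have hτb : ‖φ τ‖ ≤ G ^ K := by
      rcases hor' with h | h
      · refine norm_bound (g := φ g) (le_max_left _ _) ?_ hn hk ?_
        · exact (hG₁ φ).trans ((le_max_left _ _).trans (le_max_right _ _))
        · rw [← map_pow, h, map_pow]
      · refine norm_bound (g := φ g⁻¹) (le_max_left _ _) ?_ hn hk ?_
        · exact (hG₂ φ).trans ((le_max_right _ _).trans (le_max_right _ _))
        · rw [← map_pow, h, map_pow]
    have h3 := hG₃ φ
    have h4 : 0 ≤ G₃ := (norm_nonneg _).trans h3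
    exact mul_le_mul h3 hτb (norm_nonneg _) h4

end Pool.Agent.Zk26
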