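import Pool.Agent.Zk26.SU

set_option autoImplicit false

/-!
The values of a rational function with at least three zeros and poles are rarely `S`-units.
-/

namespace Pool.Agent.Zk26

open NumberField IsDedekindDomain Polynomial
open Pool.Agent.W180.OP (Pl fv fv_support_finite)
open Pool.Agent.K1H83.VN

section local_part

variable {F : Type} [Field F]

theorem na_sub_le {v : AbsoluteValue F ℝ} (hna : IsNonarchimedean v) (x y : F) :
    v (x - y) ≤ max (v x) (v y) := by
  have h := hna x (-y)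
  rwa [← sub_eq_add_neg, v.map_neg] at h

theorem na_sub {v : AbsoluteValue F ℝ} (hna : IsNonarchimedean v) {x y : F} (h : v y < v x) :
    v (x - y) = v x := by
  refine le_antisymm ((na_sub_le hna x y).trans_eq (max_eq_left h.le)) ?_
  by_contra hlt
  push Not at hlt
  have h1 := hna (x - y) y
  rw [sub_add_cancel] at h1
  exact absurd h1 (not_le.mpr (max_lt hlt h))

/-- at a good place the numbers `q - a` are units, or all have the same absolute value -/
theorem places {v : AbsoluteValue F ℝ} (hna : IsNonarchimedean v) {P Q : F[X]}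
    (hP : P.Splits) (hQ : Q.Splits) (hlP : v P.leadingCoeff = 1) (hlQ : v Q.leadingCoeff = 1)
    (hP0 : P ≠ 0) (hQ0 : Q ≠ 0)
    (hZ : ∀ a ∈ (P * Q).roots, v a ≤ 1)
    (hZ2 : ∀ a ∈ (P * Q).roots, ∀ b ∈ (P * Q).roots, a ≠ b → v (a - b) = 1)
    (hco : ∀ a, a ∈ P.roots → a ∈ Q.roots → False) {q : F} (hPq : P.eval q ≠ 0)
    (hQq : Q.eval q ≠ 0) (hq : v (P.eval q / Q.eval q) = 1) :
    (∀ a ∈ (P * Q).roots, v (q - a) = 1) ∨
      (P.natDegree = Q.natDegree ∧ ∀ a ∈ (P * Q).roots, v (q - a) = v q ∧ 1 < v q) := by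
  have hroots : (P * Q).roots = P.roots + Q.roots := roots_mul (mul_ne_zero hP0 hQ0)
  have hmP : ∀ a ∈ P.roots, a ∈ (P * Q).roots := fun a ha => by
    rw [hroots]; exact Multiset.mem_add.mpr (Or.inl ha)
  have hmQ : ∀ a ∈ Q.roots, a ∈ (P * Q).roots := fun a ha => by
    rw [hroots]; exact Multiset.mem_add.mpr (Or.inr ha)
  have heq : v (P.eval q) = v (Q.eval q) := by
    rw [map_div₀] at hq
    exact eq_of_div_eq_one hq
  have hvP : v (P.eval q) = (P.roots.map (fun a => v (q - a))).prod := by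
    rw [hP.eval_eq_prod_roots q, map_mul, hlP, one_mul, map_multiset_prod, Multiset.map_map]
    rfl
  have hvQ : v (Q.eval q) = (Q.roots.map (fun a => v (q - a))).prod := by
    rw [hQ.eval_eq_prod_roots q, map_mul, hlQ, one_mul, map_multiset_prod, Multiset.map_map]
    rfl
  rcases lt_or_ge 1 (v q) with h1 | h1
  · right
    have h2 : ∀ a ∈ (P * Q).roots, v (q - a) = v q := fun a ha =>
      na_sub hna (lt_of_le_of_lt (hZ a ha) h1)
    have h3 : v (P.eval q) = v q ^ P.natDegree := by
      rw [hvP, Multiset.map_congr rfl (fun a ha => h2 a (hmP a ha)), Multiset.map_const',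
        Multiset.prod_replicate, hP.natDegree_eq_card_roots]
    have h4 : v (Q.eval q) = v q ^ Q.natDegree := by
      rw [hvQ, Multiset.map_congr rfl (fun a ha => h2 a (hmQ a ha)), Multiset.map_const',
        Multiset.prod_replicate, hQ.natDegree_eq_card_roots]
    rw [h3, h4] at heq
    refine ⟨pow_right_injective₀ (by linarith) (ne_of_gt h1) heq, fun a ha => ⟨h2 a ha, h1⟩⟩
  · left
    have hle : ∀ a ∈ (P * Q).roots, v (q - a) ≤ 1 := fun a ha =>
      (na_sub_le hna q a).trans (max_le h1 (hZ a ha))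
    by_contra hcon
    push Not at hcon
    obtain ⟨a, ha, hne⟩ := hcon
    have hlt : v (q - a) < 1 := lt_of_le_of_ne (hle a ha) hne
    have hother : ∀ b ∈ (P * Q).roots, b ≠ a → v (q - b) = 1 := by
      intro b hb hba
      have h2 : v (b - a) = 1 := hZ2 b hb a ha hba
      have h3 : v ((b - a) - (q - a)) = v (b - a) := na_sub hna (by rw [h2]; exact hlt)
      have h4 : (b - a) - (q - a) = -(q - b) := by ring
      rw [h4, v.map_neg, h2] at h3
      exact h3
    have hbP := prod_le_one' (P.roots.map (fun a => v (q - a))) (by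
      intro x hx
      obtain ⟨b, hb, rfl⟩ := Multiset.mem_map.mp hx
      exact ⟨v.nonneg _, hle b (hmP b hb)⟩)
    have hbQ := prod_le_one' (Q.roots.map (fun a => v (q - a))) (by
      intro x hx
      obtain ⟨b, hb, rfl⟩ := Multiset.mem_map.mp hx
      exact ⟨v.nonneg _, hle b (hmQ b hb)⟩)
    rw [hroots, Multiset.mem_add] at ha
    rcases ha with ha | ha
    · have h5 : v (P.eval q) < 1 := by
        rw [hvP]
        exact hbP.2.2 ⟨_, Multiset.mem_map.mpr ⟨a, ha, rfl⟩, hlt⟩
      have h6 : v (Q.eval q) = 1 := by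
        rw [hvQ, Multiset.map_congr rfl (fun b hb => hother b (hmQ b hb)
          (fun h => hco a ha (h ▸ hb))), Multiset.map_const', Multiset.prod_replicate, one_pow]
      rw [heq, h6] at h5
      exact lt_irrefl _ h5
    · have h5 : v (Q.eval q) < 1 := by
        rw [hvQ]
        exact hbQ.2.2 ⟨_, Multiset.mem_map.mpr ⟨a, ha, rfl⟩, hlt⟩
      have h6 : v (P.eval q) = 1 := by
        rw [hvP, Multiset.map_congr rfl (fun b hb => hother b (hmP b hb)
          (fun h => hco a (h ▸ hb) ha)), Multiset.map_const', Multiset.prod_replicate, one_pow]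
      rw [← heq, h6] at h5
      exact lt_irrefl _ h5

end local_part

/-- values of a rational function which are `S`-units, all zeros and poles being rational -/
theorem rat_finite {K : Type} [Field K] [NumberField K] (S : Finset (Pl K)) (hS : infS K ⊆ S)
    (P Q : K[X]) (hP : P.Splits) (hQ : Q.Splits) (hP0 : P ≠ 0) (hQ0 : Q ≠ 0)
    (hco : IsCoprime P Q) (h3 : 3 ≤ {a : K | (P * Q).eval a = 0}.ncard +
      if P.natDegree = Q.natDegree then 0 else 1) :
    {q : K | P.eval q ≠ 0 ∧ Q.eval q ≠ 0 ∧ IsSU S (P.eval q / Q.eval q)}.Finite := by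
  classical
  set Z := (P * Q).roots.toFinset with hZdef
  have hPQ0 : P * Q ≠ 0 := mul_ne_zero hP0 hQ0
  have hncard : {a : K | (P * Q).eval a = 0}.ncard = Z.card := by
    rw [← Set.ncard_coe_finset]
    congr 1
    ext z
    rw [hZdef, Finset.mem_coe, Multiset.mem_toFinset, mem_roots hPQ0, IsRoot.def]
    rfl
  rw [hncard] at h3
  have hlP : P.leadingCoeff ≠ 0 := leadingCoeff_ne_zero.mpr hP0
  have hlQ : Q.leadingCoeff ≠ 0 := leadingCoeff_ne_zero.mpr hQ0
  obtain ⟨T, hT, hT'⟩ := exists_su_all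
    ({P.leadingCoeff, Q.leadingCoeff} ∪ (Z.filter (fun a => a ≠ 0) ∪
      ((Z ×ˢ Z).filter (fun p => p.1 ≠ p.2)).image (fun p => p.1 - p.2))) (by
    intro x hx
    rcases Finset.mem_union.mp hx with h | h
    · rcases Finset.mem_insert.mp h with h | h
      · rw [h]; exact hlP
      · rw [Finset.mem_singleton.mp h]; exact hlQ
    · rcases Finset.mem_union.mp h with h | h
      · exact (Finset.mem_filter.mp h).2
      · obtain ⟨p, hp, rfl⟩ := Finset.mem_image.mp h
        exact sub_ne_zero.mpr (Finset.mem_filter.mp hp).2)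
  have hTP : IsSU T P.leadingCoeff := hT' _ (by simp)
  have hTQ : IsSU T Q.leadingCoeff := hT' _ (by simp)
  have hTa : ∀ a ∈ Z, a ≠ 0 → IsSU T a := fun a ha h0 => hT' _ (by
    simp only [Finset.mem_union, Finset.mem_filter]
    exact Or.inr (Or.inl ⟨ha, h0⟩))
  have hTab : ∀ a ∈ Z, ∀ b ∈ Z, a ≠ b → IsSU T (a - b) := fun a ha b hb hab => hT' _ (by
    simp only [Finset.mem_union, Finset.mem_image, Finset.mem_filter, Finset.mem_product]
    exact Or.inr (Or.inr ⟨(a, b), ⟨⟨ha, hb⟩, hab⟩, rfl⟩))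
  set S' := S ∪ T with hS'
  have hS'inf : ∀ w : InfinitePlace K, (Sum.inl w : Pl K) ∈ S' := fun w =>
    Finset.mem_union_left _ (hS (mem_infS w))
  have hmem : ∀ a, a ∈ (P * Q).roots ↔ a ∈ Z := fun a => Multiset.mem_toFinset.symm
  -- the two alternatives at each place outside of `S'`
  have key : ∀ q ∈ {q : K | P.eval q ≠ 0 ∧ Q.eval q ≠ 0 ∧ IsSU S (P.eval q / Q.eval q)},
      ∀ v : HeightOneSpectrum (𝓞 K), (Sum.inr v : Pl K) ∉ S' →
      (∀ a ∈ Z, fv v (q - a) = 1) ∨
      (P.natDegree = Q.natDegree ∧ ∀ a ∈ Z, fv v (q - a) = fv v q ∧ 1 < fv v q) := by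
    rintro q ⟨h1, h2, h4⟩ v hv
    have hvS : (Sum.inr v : Pl K) ∉ S := fun h => hv (Finset.mem_union_left _ h)
    have hvT : (Sum.inr v : Pl K) ∉ T := fun h => hv (Finset.mem_union_right _ h)
    have h5 := places (fv_na v) hP hQ (hTP.2 v hvT) (hTQ.2 v hvT) hP0 hQ0 (by
      intro a ha
      rw [hmem] at ha
      by_cases h0 : a = 0
      · rw [h0, map_zero]; exact zero_le_one
      · exact ((hTa a ha h0).2 v hvT).le) (by
      intro a ha b hb hab
      rw [hmem] at ha hb
      exact (hTab a ha b hb hab).2 v hvT) (by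
      intro a ha hb
      have e1 : P.eval a = 0 := (mem_roots'.mp ha).2
      have e2 : Q.eval a = 0 := (mem_roots'.mp hb).2
      obtain ⟨A, B, hAB⟩ := hco
      have := congrArg (eval a) hAB
      rw [eval_add, eval_mul, eval_mul, e1, e2, mul_zero, mul_zero, add_zero, eval_one] at this
      exact zero_ne_one this) h1 h2 (h4.2 v hvS)
    rcases h5 with h5 | ⟨h5, h6⟩
    · exact Or.inl fun a ha => h5 a ((hmem a).mpr ha)
    · exact Or.inr ⟨h5, fun a ha => h6 a ((hmem a).mpr ha)⟩
  have hne : ∀ q ∈ {q : K | P.eval q ≠ 0 ∧ Q.eval q ≠ 0 ∧ IsSU S (P.eval q / Q.eval q)},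
      ∀ a ∈ Z, q - a ≠ 0 := by
    rintro q ⟨h1, h2, -⟩ a ha h0
    rw [← hmem, mem_roots hPQ0, IsRoot.def, eval_mul] at ha
    have h4 : q = a := sub_eq_zero.mp h0
    rw [← h4] at ha
    rcases mul_eq_zero.mp ha with h5 | h5
    · exact h1 h5
    · exact h2 h5
  by_cases hdeg : P.natDegree = Q.natDegree
  · -- three zeros and poles
    rw [if_pos hdeg, add_zero] at h3
    obtain ⟨a, ha, b, hb, c, hc, hab, hac, hbc⟩ := Finset.two_lt_card.mp (by omega : 2 < Z.card)
    have hfin := Pool.Agent.K1H83.TW.unit_two K S' hS'inf ((c - b) / (a - b)) ((a - c) / (a - b))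
      (div_ne_zero (sub_ne_zero.mpr (Ne.symm hbc)) (sub_ne_zero.mpr hab))
      (div_ne_zero (sub_ne_zero.mpr hac) (sub_ne_zero.mpr hab))
    have hunit : ∀ q ∈ {q : K | P.eval q ≠ 0 ∧ Q.eval q ≠ 0 ∧ IsSU S (P.eval q / Q.eval q)},
        ∀ x ∈ Z, IsSU S' ((q - x) / (q - c)) := by
      intro q hq x hx
      refine ⟨div_ne_zero (hne q hq x hx) (hne q hq c hc), fun v hv => ?_⟩
      rw [map_div₀]
      rcases key q hq v hv with h | ⟨-, h⟩
      · rw [h x hx, h c hc, div_one]
      · rw [(h x hx).1, (h c hc).1, div_self]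
        linarith [(h c hc).2]
    have himg : ((fun q => (q - a) / (q - c)) '' {q : K | P.eval q ≠ 0 ∧ Q.eval q ≠ 0 ∧
        IsSU S (P.eval q / Q.eval q)}).Finite := by
      refine hfin.subset ?_
      rintro x ⟨q, hq, rfl⟩
      refine ⟨hunit q hq a ha, (q - b) / (q - c), hunit q hq b hb, ?_⟩
      have h1 := hne q hq c hc
      have h2 : a - b ≠ 0 := sub_ne_zero.mpr hab
      field_simp
      ring
    refine Set.Finite.of_finite_image himg ?_
    intro q hq q' hq' h
    have h1 := hne q hq c hc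
    have h2 := hne q' hq' c hc
    have h : (q - a) / (q - c) = (q' - a) / (q' - c) := h
    rw [div_eq_div_iff h1 h2] at h
    have h4 : (a - c) * (q - q') = 0 := by linear_combination h
    have h5 := (mul_eq_zero.mp h4).resolve_left (sub_ne_zero.mpr hac)
    exact sub_eq_zero.mp h5
  · rw [if_neg hdeg] at h3
    obtain ⟨a, ha, b, hb, hab⟩ := Finset.one_lt_card.mp (by omega : 1 < Z.card)
    have hba : b - a ≠ 0 := sub_ne_zero.mpr (Ne.symm hab)
    have hfin := Pool.Agent.K1H83.TW.unit_two K S' hS'inf (1 / (b - a)) (-1 / (b - a))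
      (div_ne_zero one_ne_zero hba) (div_ne_zero (neg_ne_zero.mpr one_ne_zero) hba)
    have hunit : ∀ q ∈ {q : K | P.eval q ≠ 0 ∧ Q.eval q ≠ 0 ∧ IsSU S (P.eval q / Q.eval q)},
        ∀ x ∈ Z, IsSU S' (q - x) := by
      intro q hq x hx
      refine ⟨hne q hq x hx, fun v hv => ?_⟩
      rcases key q hq v hv with h | ⟨h, -⟩
      · exact h x hx
      · exact absurd h hdeg
    refine (hfin.preimage (f := fun q => q - a) ?_).subset ?_
    · intro q _ q' _ h
      exact sub_left_injective h
    · intro q hq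
      refine ⟨hunit q hq a ha, q - b, hunit q hq b hb, ?_⟩
      field_simp
      ring

/-- the same for arbitrary rational functions and sets of finite rank -/
theorem rat_rank_finite {K : Type} [Field K] [NumberField K] (k : ℕ) (M : Set K)
    (h0 : ∀ x ∈ M, x ≠ 0) (hM : ∀ a ∈ M, ∀ f : Fin (k + 1) → K, (∀ i, f i ∈ M) →
      ∃ m : Fin (k + 1) → ℤ, m ≠ 0 ∧ ∏ i, (f i / a) ^ m i = 1)
    (P Q : K[X]) (hP0 : P ≠ 0) (hQ0 : Q ≠ 0) (hco : IsCoprime P Q) (τ : K →+* ℂ)
    (h3 : 3 ≤ {z : ℂ | ((P * Q).map τ).eval z = 0}.ncard +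
      if P.natDegree = Q.natDegree then 0 else 1) :
    {q : K | Q.eval q ≠ 0 ∧ P.eval q / Q.eval q ∈ M}.Finite := by
  classical
  let L := (P * Q).SplittingField
  haveI : NumberField L := NumberField.of_module_finite K L
  have hspl : ((P * Q).map (algebraMap K L)).Splits := SplittingField.splits (P * Q)
  have hPQ0 : (P * Q).map (algebraMap K L) ≠ 0 :=
    (Polynomial.map_ne_zero_iff (algebraMap K L).injective).mpr (mul_ne_zero hP0 hQ0)
  have hPs : (P.map (algebraMap K L)).Splits :=
    hspl.of_dvd hPQ0 (by rw [Polynomial.map_mul]; exact dvd_mul_right _ _)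
  have hQs : (Q.map (algebraMap K L)).Splits :=
    hspl.of_dvd hPQ0 (by rw [Polynomial.map_mul]; exact dvd_mul_left _ _)
  -- rank in `L`
  obtain ⟨S, hS, hSU⟩ := su_of_rank (K := L) k ((algebraMap K L) '' M) (by
    rintro x ⟨y, hy, rfl⟩
    exact (_root_.map_ne_zero _).mpr (h0 y hy)) (by
    rintro a ⟨a', ha', rfl⟩ f hf
    choose g hg hgf using hf
    obtain ⟨m, hm, hm1⟩ := hM a' ha' g hg
    refine ⟨m, hm, ?_⟩
    have h1 := congrArg (algebraMap K L) hm1
    rw [map_prod, map_one] at h1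
    rw [← h1]
    apply Finset.prod_congr rfl
    intro i _
    rw [map_zpow₀, map_div₀, hgf i])
  -- the number of roots
  have hcard : {z : ℂ | ((P * Q).map τ).eval z = 0}.ncard =
      {z : L | (P.map (algebraMap K L) * Q.map (algebraMap K L)).eval z = 0}.ncard := by
    letI := τ.toAlgebra
    let φ : L →ₐ[K] ℂ := IsAlgClosed.lift
    have h1 : (P * Q).map τ = ((P * Q).map (algebraMap K L)).map (φ : L →+* ℂ) := by
      rw [Polynomial.map_map]
      congr 1
      exact (φ.comp_algebraMap).symm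
    have h2 : {z : ℂ | ((P * Q).map τ).eval z = 0} = (φ : L →+* ℂ) ''
        {z : L | (P.map (algebraMap K L) * Q.map (algebraMap K L)).eval z = 0} := by
      ext z
      have h3 : z ∈ (((P * Q).map (algebraMap K L)).map (φ : L →+* ℂ)).roots ↔
          ∃ a, a ∈ ((P * Q).map (algebraMap K L)).roots ∧ (φ : L →+* ℂ) a = z := by
        rw [hspl.roots_map, Multiset.mem_map]
      rw [mem_roots ((Polynomial.map_ne_zero_iff (φ : L →+* ℂ).injective).mpr hPQ0)] at h3
      constructor
      · intro hz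
        have hz' : ((P * Q).map τ).eval z = 0 := hz
        rw [h1] at hz'
        obtain ⟨a, ha, hab⟩ := h3.mp hz'
        refine ⟨a, ?_, hab⟩
        rw [mem_roots hPQ0, IsRoot.def, Polynomial.map_mul] at ha
        exact ha
      · rintro ⟨a, ha, hab⟩
        have ha' : a ∈ ((P * Q).map (algebraMap K L)).roots := by
          rw [mem_roots hPQ0, IsRoot.def, Polynomial.map_mul]
          exact ha
        have h4 := h3.mpr ⟨a, ha', hab⟩
        change ((P * Q).map τ).eval z = 0
        rw [h1]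
        exact h4
    rw [h2, Set.ncard_image_of_injective _ (φ : L →+* ℂ).injective]
  have hfin := rat_finite (K := L) S hS (P.map (algebraMap K L)) (Q.map (algebraMap K L)) hPs hQs
    ((Polynomial.map_ne_zero_iff (algebraMap K L).injective).mpr hP0)
    ((Polynomial.map_ne_zero_iff (algebraMap K L).injective).mpr hQ0)
    (hco.map (mapRingHom (algebraMap K L))) (by
      rw [← hcard, natDegree_map, natDegree_map]
      exact h3)
  refine (hfin.preimage (f := algebraMap K L) (algebraMap K L).injective.injOn).subset ?_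
  rintro q ⟨hq, hqM⟩
  have hP' : P.eval q ≠ 0 := by
    intro h
    rw [h, zero_div] at hqM
    exact h0 0 hqM rfl
  have e1 : (P.map (algebraMap K L)).eval (algebraMap K L q) = algebraMap K L (P.eval q) := by
    rw [eval_map_apply]
  have e2 : (Q.map (algebraMap K L)).eval (algebraMap K L q) = algebraMap K L (Q.eval q) := by
    rw [eval_map_apply]
  refine ⟨?_, ?_, ?_⟩
  · rw [e1]; exact (_root_.map_ne_zero _).mpr hP'
  · rw [e2]; exact (_root_.map_ne_zero _).mpr hq
  · rw [e1, e2, ← map_div₀]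
    exact hSU _ ⟨_, hqM, rfl⟩

end Pool.Agent.Zk26
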