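import Mathlib
import Pool.Agent.Zk32.Gp0

/-!
Folner averages of a jointly ergodic pair of endomorphisms of the circle: convergence in the mean, and
almost everywhere along a subsequence (module for helper32).
-/

set_option autoImplicit false

open MeasureTheory Filter Topology Set
open scoped ENNReal

namespace Pool.Agent.Zk26.FS

open Pool.Agent.Zk32
open Pool.Agent.R202.TM (JointErg)

/-! ### shifts of finite sets -/

/-- an injective shift changes a sum over a finite set only at the points which leave it -/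
lemma shift_sum {ι : Type*} [DecidableEq ι] (F : Finset ι) (s : ι → ι) (hs : Function.Injective s)
    (a : ι → ℝ) {C : ℝ} (hC : ∀ n, |a n| ≤ C) :
    |∑ n ∈ F, a (s n) - ∑ n ∈ F, a n| ≤ 2 * C * ((F.filter fun n => s n ∉ F).card : ℝ) := by
  classical
  have h1 : ∑ n ∈ F, a (s n) = ∑ m ∈ F.image s, a m := by
    rw [Finset.sum_image fun x _ y _ h => hs h]
  set G := F.image s with hG
  have hGc : G.card = F.card := Finset.card_image_of_injective _ hs
  have h2 : (G \ F).card = (F.filter fun n => s n ∉ F).card := by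
    have : G \ F = (F.filter fun n => s n ∉ F).image s := by
      ext m
      simp only [hG, Finset.mem_sdiff, Finset.mem_image, Finset.mem_filter]
      constructor
      · rintro ⟨⟨n, hn, rfl⟩, h⟩
        exact ⟨n, ⟨hn, h⟩, rfl⟩
      · rintro ⟨n, ⟨hn, h⟩, rfl⟩
        exact ⟨⟨n, hn, rfl⟩, h⟩
    rw [this, Finset.card_image_of_injective _ hs]
  have h3 : (F \ G).card = (G \ F).card := by
    have e1 := Finset.card_sdiff_add_card_inter F G
    have e2 := Finset.card_sdiff_add_card_inter G F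
    rw [Finset.inter_comm G F] at e2
    omega
  have e1 : ∑ m ∈ G, a m = ∑ m ∈ G \ F, a m + ∑ m ∈ G ∩ F, a m := by
    rw [← Finset.sum_sdiff (Finset.inter_subset_left (s₁ := G) (s₂ := F)), Finset.sdiff_inter_self_left]
  have e2 : ∑ m ∈ F, a m = ∑ m ∈ F \ G, a m + ∑ m ∈ F ∩ G, a m := by
    rw [← Finset.sum_sdiff (Finset.inter_subset_left (s₁ := F) (s₂ := G)), Finset.sdiff_inter_self_left]
  have hb : ∀ H : Finset ι, |∑ m ∈ H, a m| ≤ C * H.card := by
    intro H
    calc |∑ m ∈ H, a m| ≤ ∑ m ∈ H, |a m| := Finset.abs_sum_le_sum_abs _ _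
      _ ≤ ∑ _m ∈ H, C := Finset.sum_le_sum fun m _ => hC m
      _ = C * H.card := by rw [Finset.sum_const, nsmul_eq_mul, mul_comm]
  rw [h1, e1, e2, Finset.inter_comm G F]
  have k1 := hb (G \ F)
  have k2 := hb (F \ G)
  rw [h3] at k2
  rw [h2] at k1 k2
  calc |∑ m ∈ G \ F, a m + ∑ m ∈ F ∩ G, a m - (∑ m ∈ F \ G, a m + ∑ m ∈ F ∩ G, a m)|
      = |∑ m ∈ G \ F, a m - ∑ m ∈ F \ G, a m| := by congr 1; ring
    _ ≤ |∑ m ∈ G \ F, a m| + |∑ m ∈ F \ G, a m| := abs_sub _ _
    _ ≤ 2 * C * ((F.filter fun n => s n ∉ F).card : ℝ) := by linarith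

/-- iterated shifts in both directions -/
lemma shift_box (F : Finset (ℕ × ℕ)) (a : ℕ × ℕ → ℝ) {C : ℝ} (hC : ∀ n, |a n| ≤ C) (i j : ℕ) :
    |∑ n ∈ F, a (n.1 + i, n.2 + j) - ∑ n ∈ F, a n| ≤
      2 * C * (i * ((F.filter fun n => (n.1 + 1, n.2) ∉ F).card : ℝ) +
        j * ((F.filter fun n => (n.1, n.2 + 1) ∉ F).card : ℝ)) := by
  classical
  have h1 : ∀ j : ℕ, |∑ n ∈ F, a (n.1, n.2 + j) - ∑ n ∈ F, a n| ≤
      2 * C * (j * ((F.filter fun n => (n.1, n.2 + 1) ∉ F).card : ℝ)) := by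
    intro j
    induction j with
    | zero => simp
    | succ j ih =>
      have k := shift_sum F (fun n => (n.1, n.2 + 1)) (by
        rintro ⟨x, y⟩ ⟨x', y'⟩ h
        simp only [Prod.mk.injEq] at h
        ext
        · exact h.1
        · simp only; omega) (fun n => a (n.1, n.2 + j)) (fun n => hC _)
      simp only at k
      have e : ∀ n : ℕ × ℕ, a (n.1, n.2 + 1 + j) = a (n.1, n.2 + (j + 1)) := by
        intro n
        congr 2
        ring
      simp only [e] at k
      calc |∑ n ∈ F, a (n.1, n.2 + (j + 1)) - ∑ n ∈ F, a n|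
          = |(∑ n ∈ F, a (n.1, n.2 + (j + 1)) - ∑ n ∈ F, a (n.1, n.2 + j)) +
              (∑ n ∈ F, a (n.1, n.2 + j) - ∑ n ∈ F, a n)| := by congr 1; ring
        _ ≤ _ := abs_add_le _ _
        _ ≤ 2 * C * ((F.filter fun n => (n.1, n.2 + 1) ∉ F).card : ℝ) +
            2 * C * (j * ((F.filter fun n => (n.1, n.2 + 1) ∉ F).card : ℝ)) := add_le_add k ih
        _ = _ := by push_cast; ring
  induction i with
  | zero => simpa using h1 j
  | succ i ih =>
    have k := shift_sum F (fun n => (n.1 + 1, n.2)) (by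
      rintro ⟨x, y⟩ ⟨x', y'⟩ h
      simp only [Prod.mk.injEq] at h
      ext
      · simp only; omega
      · exact h.2) (fun n => a (n.1 + i, n.2 + j)) (fun n => hC _)
    simp only at k
    have e : ∀ n : ℕ × ℕ, a (n.1 + 1 + i, n.2 + j) = a (n.1 + (i + 1), n.2 + j) := by
      intro n
      congr 2
      ring
    simp only [e] at k
    calc |∑ n ∈ F, a (n.1 + (i + 1), n.2 + j) - ∑ n ∈ F, a n|
        = |(∑ n ∈ F, a (n.1 + (i + 1), n.2 + j) - ∑ n ∈ F, a (n.1 + i, n.2 + j)) +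
            (∑ n ∈ F, a (n.1 + i, n.2 + j) - ∑ n ∈ F, a n)| := by congr 1; ring
      _ ≤ _ := abs_add_le _ _
      _ ≤ 2 * C * ((F.filter fun n => (n.1 + 1, n.2) ∉ F).card : ℝ) +
          2 * C * (i * ((F.filter fun n => (n.1 + 1, n.2) ∉ F).card : ℝ) +
            j * ((F.filter fun n => (n.1, n.2 + 1) ∉ F).card : ℝ)) := add_le_add k ih
      _ = _ := by push_cast; ring

/-! ### box averages -/

/-- the average over a box of exponents -/
noncomputable def box (p q : ℕ) (g : UnitAddCircle → ℝ) (N : ℕ) (n : ℕ × ℕ) (x : UnitAddCircle) :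
    ℝ :=
  (N : ℝ)⁻¹ * ∑ i ∈ Finset.range N, ((N : ℝ)⁻¹ * ∑ j ∈ Finset.range N,
    g ((p ^ (n.1 + i) * q ^ (n.2 + j)) • x))

lemma box_eq (p q : ℕ) (g : UnitAddCircle → ℝ) (N : ℕ) (n : ℕ × ℕ) (x : UnitAddCircle) :
    ((box p q g N n x : ℝ) : ℂ) = AVf (fun x : UnitAddCircle => p • x) (fun x => q • x)
      (fun x => ((g x : ℝ) : ℂ)) n.1 N n.2 N x := by
  have hit : ∀ (r k : ℕ) (y : UnitAddCircle), (fun x : UnitAddCircle => r • x)^[k] y = r ^ k • y := by
    intro r k
    induction k with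
    | zero => intro y; simp
    | succ k ih =>
      intro y
      rw [Function.iterate_succ_apply, ih, smul_smul, pow_succ]
  unfold box AVf
  push_cast
  congr 1
  refine Finset.sum_congr rfl fun i _ => ?_
  congr 1
  refine Finset.sum_congr rfl fun j _ => ?_
  rw [hit, hit, smul_smul, mul_comm (q ^ (n.2 + j))]

lemma smul_cont (r : ℕ) : Continuous fun x : UnitAddCircle => r • x := continuous_nsmul r

lemma bdd (g : C(UnitAddCircle, ℝ)) (x : UnitAddCircle) : |g x| ≤ ‖g‖ := by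
  rw [← Real.norm_eq_abs]
  exact g.norm_coe_le_norm x

lemma box_cont (p q : ℕ) (g : C(UnitAddCircle, ℝ)) (N : ℕ) (n : ℕ × ℕ) :
    Continuous (box p q g N n) := by
  unfold box
  refine continuous_const.mul (continuous_finsetSum _ fun i _ => ?_)
  refine continuous_const.mul (continuous_finsetSum _ fun j _ => ?_)
  exact g.continuous.comp (smul_cont _)

lemma ave_cont (p q : ℕ) (F : Finset (ℕ × ℕ)) (g : C(UnitAddCircle, ℝ)) :
    Continuous (ave p q F g) := by
  unfold ave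
  refine continuous_const.mul (continuous_finsetSum _ fun n _ => ?_)
  exact g.continuous.comp (smul_cont _)

lemma cont_int {μ : Measure UnitAddCircle} [IsFiniteMeasure μ] {f : UnitAddCircle → ℝ}
    (hf : Continuous f) : Integrable f μ := by
  obtain ⟨C, hC⟩ := isCompact_univ.exists_bound_of_continuousOn (f := f) hf.continuousOn
  exact Integrable.of_bound hf.aestronglyMeasurable C (Eventually.of_forall fun x => hC x (mem_univ x))

lemma ave_sub (p q : ℕ) (F : Finset (ℕ × ℕ)) (g g' : C(UnitAddCircle, ℝ)) (x : UnitAddCircle) :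
    |ave p q F g x - ave p q F g' x| ≤ ‖g - g'‖ := by
  unfold ave
  rw [← mul_sub, ← Finset.sum_sub_distrib, abs_mul, abs_inv, Nat.abs_cast]
  rcases F.eq_empty_or_nonempty with h | h
  · subst h
    simp
  · have hF : (0 : ℝ) < F.card := by exact_mod_cast h.card_pos
    rw [inv_mul_le_iff₀ hF]
    calc |∑ n ∈ F, (g ((p ^ n.1 * q ^ n.2) • x) - g' ((p ^ n.1 * q ^ n.2) • x))|
        ≤ ∑ n ∈ F, |g ((p ^ n.1 * q ^ n.2) • x) - g' ((p ^ n.1 * q ^ n.2) • x)| :=
          Finset.abs_sum_le_sum_abs _ _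
      _ ≤ ∑ _n ∈ F, ‖g - g'‖ := Finset.sum_le_sum fun n _ => bdd (g - g') _
      _ = F.card * ‖g - g'‖ := by rw [Finset.sum_const, nsmul_eq_mul]

lemma int_sub_le {μ : Measure UnitAddCircle} [IsProbabilityMeasure μ] (g g' : C(UnitAddCircle, ℝ)) :
    |∫ y, g y ∂μ - ∫ y, g' y ∂μ| ≤ ‖g - g'‖ := by
  rw [← integral_sub (cont_int g.continuous) (cont_int g'.continuous)]
  have h := norm_integral_le_of_norm_le_const (μ := μ) (C := ‖g - g'‖)
    (f := fun y => g y - g' y) (Eventually.of_forall fun x => (g - g').norm_coe_le_norm x)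
  simpa using h

/-- box averages converge in the mean, uniformly in the corner -/
lemma box_mean {p q : ℕ} {μ : Measure UnitAddCircle} [IsProbabilityMeasure μ]
    (hp : MeasurePreserving (fun x : UnitAddCircle => p • x) μ μ)
    (hq : MeasurePreserving (fun x : UnitAddCircle => q • x) μ μ)
    (hJ : ∀ E, MeasurableSet E → (fun x : UnitAddCircle => p • x) ⁻¹' E = E →
      (fun x : UnitAddCircle => q • x) ⁻¹' E = E → μ E = 0 ∨ μ E = 1)
    (g : C(UnitAddCircle, ℝ)) {ε : ℝ} (hε : 0 < ε) :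
    ∃ N : ℕ, 0 < N ∧ ∀ n : ℕ × ℕ, ∫ x, |box p q g N n x - ∫ y, g y ∂μ| ∂μ ≤ ε := by
  set C : ℝ := ‖g‖ + 1 with hC
  have hC0 : 0 < C := by positivity
  have hst : ∀ x : UnitAddCircle, p • (q • x) = q • (p • x) := fun x => by
    rw [smul_smul, smul_smul, mul_comm]
  set f : UnitAddCircle → ℂ := fun x => ((C⁻¹ * g x : ℝ) : ℂ) with hf
  have hfm : Measurable f := by
    exact (Complex.continuous_ofReal.comp (continuous_const.mul g.continuous)).measurable
  have hfb : ∀ x, ‖f x‖ ≤ 1 := by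
    intro x
    simp only [hf]
    rw [Complex.norm_real, Real.norm_eq_abs, abs_mul, abs_inv, abs_of_pos hC0, inv_mul_le_iff₀ hC0]
    have := bdd g x
    linarith
  obtain ⟨N₀, hN⟩ := fn_box (S := fun x : UnitAddCircle => p • x) (T := fun x => q • x)
    (μ := μ) hJ hp hq hst hfm hfb (ε := ε / C) (by positivity)
  refine ⟨N₀ + 1, by omega, fun n => ?_⟩
  have h1 := hN (N₀ + 1) (N₀ + 1) (by omega) (by omega) n.1 n.2
  have h2 : ∀ x, ‖AVf (fun x : UnitAddCircle => p • x) (fun x => q • x) f n.1 (N₀ + 1) n.2 (N₀ + 1) x -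
      ∫ y, f y ∂μ‖ = C⁻¹ * |box p q g (N₀ + 1) n x - ∫ y, g y ∂μ| := by
    intro x
    have e1 : AVf (fun x : UnitAddCircle => p • x) (fun x => q • x) f n.1 (N₀ + 1) n.2 (N₀ + 1) x =
        ((C⁻¹ * box p q g (N₀ + 1) n x : ℝ) : ℂ) := by
      have := box_eq p q (fun x => C⁻¹ * g x) (N₀ + 1) n x
      rw [← this]
      congr 1
      unfold box
      simp only [Finset.mul_sum]
      refine Finset.sum_congr rfl fun i _ => Finset.sum_congr rfl fun j _ => ?_
      ring
    have e2 : ∫ y, f y ∂μ = ((C⁻¹ * ∫ y, g y ∂μ : ℝ) : ℂ) := by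
      simp only [hf]
      rw [integral_complex_ofReal, integral_const_mul]
    rw [e1, e2, ← Complex.ofReal_sub, Complex.norm_real, Real.norm_eq_abs, ← mul_sub, abs_mul,
      abs_inv, abs_of_pos hC0]
  simp only [h2] at h1
  rw [integral_const_mul, inv_mul_le_iff₀ hC0, mul_div_cancel₀ _ hC0.ne'] at h1
  exact h1

/-- averages of box averages -/
lemma ave_box (p q : ℕ) (F : Finset (ℕ × ℕ)) (g : C(UnitAddCircle, ℝ)) {N : ℕ} (hN : 0 < N)
    (x : UnitAddCircle) :
    |(F.card : ℝ)⁻¹ * ∑ n ∈ F, box p q g N n x - ave p q F g x| ≤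
      2 * ‖g‖ * N * (((F.filter fun n => (n.1 + 1, n.2) ∉ F).card : ℝ) / F.card +
        ((F.filter fun n => (n.1, n.2 + 1) ∉ F).card : ℝ) / F.card) := by
  have hN0 : (0 : ℝ) < N := by exact_mod_cast hN
  set a : ℕ × ℕ → ℝ := fun n => g ((p ^ n.1 * q ^ n.2) • x) with ha
  set l1 : ℝ := ((F.filter fun n => (n.1 + 1, n.2) ∉ F).card : ℝ) with hl1
  set l2 : ℝ := ((F.filter fun n => (n.1, n.2 + 1) ∉ F).card : ℝ) with hl2
  have hl10 : 0 ≤ l1 := Nat.cast_nonneg _
  have hl20 : 0 ≤ l2 := Nat.cast_nonneg _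
  have hg0 : 0 ≤ ‖g‖ := norm_nonneg _
  have h1 : ∑ n ∈ F, box p q g N n x - ∑ n ∈ F, a n =
      (N : ℝ)⁻¹ * ∑ i ∈ Finset.range N, ((N : ℝ)⁻¹ * ∑ j ∈ Finset.range N,
        (∑ n ∈ F, a (n.1 + i, n.2 + j) - ∑ n ∈ F, a n)) := by
    have e1 : ∑ n ∈ F, box p q g N n x = (N : ℝ)⁻¹ * ∑ i ∈ Finset.range N,
        ((N : ℝ)⁻¹ * ∑ j ∈ Finset.range N, ∑ n ∈ F, a (n.1 + i, n.2 + j)) := by
      unfold box
      rw [← Finset.mul_sum, Finset.sum_comm]
      congr 1
      refine Finset.sum_congr rfl fun i _ => ?_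
      rw [← Finset.mul_sum, Finset.sum_comm]
    have e2 : ∑ n ∈ F, a n = (N : ℝ)⁻¹ * ∑ i ∈ Finset.range N,
        ((N : ℝ)⁻¹ * ∑ j ∈ Finset.range N, ∑ n ∈ F, a n) := by
      rw [Finset.sum_const, Finset.card_range, nsmul_eq_mul, ← mul_assoc, inv_mul_cancel₀ hN0.ne',
        one_mul, Finset.sum_const, Finset.card_range, nsmul_eq_mul, ← mul_assoc,
        inv_mul_cancel₀ hN0.ne', one_mul]
    rw [e1]
    conv_lhs => rw [e2]
    rw [← mul_sub, ← Finset.sum_sub_distrib]
    congr 1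
    refine Finset.sum_congr rfl fun i _ => ?_
    rw [← mul_sub, ← Finset.sum_sub_distrib]
  have h2 : |∑ n ∈ F, box p q g N n x - ∑ n ∈ F, a n| ≤ 2 * ‖g‖ * N * (l1 + l2) := by
    rw [h1, abs_mul, abs_inv, Nat.abs_cast, inv_mul_le_iff₀ hN0]
    calc |∑ i ∈ Finset.range N, ((N : ℝ)⁻¹ * ∑ j ∈ Finset.range N,
        (∑ n ∈ F, a (n.1 + i, n.2 + j) - ∑ n ∈ F, a n))|
        ≤ ∑ i ∈ Finset.range N, |(N : ℝ)⁻¹ * ∑ j ∈ Finset.range N,
          (∑ n ∈ F, a (n.1 + i, n.2 + j) - ∑ n ∈ F, a n)| := Finset.abs_sum_le_sum_abs _ _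
      _ ≤ ∑ _i ∈ Finset.range N, (2 * ‖g‖ * N * (l1 + l2)) := by
          refine Finset.sum_le_sum fun i hi => ?_
          rw [abs_mul, abs_inv, Nat.abs_cast, inv_mul_le_iff₀ hN0]
          calc |∑ j ∈ Finset.range N, (∑ n ∈ F, a (n.1 + i, n.2 + j) - ∑ n ∈ F, a n)|
              ≤ ∑ j ∈ Finset.range N, |∑ n ∈ F, a (n.1 + i, n.2 + j) - ∑ n ∈ F, a n| :=
                Finset.abs_sum_le_sum_abs _ _
            _ ≤ ∑ _j ∈ Finset.range N, (2 * ‖g‖ * N * (l1 + l2)) := by
                refine Finset.sum_le_sum fun j hj => ?_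
                refine (shift_box F a (fun n => bdd g _) i j).trans ?_
                have hi' : (i : ℝ) ≤ N := by exact_mod_cast (Finset.mem_range.1 hi).le
                have hj' : (j : ℝ) ≤ N := by exact_mod_cast (Finset.mem_range.1 hj).le
                have k1 : (i : ℝ) * l1 ≤ N * l1 := mul_le_mul_of_nonneg_right hi' hl10
                have k2 : (j : ℝ) * l2 ≤ N * l2 := mul_le_mul_of_nonneg_right hj' hl20
                calc 2 * ‖g‖ * (i * l1 + j * l2) ≤ 2 * ‖g‖ * (N * l1 + N * l2) := by gcongr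
                  _ = _ := by ring
            _ = _ := by rw [Finset.sum_const, Finset.card_range, nsmul_eq_mul]
      _ = _ := by rw [Finset.sum_const, Finset.card_range, nsmul_eq_mul]
  unfold ave
  rw [← mul_sub, abs_mul, abs_inv, Nat.abs_cast]
  calc (F.card : ℝ)⁻¹ * |∑ n ∈ F, box p q g N n x - ∑ n ∈ F, g ((p ^ n.1 * q ^ n.2) • x)|
      ≤ (F.card : ℝ)⁻¹ * (2 * ‖g‖ * N * (l1 + l2)) :=
        mul_le_mul_of_nonneg_left h2 (inv_nonneg.2 (Nat.cast_nonneg _))
    _ = _ := by ring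

/-- **Folner averages converge in the mean.** -/
theorem folner_mean {p q : ℕ} {μ : Measure UnitAddCircle} [IsProbabilityMeasure μ]
    (hp : MeasurePreserving (fun x : UnitAddCircle => p • x) μ μ)
    (hq : MeasurePreserving (fun x : UnitAddCircle => q • x) μ μ)
    (hJ : ∀ E, MeasurableSet E → (fun x : UnitAddCircle => p • x) ⁻¹' E = E →
      (fun x : UnitAddCircle => q • x) ⁻¹' E = E → μ E = 0 ∨ μ E = 1)
    {F : ℕ → Finset (ℕ × ℕ)} (hF : Folner F) (g : C(UnitAddCircle, ℝ)) :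
    Tendsto (fun k => ∫ x, |ave p q (F k) g x - ∫ y, g y ∂μ| ∂μ) atTop (𝓝 0) := by
  obtain ⟨hF1, hF2, hF3⟩ := hF
  rw [Metric.tendsto_atTop]
  intro ε hε
  obtain ⟨N, hN0, hN⟩ := box_mean hp hq hJ g (ε := ε / 2) (by positivity)
  have hlim : Tendsto (fun k => 2 * ‖g‖ * N * ((((F k).filter fun n => (n.1 + 1, n.2) ∉ F k).card : ℝ) /
      (F k).card + (((F k).filter fun n => (n.1, n.2 + 1) ∉ F k).card : ℝ) / (F k).card))
      atTop (𝓝 0) := by
    have := (hF2.add hF3).const_mul (2 * ‖g‖ * N)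
    simpa using this
  have hev := hlim.eventually (gt_mem_nhds (show (0 : ℝ) < ε / 2 by positivity))
  obtain ⟨k₀, hk₀⟩ := eventually_atTop.1 hev
  refine ⟨k₀, fun k hk => ?_⟩
  have hδ := hk₀ k hk
  set δ : ℝ := 2 * ‖g‖ * N * ((((F k).filter fun n => (n.1 + 1, n.2) ∉ F k).card : ℝ) /
      (F k).card + (((F k).filter fun n => (n.1, n.2 + 1) ∉ F k).card : ℝ) / (F k).card) with hδd
  have hcard : (0 : ℝ) < (F k).card := by exact_mod_cast (hF1 k).card_pos
  set I : ℝ := ∫ y, g y ∂μ with hI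
  have hb : ∀ x, |ave p q (F k) g x - I| ≤
      ((F k).card : ℝ)⁻¹ * ∑ n ∈ F k, |box p q g N n x - I| + δ := by
    intro x
    have h1 := ave_box p q (F k) g hN0 x
    have h2 : ((F k).card : ℝ)⁻¹ * ∑ n ∈ F k, box p q g N n x - I =
        ((F k).card : ℝ)⁻¹ * ∑ n ∈ F k, (box p q g N n x - I) := by
      rw [Finset.sum_sub_distrib, Finset.sum_const, nsmul_eq_mul, mul_sub, ← mul_assoc,
        inv_mul_cancel₀ hcard.ne', one_mul]
    calc |ave p q (F k) g x - I|
        = |(((F k).card : ℝ)⁻¹ * ∑ n ∈ F k, box p q g N n x - I) -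
            (((F k).card : ℝ)⁻¹ * ∑ n ∈ F k, box p q g N n x - ave p q (F k) g x)| := by
          congr 1; ring
      _ ≤ |((F k).card : ℝ)⁻¹ * ∑ n ∈ F k, box p q g N n x - I| +
          |((F k).card : ℝ)⁻¹ * ∑ n ∈ F k, box p q g N n x - ave p q (F k) g x| := abs_sub _ _
      _ ≤ ((F k).card : ℝ)⁻¹ * ∑ n ∈ F k, |box p q g N n x - I| + δ := by
          refine add_le_add ?_ h1
          rw [h2, abs_mul, abs_inv, Nat.abs_cast]
          exact mul_le_mul_of_nonneg_left (Finset.abs_sum_le_sum_abs _ _)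
            (inv_nonneg.2 (Nat.cast_nonneg _))
  have hbi : ∀ n, Integrable (fun x => |box p q g N n x - I|) μ := fun n =>
    cont_int ((box_cont p q g N n).sub continuous_const).abs
  have hint : ∫ x, |ave p q (F k) g x - I| ∂μ ≤ ε / 2 + δ := by
    calc ∫ x, |ave p q (F k) g x - I| ∂μ
        ≤ ∫ x, (((F k).card : ℝ)⁻¹ * ∑ n ∈ F k, |box p q g N n x - I| + δ) ∂μ := by
          refine integral_mono (cont_int ((ave_cont p q (F k) g).sub continuous_const).abs) ?_ hb
          exact ((integrable_finsetSum _ fun n _ => hbi n).const_mul _).add (integrable_const _)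
      _ = ((F k).card : ℝ)⁻¹ * ∑ n ∈ F k, ∫ x, |box p q g N n x - I| ∂μ + δ := by
          rw [integral_add ((integrable_finsetSum _ fun n _ => hbi n).const_mul _)
            (integrable_const _), integral_const_mul, integral_finsetSum _ fun n _ => hbi n]
          simp
      _ ≤ ((F k).card : ℝ)⁻¹ * ∑ _n ∈ F k, (ε / 2) + δ := by
          gcongr with n _
          exact hN n
      _ = ε / 2 + δ := by
          rw [Finset.sum_const, nsmul_eq_mul, ← mul_assoc, inv_mul_cancel₀ hcard.ne', one_mul]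
  rw [Real.dist_eq, sub_zero, abs_of_nonneg (integral_nonneg fun x => abs_nonneg _)]
  linarith

/-! ### generic points -/

/-- a point is generic if the averages converge for a dense sequence of functions -/
lemma mem_Gen_of_seq {p q : ℕ} {F : ℕ → Finset (ℕ × ℕ)} {μ : Measure UnitAddCircle}
    [IsProbabilityMeasure μ] {x : UnitAddCircle}
    (h : ∀ m : ℕ, Tendsto (fun k => ave p q (F k)
      (TopologicalSpace.denseSeq C(UnitAddCircle, ℝ) m) x) atTop
      (𝓝 (∫ y, (TopologicalSpace.denseSeq C(UnitAddCircle, ℝ) m) y ∂μ))) : x ∈ Gen p q F μ := by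
  intro g
  rw [Metric.tendsto_atTop]
  intro ε hε
  obtain ⟨m, hm⟩ : ∃ m, dist g (TopologicalSpace.denseSeq C(UnitAddCircle, ℝ) m) < ε / 3 := by
    have hd := TopologicalSpace.denseRange_denseSeq C(UnitAddCircle, ℝ)
    exact hd.exists_dist_lt g (by positivity)
  set g' := TopologicalSpace.denseSeq C(UnitAddCircle, ℝ) m with hg'
  rw [dist_eq_norm] at hm
  obtain ⟨k₀, hk⟩ := Metric.tendsto_atTop.1 (h m) (ε / 3) (by positivity)
  refine ⟨k₀, fun k hk' => ?_⟩
  have h1 := hk k hk'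
  have h2 := ave_sub p q (F k) g g' x
  have h3 := int_sub_le (μ := μ) g g'
  rw [Real.dist_eq] at h1 ⊢
  rw [abs_lt] at h1 ⊢
  rw [abs_le] at h2 h3
  constructor <;> linarith [h1.1, h1.2, h2.1, h2.2, h3.1, h3.2]

lemma Gen_eq (p q : ℕ) (F : ℕ → Finset (ℕ × ℕ)) (μ : Measure UnitAddCircle)
    [IsProbabilityMeasure μ] : Gen p q F μ = ⋂ m : ℕ, {x | Tendsto (fun k => ave p q (F k)
      (TopologicalSpace.denseSeq C(UnitAddCircle, ℝ) m) x) atTop
      (𝓝 (∫ y, (TopologicalSpace.denseSeq C(UnitAddCircle, ℝ) m) y ∂μ))} := by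
  ext x
  rw [mem_iInter]
  exact ⟨fun h m => h _, fun h => mem_Gen_of_seq h⟩

theorem gen_meas (p q : ℕ) (F : ℕ → Finset (ℕ × ℕ)) (μ : Measure UnitAddCircle)
    [IsProbabilityMeasure μ] : MeasurableSet (Gen p q F μ) := by
  rw [Gen_eq]
  refine MeasurableSet.iInter fun m => ?_
  exact measurableSet_tendsto (𝓝 _) fun k => (ave_cont p q (F k) _).measurable

/-- **Almost every point is generic along a subsequence of a Folner sequence.** -/
theorem folner_subseq {p q : ℕ} {μ : Measure UnitAddCircle} [IsProbabilityMeasure μ]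
    (hp : MeasurePreserving (fun x : UnitAddCircle => p • x) μ μ)
    (hq : MeasurePreserving (fun x : UnitAddCircle => q • x) μ μ)
    (hJ : ∀ E, MeasurableSet E → (fun x : UnitAddCircle => p • x) ⁻¹' E = E →
      (fun x : UnitAddCircle => q • x) ⁻¹' E = E → μ E = 0 ∨ μ E = 1)
    {F : ℕ → Finset (ℕ × ℕ)} (hF : Folner F) :
    ∃ φ : ℕ → ℕ, StrictMono φ ∧ μ (Gen p q (F ∘ φ) μ) = 1 := by
  set D : ℕ → C(UnitAddCircle, ℝ) := TopologicalSpace.denseSeq C(UnitAddCircle, ℝ) with hD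
  have hmean := fun m => folner_mean hp hq hJ hF (D m)
  obtain ⟨φ, hφ, hP⟩ := extraction_forall_of_eventually
    (P := fun j k => ∀ m ≤ j, ∫ x, |ave p q (F k) (D m) x - ∫ y, D m y ∂μ| ∂μ ≤ (1 / 2 : ℝ) ^ j) (by
      intro j
      have h1 : ∀ m : ℕ, ∀ᶠ k in atTop,
          ∫ x, |ave p q (F k) (D m) x - ∫ y, D m y ∂μ| ∂μ ≤ (1 / 2 : ℝ) ^ j := fun m =>
        ((hmean m).eventually (gt_mem_nhds (show (0 : ℝ) < (1 / 2) ^ j by positivity))).mono
          fun k hk => le_of_lt hk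
      have h2 : ∀ᶠ k in atTop, ∀ m ∈ Finset.range (j + 1),
          ∫ x, |ave p q (F k) (D m) x - ∫ y, D m y ∂μ| ∂μ ≤ (1 / 2 : ℝ) ^ j :=
        (eventually_all_finset _).2 fun m _ => h1 m
      filter_upwards [h2] with k hk m hm
      exact hk m (Finset.mem_range.2 (by omega)))
  refine ⟨φ, hφ, ?_⟩
  have hae : ∀ᵐ x ∂μ, ∀ m : ℕ, Tendsto (fun k => ave p q ((F ∘ φ) k) (D m) x) atTop
      (𝓝 (∫ y, D m y ∂μ)) := by
    rw [ae_all_iff]
    intro m
    set H : ℕ → UnitAddCircle → ℝ := fun j x => |ave p q (F (φ (j + m))) (D m) x - ∫ y, D m y ∂μ|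
      with hH
    have hHc : ∀ j, Continuous (H j) := fun j => ((ave_cont p q _ (D m)).sub continuous_const).abs
    have hHi : ∀ j, ∫⁻ x, ENNReal.ofReal (H j x) ∂μ ≤ ENNReal.ofReal ((1 / 2 : ℝ) ^ j) := by
      intro j
      rw [← ofReal_integral_eq_lintegral_ofReal (cont_int (hHc j))
        (Eventually.of_forall fun x => abs_nonneg _)]
      apply ENNReal.ofReal_le_ofReal
      refine (hP (j + m) m (by omega)).trans ?_
      exact pow_le_pow_of_le_one (by norm_num) (by norm_num) (by omega)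
    have hsum : ∫⁻ x, ∑' j, ENNReal.ofReal (H j x) ∂μ ≠ ∞ := by
      rw [lintegral_tsum fun j => ((hHc j).measurable.ennreal_ofReal).aemeasurable]
      refine ne_of_lt (lt_of_le_of_lt (ENNReal.tsum_le_tsum hHi) ?_)
      rw [← ENNReal.ofReal_tsum_of_nonneg (fun j => by positivity)
        (summable_geometric_of_lt_one (by norm_num) (by norm_num))]
      exact ENNReal.ofReal_lt_top
    have hfin := ae_lt_top' (AEMeasurable.ennreal_tsum fun j =>
      ((hHc j).measurable.ennreal_ofReal).aemeasurable) hsum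
    filter_upwards [hfin] with x hx
    have h0 := ENNReal.tendsto_atTop_zero_of_tsum_ne_top hx.ne
    have h1 : Tendsto (fun j => H j x) atTop (𝓝 0) := by
      have h2 := (ENNReal.tendsto_toReal ENNReal.zero_ne_top).comp h0
      simp only [ENNReal.toReal_zero] at h2
      refine h2.congr fun j => ?_
      simp only [Function.comp_apply]
      exact ENNReal.toReal_ofReal (abs_nonneg _)
    have h3 : Tendsto (fun j => ave p q (F (φ (j + m))) (D m) x) atTop (𝓝 (∫ y, D m y ∂μ)) := by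
      rw [tendsto_iff_norm_sub_tendsto_zero]
      exact h1
    exact (tendsto_add_atTop_iff_nat (f := fun k => ave p q (F (φ k)) (D m) x) m).1 h3
  have hG : ∀ᵐ x ∂μ, x ∈ Gen p q (F ∘ φ) μ := by
    filter_upwards [hae] with x hx
    exact mem_Gen_of_seq hx
  exact (mem_ae_iff_prob_eq_one (gen_meas p q (F ∘ φ) μ)).1 hG

end Pool.Agent.Zk26.FS
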