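import Pool.Agent.Zk26.SU
import Mathlib.LinearAlgebra.Lagrange

set_option autoImplicit false

/-!
`S`-unit solutions of `2 δ + 1` linear forms in general position in `δ + 1` variables, and monic
polynomials of degree `δ` whose values at `2 δ + 1` points are `S`-units.
-/

namespace Pool.Agent.Zk26

open NumberField IsDedekindDomain Height Filter Topology Polynomial
open Pool.Agent.W180.OP (Pl av wt fv)
open Pool.Agent.K1H83.VN

variable {K : Type} [Field K] [NumberField K]

theorem height_finite' {ι : Type} [Fintype ι] (B : ℝ) :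
    {x : ι → K | ∑ i, logHeight₁ (x i) ≤ B}.Finite := by
  have h1 : {x : K | logHeight₁ x ≤ B}.Finite := by
    refine (NumberField.finite_setOfPred_mulHeight₁_le K (Real.exp B)).subset fun x hx => ?_
    show mulHeight₁ x ≤ Real.exp B
    have h2 : Real.log (mulHeight₁ x) ≤ B := hx
    exact (Real.log_le_iff_le_exp (mulHeight₁_pos x)).1 h2
  have h2 : (Set.univ.pi (fun _ : ι => {x : K | logHeight₁ x ≤ B})).Finite :=
    Set.Finite.pi' (fun _ => h1) |>.subset (by
      intro x hx i
      exact hx i (Set.mem_univ i))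
  refine h2.subset fun x hx i _ => ?_
  have hx' : ∑ i, logHeight₁ (x i) ≤ B := hx
  exact (Finset.single_le_sum (f := fun i => logHeight₁ (x i))
    (fun j _ => zero_le_logHeight₁ _) (Finset.mem_univ i)).trans hx'

/-- units satisfying all the relations between `2 δ + 1` linear forms in general position -/
theorem unit_forms (S : Finset (Pl K)) (hS : infS K ⊆ S) {ι : Type} [Fintype ι] [DecidableEq ι]
    (δ : ℕ) (hcard : 2 * δ + 1 ≤ Fintype.card ι) (i₀ : ι) (c : Finset ι → ι → K)
    (hc : ∀ I : Finset ι, I.card = δ + 2 → ∀ i ∈ I, c I i ≠ 0) :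
    {x : ι → K | x i₀ = 1 ∧ (∀ i, IsSU S (x i)) ∧
      ∀ I : Finset ι, I.card = δ + 2 → ∑ i ∈ I, c I i * x i = 0}.Finite := by
  classical
  by_contra hinf
  have hinf : {x : ι → K | x i₀ = 1 ∧ (∀ i, IsSU S (x i)) ∧
      ∀ I : Finset ι, I.card = δ + 2 → ∑ i ∈ I, c I i * x i = 0}.Infinite := hinf
  have hS' : ∀ w : InfinitePlace K, (Sum.inl w : Pl K) ∈ S := fun w => hS (mem_infS w)
  obtain ⟨x, hinj, hx⟩ : ∃ x : ℕ → (ι → K), Function.Injective x ∧
      ∀ t, x t i₀ = 1 ∧ (∀ i, IsSU S (x t i)) ∧
        ∀ I : Finset ι, I.card = δ + 2 → ∑ i ∈ I, c I i * x t i = 0 :=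
    ⟨fun t => (hinf.natEmbedding _ t : ι → K), fun s t h => (hinf.natEmbedding _).injective
      (Subtype.ext h), fun t => (hinf.natEmbedding _ t).2⟩
  have hlim : Tendsto (fun t => ∑ i, logHeight₁ (x t i)) atTop atTop := by
    rw [← Nat.cofinite_eq_atTop]
    have h1 : Tendsto (fun y : ι → K => ∑ i, logHeight₁ (y i)) cofinite atTop := by
      rw [← northcott_iff_tendsto]
      exact ⟨fun B => height_finite' B⟩
    exact h1.comp hinj.tendsto_cofinite
  let σ : Sc := ⟨hyperfilter ℕ, _, hlim.mono_left Nat.hyperfilter_le_atTop⟩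
  have hσL : ∀ t, σ.L t = ∑ i, logHeight₁ (x t i) := fun t => rfl
  let U : ι → G K σ := fun i => gm σ (fun t => x t i)
  have hUrep : ∀ i, ∀ᶠ t in (σ.𝒰 : Filter ℕ), rep (U i) t = x t i := fun i => rep_gm _
  have hUS : ∀ i, SU S (U i) := by
    intro i
    filter_upwards [hUrep i] with t ht
    rw [ht]
    exact (hx t).2.1 i
  have hUB : ∀ i, U i ∈ BB K σ := by
    intro i
    rw [mem_BB]
    refine ⟨1, ?_⟩
    filter_upwards [hUrep i] with t ht
    rw [ht, hσL, one_mul]
    exact Finset.single_le_sum (f := fun i => logHeight₁ (x t i))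
      (fun j _ => zero_le_logHeight₁ _) (Finset.mem_univ i)
  have hU0 : ∀ i, U i ≠ 0 := fun i => (hUS i).ne_zero
  have hUone : U i₀ = 1 := by
    have h1 : (fun t => x t i₀) = (1 : ℕ → K) := by
      funext t
      exact (hx t).1
    show gm σ (fun t => x t i₀) = 1
    rw [h1, map_one]
  have hrel : ∀ I : Finset ι, I.card = δ + 2 →
      ∑ i ∈ I, algebraMap K (G K σ) (c I i) * U i = 0 := by
    intro I hI
    have h2 : ∀ i, algebraMap K (G K σ) (c I i) * U i =
        gm σ ((fun _ => c I i) * (fun t => x t i)) := by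
      intro i
      rw [alg_eq, ← map_mul]
    rw [Finset.sum_congr rfl (fun i _ => h2 i), ← map_sum]
    have h3 : ∑ i ∈ I, ((fun _ => c I i) * (fun t => x t i) : ℕ → K) = 0 := by
      funext t
      rw [Finset.sum_apply]
      exact (hx t).2.2 I hI
    rw [h3, map_zero]
  -- the classes
  let s : Setoid ι :=
    { r := fun o o' => U o / U o' ∈ FF K σ
      iseqv := by
        refine ⟨fun o => ?_, fun {o o'} h => ?_, fun {o o' o''} h h' => ?_⟩
        · rw [div_self (hU0 o)]; exact (FF K σ).one_mem
        · have := (FF K σ).inv_mem h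
          rwa [inv_div] at this
        · have := (FF K σ).mul_mem h h'
          rwa [div_mul_div_cancel₀ (hU0 o')] at this }
  have hout : ∀ o : ι, U o / U ((⟦o⟧ : Quotient s).out) ∈ FF K σ := by
    intro o
    have h1 : s.r ((⟦o⟧ : Quotient s).out) o := Quotient.mk_out o
    exact s.symm h1
  have hlonely : ∀ I : Finset ι, I.card = δ + 2 → ∀ i ∈ I,
      ∃ j ∈ I, j ≠ i ∧ (⟦j⟧ : Quotient s) = ⟦i⟧ := by
    intro I hI i hi
    by_contra hno
    push Not at hno
    let C : Quotient s → G K σ := fun q =>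
      ∑ o ∈ I.filter (fun o => (⟦o⟧ : Quotient s) = q),
        algebraMap K (G K σ) (c I o) * (U o / U q.out)
    have hCF : ∀ q, C q ∈ FF K σ := by
      intro q
      refine (FF K σ).sum_mem fun o ho => ?_
      rw [Finset.mem_filter] at ho
      rw [← ho.2]
      exact (FF K σ).mul_mem (alg_mem _) (hout o)
    have hCsum : ∑ q, C q * U q.out = 0 := by
      rw [← hrel I hI, ← Finset.sum_fiberwise I (fun o => (⟦o⟧ : Quotient s))
        (fun o => algebraMap K (G K σ) (c I o) * U o)]
      refine Finset.sum_congr rfl fun q _ => ?_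
      show (∑ o ∈ I.filter (fun o => (⟦o⟧ : Quotient s) = q),
        algebraMap K (G K σ) (c I o) * (U o / U q.out)) * U q.out = _
      rw [Finset.sum_mul]
      refine Finset.sum_congr rfl fun o _ => ?_
      have := hU0 q.out
      field_simp
    have hC0 := sui hS' (fun q : Quotient s => U q.out) (fun q => hUS _) (fun q => hUB _) (by
      intro q q' hqq h
      apply hqq
      have h1 : s.r q.out q'.out := h
      have h2 := Quotient.sound h1
      rwa [Quotient.out_eq, Quotient.out_eq] at h2) C hCF hCsum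
    have h1 : C ⟦i⟧ = 0 := hC0 ⟦i⟧
    have h2 : I.filter (fun o => (⟦o⟧ : Quotient s) = ⟦i⟧) = {i} := by
      ext j
      rw [Finset.mem_filter, Finset.mem_singleton]
      constructor
      · rintro ⟨h3, h4⟩
        by_contra h5
        exact hno j h3 h5 h4
      · rintro rfl
        exact ⟨hi, rfl⟩
    have h3 : C ⟦i⟧ = algebraMap K (G K σ) (c I i) * (U i / U ((⟦i⟧ : Quotient s).out)) := by
      show ∑ o ∈ I.filter (fun o => (⟦o⟧ : Quotient s) = ⟦i⟧),
        algebraMap K (G K σ) (c I o) * (U o / U ((⟦i⟧ : Quotient s).out)) = _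
      rw [h2, Finset.sum_singleton]
    rw [h3] at h1
    rcases mul_eq_zero.mp h1 with h4 | h4
    · exact hc I hI i hi ((map_eq_zero (algebraMap K (G K σ))).mp h4)
    · exact (div_ne_zero (hU0 i) (hU0 _)) h4
  have hout' : ∀ i, (Finset.univ.filter (fun j => ¬ ((⟦j⟧ : Quotient s) = ⟦i⟧))).card ≤ δ := by
    intro i
    by_contra h
    push Not at h
    obtain ⟨J, hJ, hJc⟩ := Finset.exists_subset_card_eq (show δ + 1 ≤ _ from h)
    have hiJ : i ∉ J := by
      intro h1
      have h2 := hJ h1
      rw [Finset.mem_filter] at h2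
      exact h2.2 rfl
    obtain ⟨j, hj, hji, hjc⟩ := hlonely (insert i J) (by
      rw [Finset.card_insert_of_notMem hiJ, hJc]) i (Finset.mem_insert_self _ _)
    rcases Finset.mem_insert.mp hj with h1 | h1
    · exact hji h1
    · have h2 := hJ h1
      rw [Finset.mem_filter] at h2
      exact h2.2 hjc
  have hclass : ∀ i j : ι, (⟦j⟧ : Quotient s) = ⟦i⟧ := by
    intro i j
    by_contra hij
    have h1 := hout' i
    have h2 := hout' j
    have h3 : (Finset.univ : Finset ι) ⊆
        Finset.univ.filter (fun k => ¬ ((⟦k⟧ : Quotient s) = ⟦i⟧)) ∪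
        Finset.univ.filter (fun k => ¬ ((⟦k⟧ : Quotient s) = ⟦j⟧)) := by
      intro k _
      rw [Finset.mem_union, Finset.mem_filter, Finset.mem_filter]
      by_cases hk : (⟦k⟧ : Quotient s) = ⟦i⟧
      · right
        refine ⟨Finset.mem_univ _, fun h4 => hij ?_⟩
        rw [← h4, hk]
      · left
        exact ⟨Finset.mem_univ _, hk⟩
    have h4 := (Finset.card_le_card h3).trans (Finset.card_union_le _ _)
    rw [Finset.card_univ] at h4
    omega
  have hall : ∀ i, U i ∈ FF K σ := by
    intro i
    have h1 : U i / U i₀ ∈ FF K σ := Quotient.exact (hclass i₀ i)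
    rwa [hUone, div_one] at h1
  -- contradiction with the heights
  set n := Fintype.card ι with hn
  have h1 : ∀ i, ∀ᶠ t in (σ.𝒰 : Filter ℕ),
      logHeight₁ (rep (U i) t) ≤ 1 / (2 * (n + 1)) * σ.L t := fun i =>
    (mem_FF _).1 (hall i) _ (by positivity)
  have h2 : ∀ᶠ t in (σ.𝒰 : Filter ℕ), ∀ i,
      logHeight₁ (rep (U i) t) ≤ 1 / (2 * (n + 1)) * σ.L t := by
    rw [Filter.eventually_all]
    exact h1
  have h3 : ∀ᶠ t in (σ.𝒰 : Filter ℕ), ∀ i, rep (U i) t = x t i := by
    rw [Filter.eventually_all]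
    exact hUrep
  obtain ⟨t, ht1, ht2, ht3⟩ := (h2.and (h3.and (L_pos (σ := σ)))).exists
  have h4 : σ.L t ≤ ∑ i : ι, 1 / (2 * ((n : ℝ) + 1)) * σ.L t := by
    conv_lhs => rw [hσL]
    refine Finset.sum_le_sum fun i _ => ?_
    have := ht1 i
    rwa [ht2 i] at this
  rw [Finset.sum_const, Finset.card_univ, ← hn, nsmul_eq_mul] at h4
  have h5 : (n : ℝ) * (1 / (2 * ((n : ℝ) + 1)) * σ.L t) = (n / (2 * ((n : ℝ) + 1))) * σ.L t := by
    ring
  rw [h5] at h4
  have h6 : (n : ℝ) / (2 * ((n : ℝ) + 1)) < 1 := by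
    rw [div_lt_one (by positivity)]
    have : (0 : ℝ) ≤ n := Nat.cast_nonneg n
    linarith
  nlinarith

section vl

variable {F : Type} [Field F]

/-- the value of a polynomial of degree at most `δ` at a point of the projective line -/
noncomputable def vl (δ : ℕ) (g : F[X]) (o : Option F) : F :=
  o.elim (g.coeff δ) (fun a => g.eval a)

theorem vl_none (δ : ℕ) (g : F[X]) : vl δ g none = g.coeff δ := rfl

theorem vl_some (δ : ℕ) (g : F[X]) (a : F) : vl δ g (some a) = g.eval a := rfl

/-- the relation between `δ + 2` values -/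
theorem vl_rel [DecidableEq F] (δ : ℕ) (I : Finset (Option F)) (hI : I.card = δ + 2) :
    ∃ c : Option F → F, (∀ i ∈ I, c i ≠ 0) ∧
      ∀ g : F[X], g.natDegree ≤ δ → ∑ i ∈ I, c i * vl δ g i = 0 := by
  classical
  by_cases hn : none ∈ I
  · set T : Finset F := I.eraseNone with hT
    have hTI : I = Finset.insertNone T := by
      rw [hT, Finset.insertNone_eraseNone]
      exact (Finset.insert_eq_of_mem hn).symm
    have hTc : T.card = δ + 1 := by
      have h1 := hI
      rw [hTI, Finset.card_insertNone] at h1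
      omega
    refine ⟨fun o => o.elim (-1) (fun a => (∏ b ∈ T.erase a, (a - b))⁻¹), ?_, ?_⟩
    · intro i _
      cases i with
      | none => exact neg_ne_zero.mpr one_ne_zero
      | some a =>
        refine inv_ne_zero (Finset.prod_ne_zero_iff.mpr fun b hb => ?_)
        exact sub_ne_zero.mpr (Finset.ne_of_mem_erase hb).symm
    · intro g hg
      have h1 := Lagrange.coeff_eq_sum (s := T) (v := id) (Set.injOn_id _) (P := g) (by
        rw [hTc]
        exact lt_of_le_of_lt degree_le_natDegree (by exact_mod_cast Nat.lt_succ_of_le hg))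
      rw [hTc, Nat.add_sub_cancel] at h1
      rw [hTI, Finset.sum_insertNone]
      show (-1 : F) * g.coeff δ + ∑ a ∈ T, (∏ b ∈ T.erase a, (a - b))⁻¹ * g.eval a = 0
      rw [h1]
      have h2 : ∑ i ∈ T, eval (id i) g / ∏ j ∈ T.erase i, (id i - id j) =
          ∑ a ∈ T, (∏ b ∈ T.erase a, (a - b))⁻¹ * g.eval a := by
        refine Finset.sum_congr rfl fun a _ => ?_
        simp only [id]
        rw [div_eq_inv_mul]
      rw [h2]
      ring
  · set T : Finset F := I.eraseNone with hT
    have hTI : I = T.map Function.Embedding.some := by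
      rw [hT, Finset.map_some_eraseNone, Finset.erase_eq_of_notMem hn]
    have hTc : T.card = δ + 2 := by
      have h1 := hI
      rw [hTI, Finset.card_map] at h1
      exact h1
    refine ⟨fun o => o.elim (-1) (fun a => (∏ b ∈ T.erase a, (a - b))⁻¹), ?_, ?_⟩
    · intro i _
      cases i with
      | none => exact neg_ne_zero.mpr one_ne_zero
      | some a =>
        refine inv_ne_zero (Finset.prod_ne_zero_iff.mpr fun b hb => ?_)
        exact sub_ne_zero.mpr (Finset.ne_of_mem_erase hb).symm
    · intro g hg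
      have h1 := Lagrange.coeff_eq_sum (s := T) (v := id) (Set.injOn_id _) (P := g) (by
        rw [hTc]
        exact lt_of_le_of_lt degree_le_natDegree (by exact_mod_cast (by omega : g.natDegree < δ + 2)))
      rw [hTc, show δ + 2 - 1 = δ + 1 by omega,
        coeff_eq_zero_of_natDegree_lt (Nat.lt_succ_of_le hg)] at h1
      rw [hTI, Finset.sum_map]
      show ∑ a ∈ T, (∏ b ∈ T.erase a, (a - b))⁻¹ * g.eval a = 0
      rw [h1]
      refine Finset.sum_congr rfl fun a _ => ?_
      simp only [id]
      rw [div_eq_inv_mul]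

end vl

/-- monic polynomials of degree `δ` whose values at `2 δ + 1` points have ratios which are
`S`-units -/
theorem bd_poly (S : Finset (Pl K)) (hS : infS K ⊆ S) (δ : ℕ) (hδ : 1 ≤ δ)
    (T : Finset (Option K)) (hT : 2 * δ + 1 ≤ T.card) :
    {g : K[X] | g.Monic ∧ g.natDegree = δ ∧
      ∀ i ∈ T, ∀ j ∈ T, IsSU S (vl δ g i / vl δ g j)}.Finite := by
  classical
  have hne : T.Nonempty := by
    rw [← Finset.card_pos]
    omega
  obtain ⟨i₀, hi₀⟩ := hne
  have hrel : ∀ I : Finset T, ∃ c : T → K, I.card = δ + 2 → (∀ i ∈ I, c i ≠ 0) ∧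
      ∀ g : K[X], g.natDegree ≤ δ → ∑ i ∈ I, c i * vl δ g (i : Option K) = 0 := by
    intro I
    by_cases hI : I.card = δ + 2
    · obtain ⟨c, h1, h2⟩ := vl_rel δ (I.map (Function.Embedding.subtype _)) (by
        rw [Finset.card_map]; exact hI)
      refine ⟨fun i => c i, fun _ => ⟨fun i hi => h1 i ?_, fun g hg => ?_⟩⟩
      · exact Finset.mem_map_of_mem _ hi
      · have h3 := h2 g hg
        rw [Finset.sum_map] at h3
        exact h3
    · exact ⟨0, fun h => absurd h hI⟩
  choose c hc using hrel
  have hfin := unit_forms S hS (ι := T) δ (by rw [Fintype.card_coe]; exact hT) ⟨i₀, hi₀⟩ c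
    (fun I hI => (hc I hI).1)
  set Φ : K[X] → (T → K) := fun g i => vl δ g (i : Option K) / vl δ g i₀ with hΦ
  refine Set.Finite.of_finite_image (f := Φ) (hfin.subset ?_) ?_
  · rintro _ ⟨g, ⟨hgm, hgd, hg⟩, rfl⟩
    have h0 : vl δ g i₀ ≠ 0 := by
      intro h
      have := (hg i₀ hi₀ i₀ hi₀).1
      rw [h, div_zero] at this
      exact this rfl
    refine ⟨?_, ?_, ?_⟩
    · show vl δ g i₀ / vl δ g i₀ = 1
      exact div_self h0
    · intro i
      exact hg i i.2 i₀ hi₀
    · intro I hI
      have h1 := (hc I hI).2 g hgd.le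
      show ∑ i ∈ I, c I i * (vl δ g (i : Option K) / vl δ g i₀) = 0
      have h2 : ∀ i ∈ I, c I i * (vl δ g (i : Option K) / vl δ g i₀) =
          c I i * vl δ g (i : Option K) / vl δ g i₀ := fun i _ => by ring
      rw [Finset.sum_congr rfl h2, ← Finset.sum_div, h1, zero_div]
  · rintro g ⟨hgm, hgd, hg⟩ h ⟨hhm, hhd, hh⟩ hgh
    have hg0 : vl δ g i₀ ≠ 0 := by
      intro h
      have := (hg i₀ hi₀ i₀ hi₀).1
      rw [h, div_zero] at this
      exact this rfl
    have hh0 : vl δ h i₀ ≠ 0 := by
      intro h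
      have := (hh i₀ hi₀ i₀ hi₀).1
      rw [h, div_zero] at this
      exact this rfl
    set lam : K := vl δ g i₀ / vl δ h i₀ with hlam
    have h1 : ∀ i ∈ T, vl δ g i = lam * vl δ h i := by
      intro i hi
      have h2 : vl δ g i / vl δ g i₀ = vl δ h i / vl δ h i₀ := congrFun hgh ⟨i, hi⟩
      rw [hlam]
      field_simp at h2 ⊢
      linear_combination h2
    set T₀ : Finset K := T.eraseNone with hT₀
    have hT₀c : δ + 1 ≤ T₀.card := by
      by_cases hn : none ∈ T
      · have h2 : T = Finset.insertNone T₀ := by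
          rw [hT₀, Finset.insertNone_eraseNone]
          exact (Finset.insert_eq_of_mem hn).symm
        have h3 := hT
        rw [h2, Finset.card_insertNone] at h3
        omega
      · have h2 : T = T₀.map Function.Embedding.some := by
          rw [hT₀, Finset.map_some_eraseNone, Finset.erase_eq_of_notMem hn]
        have h3 := hT
        rw [h2, Finset.card_map] at h3
        omega
    have h2 : g - C lam * h = 0 := by
      refine Polynomial.eq_zero_of_degree_lt_of_eval_finset_eq_zero T₀ ?_ ?_
      · refine lt_of_le_of_lt ?_ (show ((δ : ℕ) : WithBot ℕ) < T₀.card by exact_mod_cast hT₀c)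
        refine (degree_sub_le _ _).trans (max_le ?_ ?_)
        · rw [← hgd]; exact degree_le_natDegree
        · refine (degree_mul_le _ _).trans ?_
          have h3 : (C lam : K[X]).degree ≤ 0 := degree_C_le
          calc (C lam : K[X]).degree + h.degree ≤ 0 + (δ : WithBot ℕ) :=
                add_le_add h3 (by rw [← hhd]; exact degree_le_natDegree)
            _ = δ := zero_add _
      · intro a ha
        have h3 := h1 (some a) (Finset.mem_eraseNone.mp ha)
        rw [vl_some, vl_some] at h3
        rw [eval_sub, eval_mul, eval_C, h3, sub_self]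
    have h3 : g = C lam * h := sub_eq_zero.mp h2
    have h4 : lam = 1 := by
      have h5 := congrArg (fun p : K[X] => p.coeff δ) h3
      simp only [coeff_C_mul] at h5
      rw [show g.coeff δ = 1 by rw [← hgd]; exact hgm, show h.coeff δ = 1 by rw [← hhd]; exact hhm,
        mul_one] at h5
      exact h5.symm
    rw [h3, h4, C_1, one_mul]

end Pool.Agent.Zk26
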