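import Pool.Agent.Zk26.BDLoc

set_option autoImplicit false

/-!
Algebraic numbers of bounded degree at which a product of powers of linear factors, with at least
`2 d + 1` zeros and poles, is a unit outside `m`.
-/

namespace Pool.Agent.Zk26

open NumberField IsDedekindDomain Polynomial
open Pool.Agent.W180.OP (Pl fv)
open Pool.Agent.K1H83.VN

section pq

variable {F : Type} [Field F]

/-- the numerator of `∏ (X - z) ^ e z` -/
noncomputable def numP (Z : Finset F) (e : F → ℤ) : F[X] := ∏ z ∈ Z, (X - C z) ^ (e z).toNat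

theorem numP_monic (Z : Finset F) (e : F → ℤ) : (numP Z e).Monic :=
  monic_prod_of_monic _ _ fun z _ => (monic_X_sub_C z).pow _

theorem numP_splits (Z : Finset F) (e : F → ℤ) : (numP Z e).Splits :=
  Splits.prod fun z _ => (Splits.X_sub_C z).pow _

theorem numP_natDegree (Z : Finset F) (e : F → ℤ) : (numP Z e).natDegree = ∑ z ∈ Z, (e z).toNat := by
  unfold numP
  rw [natDegree_prod_of_monic _ _ fun z _ => (monic_X_sub_C z).pow _]
  refine Finset.sum_congr rfl fun z _ => ?_
  rw [natDegree_pow, natDegree_X_sub_C, mul_one]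

theorem numP_coprime (Z : Finset F) (e : F → ℤ) :
    IsCoprime (numP Z e) (numP Z (fun z => - e z)) := by
  unfold numP
  refine IsCoprime.prod_left fun z _ => IsCoprime.prod_right fun w _ => ?_
  by_cases hzw : z = w
  · subst hzw
    rcases le_total (e z) 0 with h | h
    · rw [Int.toNat_of_nonpos h, pow_zero]
      exact isCoprime_one_left
    · rw [Int.toNat_of_nonpos (neg_nonpos.mpr h), pow_zero]
      exact isCoprime_one_right
  · exact (pairwise_coprime_X_sub_C (s := (id : F → F)) Function.injective_id hzw).pow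

theorem numP_mul (Z : Finset F) (e : F → ℤ) :
    numP Z e * numP Z (fun z => - e z) = ∏ z ∈ Z, (X - C z) ^ (e z).natAbs := by
  unfold numP
  rw [← Finset.prod_mul_distrib]
  refine Finset.prod_congr rfl fun z _ => ?_
  rw [← pow_add]
  congr 1
  show (e z).toNat + (- e z).toNat = (e z).natAbs
  omega

theorem numP_roots [DecidableEq F] (Z : Finset F) (e : F → ℤ) (z : F) :
    z ∈ (numP Z e * numP Z (fun z => - e z)).roots ↔ z ∈ Z ∧ e z ≠ 0 := by
  rw [numP_mul, mem_roots (Finset.prod_ne_zero_iff.mpr fun w _ =>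
    pow_ne_zero _ (X_sub_C_ne_zero w)), IsRoot.def, eval_prod, Finset.prod_eq_zero_iff]
  constructor
  · rintro ⟨w, hw, h⟩
    rw [eval_pow, eval_sub, eval_X, eval_C] at h
    have h1 : z - w = 0 ∧ (e w).natAbs ≠ 0 := pow_eq_zero_iff'.mp h
    have h2 : z = w := sub_eq_zero.mp h1.1
    subst h2
    exact ⟨hw, fun h3 => h1.2 (by rw [h3]; rfl)⟩
  · rintro ⟨hz, h0⟩
    refine ⟨z, hz, ?_⟩
    rw [eval_pow, eval_sub, eval_X, eval_C, sub_self]
    exact zero_pow (Int.natAbs_ne_zero.mpr h0)

theorem numP_deg (Z : Finset F) (e : F → ℤ) :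
    ((numP Z e).natDegree : ℤ) - (numP Z (fun z => - e z)).natDegree = ∑ z ∈ Z, e z := by
  rw [numP_natDegree, numP_natDegree]
  push_cast
  rw [← Finset.sum_sub_distrib]
  refine Finset.sum_congr rfl fun z _ => ?_
  rcases le_total (e z) 0 with h | h
  · rw [Int.ofNat_toNat, Int.ofNat_toNat]
    omega
  · rw [Int.ofNat_toNat, Int.ofNat_toNat]
    omega

theorem numP_aeval {E : Type} [Field E] [Algebra F E] (Z : Finset F) (e : F → ℤ) (q : E) :
    aeval q (numP Z e) = ∏ z ∈ Z, (q - algebraMap F E z) ^ (e z).toNat := by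
  unfold numP
  rw [map_prod]
  refine Finset.prod_congr rfl fun z _ => ?_
  rw [map_pow, map_sub, aeval_X, aeval_C]

end pq

/-- **Finiteness in bounded degree.** -/
theorem bd_finite {K : Type} [Field K] [NumberField K] {Ω : Type} [Field Ω] [Algebra K Ω]
    {m : ℕ} (hm : m ≠ 0) (Z : Finset K) (hZ : ∀ z ∈ Z, MI m z)
    (hZ2 : ∀ z ∈ Z, ∀ w ∈ Z, z ≠ w → MU m (z - w)) (d : ℕ) :
    {q : Ω | IsIntegral K q ∧ (minpoly K q).natDegree ≤ d ∧
      ∃ e : K → ℤ, 2 * d + 1 ≤ {z ∈ (Z : Set K) | e z ≠ 0}.ncard +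
          (if ∑ z ∈ Z, e z = 0 then 0 else 1) ∧
        ∃ β : K, MU m β ∧ ∏ z ∈ Z, (q - algebraMap K Ω z) ^ e z = algebraMap K Ω β}.Finite := by
  classical
  obtain ⟨S, hS, hSU⟩ := exists_S (K := K) m hm
  set A : Finset (Option K) := Finset.insertNone Z with hA
  set 𝒢 : Set K[X] := ⋃ δ ∈ Finset.Icc 1 d, ⋃ T ∈ A.powerset.filter (fun T => 2 * d + 1 ≤ T.card),
    {g : K[X] | g.Monic ∧ g.natDegree = δ ∧
      ∀ i ∈ T, ∀ j ∈ T, IsSU S (vl δ g i / vl δ g j)} with h𝒢
  have h𝒢f : 𝒢.Finite := by
    refine Set.Finite.biUnion (Finset.finite_toSet _) fun δ hδ => ?_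
    refine Set.Finite.biUnion (Finset.finite_toSet _) fun T hT => ?_
    have hδ' := Finset.mem_Icc.mp (Finset.mem_coe.mp hδ)
    have hT' := (Finset.mem_filter.mp (Finset.mem_coe.mp hT)).2
    exact bd_poly S hS δ hδ'.1 T (by omega)
  have hfin : (⋃ g ∈ 𝒢 \ {0}, {q : Ω | aeval q g = 0}).Finite := by
    refine Set.Finite.biUnion (h𝒢f.subset Set.sdiff_subset) fun g hg => ?_
    have hg0 : g ≠ 0 := fun h => hg.2 h
    have h1 : g.map (algebraMap K Ω) ≠ 0 := by
      rwa [Ne, Polynomial.map_eq_zero]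
    refine ((g.map (algebraMap K Ω)).roots.toFinset.finite_toSet).subset fun q hq => ?_
    rw [Finset.mem_coe, Multiset.mem_toFinset, mem_roots h1, IsRoot.def, eval_map_algebraMap]
    exact hq
  refine hfin.subset ?_
  rintro q ⟨hq, hqd, e, he, β, hβ, heq⟩
  set g := minpoly K q with hg
  have hgm : g.Monic := minpoly.monic hq
  have hδ1 : 1 ≤ g.natDegree := minpoly.natDegree_pos hq
  set P := numP Z e with hP
  set Q := numP Z (fun z => - e z) with hQ
  have hβ0 : algebraMap K Ω β ≠ 0 := by
    rw [_root_.map_ne_zero]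
    exact hβ.1
  have hne : ∀ z ∈ Z, e z ≠ 0 → q - algebraMap K Ω z ≠ 0 := by
    intro z hz hez h0
    apply hβ0
    rw [← heq]
    refine Finset.prod_eq_zero hz ?_
    rw [h0, zero_zpow _ hez]
  have haev : aeval q P = algebraMap K Ω β * aeval q Q := by
    rw [hP, hQ, numP_aeval, numP_aeval, ← heq, ← Finset.prod_mul_distrib]
    refine Finset.prod_congr rfl fun z hz => ?_
    by_cases h0 : e z = 0
    · rw [h0]
      simp
    · have h1 := hne z hz h0
      rw [← zpow_natCast, ← zpow_natCast, ← zpow_add₀ h1]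
      congr 1
      rw [Int.ofNat_toNat, Int.ofNat_toNat]
      omega
  have hdvd : g ∣ P - C β * Q := by
    apply minpoly.dvd
    rw [map_sub, map_mul, aeval_C, haev, sub_self]
  obtain ⟨h1, h2, h3⟩ := ratio_units hm (numP_splits Z e) (numP_splits Z fun z => - e z)
    (numP_monic Z e) (numP_monic Z fun z => - e z) (numP_coprime Z e) (by
      intro a ha
      exact hZ a ((numP_roots Z e a).1 ha).1) (by
      intro a ha b hb hab
      exact hZ2 a ((numP_roots Z e a).1 ha).1 b ((numP_roots Z e b).1 hb).1 hab) hβ hgm hdvd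
  set T₀ : Finset K := Z.filter (fun z => e z ≠ 0) with hT₀
  set T : Finset (Option K) := if ∑ z ∈ Z, e z = 0 then T₀.map Function.Embedding.some
    else Finset.insertNone T₀ with hT
  have hT₀c : {z ∈ (Z : Set K) | e z ≠ 0}.ncard = T₀.card := by
    rw [← Set.ncard_coe_finset]
    congr 1
    ext z
    rw [hT₀, Finset.coe_filter]
    rfl
  have hTc : 2 * d + 1 ≤ T.card := by
    rw [hT₀c] at he
    rw [hT]
    split_ifs with h4
    · rw [if_pos h4] at he
      rw [Finset.card_map]
      omega
    · rw [if_neg h4] at he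
      rw [Finset.card_insertNone]
      omega
  have hTA : T ⊆ A := by
    rw [hT, hA]
    split_ifs with h4
    · intro i hi
      rw [Finset.mem_map] at hi
      obtain ⟨z, hz, rfl⟩ := hi
      rw [Finset.mem_insertNone]
      intro w hw
      have h5 : z = w := Option.some.inj (Option.mem_def.mp hw)
      rw [← h5]
      exact (Finset.mem_filter.mp hz).1
    · intro i hi
      rw [Finset.mem_insertNone] at hi ⊢
      intro w hw
      exact (Finset.mem_filter.mp (hi w hw)).1
  have hcoeff : g.coeff g.natDegree = 1 := hgm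
  have hdeg : ∑ z ∈ Z, e z ≠ 0 → P.natDegree ≠ Q.natDegree := by
    intro h4 h5
    apply h4
    rw [← numP_deg Z e]
    show (P.natDegree : ℤ) - (Q.natDegree : ℤ) = 0
    rw [h5, sub_self]
  have hunit : ∀ i ∈ T, ∀ j ∈ T, MU m (vl g.natDegree g i / vl g.natDegree g j) := by
    have hsome : ∀ z, some z ∈ T → z ∈ (P * Q).roots := by
      intro z hz
      rw [numP_roots]
      have h5 : z ∈ T₀ := by
        rw [hT] at hz
        split_ifs at hz with h4
        · rw [Finset.mem_map] at hz
          obtain ⟨w, hw, hwz⟩ := hz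
          have h6 : w = z := Option.some.inj hwz
          rwa [← h6]
        · rw [Finset.mem_insertNone] at hz
          exact hz z rfl
      exact Finset.mem_filter.mp h5
    have hnone : none ∈ T → P.natDegree ≠ Q.natDegree := by
      intro h4
      apply hdeg
      intro h5
      rw [hT, if_pos h5, Finset.mem_map] at h4
      obtain ⟨w, -, hw⟩ := h4
      exact Option.some_ne_none w hw
    intro i hi j hj
    cases i with
    | none =>
      cases j with
      | none =>
        rw [vl_none, hcoeff, div_one]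
        exact MU.one m
      | some b =>
        rw [vl_none, hcoeff, vl_some]
        exact (MU.one m).div (h3 (hnone hi) b (hsome b hj))
    | some a =>
      cases j with
      | none =>
        rw [vl_none, hcoeff, vl_some, div_one]
        exact h3 (hnone hj) a (hsome a hi)
      | some b =>
        exact h2 a (hsome a hi) b (hsome b hj)
  refine Set.mem_biUnion (x := g) ⟨?_, ?_⟩ (minpoly.aeval K q)
  · rw [h𝒢]
    simp only [Set.mem_iUnion]
    refine ⟨g.natDegree, Finset.mem_Icc.mpr ⟨hδ1, hqd⟩, T, ?_, hgm, rfl, ?_⟩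
    · rw [Finset.mem_filter, Finset.mem_powerset]
      exact ⟨hTA, hTc⟩
    · intro i hi j hj
      exact hSU _ (hunit i hi j hj)
  · exact hgm.ne_zero

end Pool.Agent.Zk26
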