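import Pool.Agent.Zk26.BDLog
import Pool.Agent.R350.HI

set_option autoImplicit false

/-!
Linear relations, with coefficients in an arbitrary finite dimensional space of complex numbers,
between the logarithms of the values of rational functions at algebraic numbers of bounded degree.
-/

namespace Pool.Agent.Zk26

open Polynomial
open Pool.Agent.H301R2.SSE (QB mem_QB Lt Lt_mul Lt_one Lt_log Lt_alg)
open Pool.Agent.R350 (exSp suppI mem_suppI exSp_bound)

/-- the values at an algebraic number -/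
theorem aeval_alg {q : ℂ} (hq : IsAlgebraic ℚ q) (T : QB[X]) : IsAlgebraic ℚ (aeval q T) := by
  rw [← mem_QB]
  have h3 := aeval_algebraMap_apply ℂ (⟨q, mem_QB.mpr hq⟩ : QB) T
  rw [coe_aeval_eq_eval] at h3
  have h4 : aeval q T = ((T.eval (⟨q, mem_QB.mpr hq⟩ : QB) : QB) : ℂ) := h3
  rw [h4]
  exact (T.eval _).2

/-- finitely many zeros -/
theorem zeros_finite {R : QB[X]} (hR : R ≠ 0) : {q : ℂ | aeval q R = 0}.Finite := by
  classical
  have h2 : R.map (algebraMap QB ℂ) ≠ 0 := by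
    rwa [Ne, Polynomial.map_eq_zero]
  refine ((R.map (algebraMap QB ℂ)).roots.toFinset.finite_toSet).subset fun q hq => ?_
  rw [Finset.mem_coe, Multiset.mem_toFinset, mem_roots h2, IsRoot.def, eval_map_algebraMap]
  exact hq

/-- a vector outside a subspace is detected by a functional -/
theorem exists_fun {V : Submodule QB ℂ} {x : ℂ} (hx : x ∉ V) :
    ∃ φ : ℂ →ₗ[QB] QB, (∀ v ∈ V, φ v = 0) ∧ φ x ≠ 0 := by
  obtain ⟨φ, h1, h2⟩ := Submodule.exists_le_ker_of_notMem hx
  exact ⟨φ, fun v hv => LinearMap.mem_ker.mp (h2 hv), h1⟩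

/-- **Relations with coefficients in a finite dimensional space.** -/
theorem gen_bd (W : Submodule QB ℂ) (hW : Module.Finite QB W)
    (K₀ : IntermediateField ℚ ℂ) [FiniteDimensional ℚ K₀] (d n : ℕ) (P Q : Fin n → QB[X])
    (hP : ∀ j, P j ≠ 0) (hQ : ∀ j, Q j ≠ 0)
    (h : ∀ a : Fin n → ℤ, a ≠ 0 → 2 * d + 1 ≤ {o | ∑ j, a j * ordQ (P j) (Q j) o ≠ 0}.ncard) :
    {q : ℂ | IsIntegral K₀ q ∧ (minpoly K₀ q).natDegree ≤ d ∧
      ¬ ((∀ j, aeval q (P j) ≠ 0 ∧ aeval q (Q j) ≠ 0) ∧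
        ∀ y : Fin n → ℂ, (∀ j, Complex.exp (y j) = aeval q (P j) / aeval q (Q j)) →
          ∀ w₀ ∈ W, ∀ w : Fin n → ℂ, (∀ j, w j ∈ W) →
            (w₀ + ∑ j, w j * y j ∈ Lt → ∀ j, IsAlgebraic ℚ (w j)) ∧
            (w₀ + ∑ j, w j * y j = 0 → w₀ = 0 ∧ ∀ j, w j = 0))}.Finite := by
  classical
  obtain ⟨hEf, -, hEle, -⟩ := exSp_bound Pool.Agent.R350.setup_complex.hyp
    Pool.Agent.R350.setup_complex.one W (m := Module.finrank QB W) le_rfl
  set E := exSp Lt W with hE
  have hbad := log_bd (E := E) hEle hEf K₀ d n P Q hP hQ h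
  have hroots : (⋃ j : Fin n, {q : ℂ | aeval q (P j) = 0} ∪ {q : ℂ | aeval q (Q j) = 0}).Finite :=
    Set.finite_iUnion fun j => (zeros_finite (hP j)).union (zeros_finite (hQ j))
  refine (hbad.union hroots).subset ?_
  rintro q ⟨hq, hqd, hno⟩
  by_contra hout
  apply hno
  have h0 : ∀ j, aeval q (P j) ≠ 0 ∧ aeval q (Q j) ≠ 0 := by
    intro j
    constructor
    · intro h1
      exact hout (Or.inr (Set.mem_iUnion.mpr ⟨j, Or.inl h1⟩))
    · intro h1
      exact hout (Or.inr (Set.mem_iUnion.mpr ⟨j, Or.inr h1⟩))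
  refine ⟨h0, fun y hy w₀ hw₀ w hw => ?_⟩
  have hind : ∀ c : Fin n → QB, ∑ j, c j • y j ∈ E → c = 0 := by
    intro c hc
    by_contra hc0
    exact hout (Or.inl ⟨hq, hqd, h0, y, hy, c, hc0, hc⟩)
  have hqalg : IsAlgebraic ℚ q := by
    have h1 : IsAlgebraic K₀ q := hq.isAlgebraic
    exact h1.restrictScalars ℚ
  have hylog : ∀ j, y j ∈ Lt := by
    intro j
    refine Lt_log ?_
    rw [hy j, div_eq_mul_inv]
    exact (aeval_alg hqalg _).mul (aeval_alg hqalg _).inv
  have h1E : (1 : ℂ) ∈ E := Submodule.mem_sup_right (Submodule.mem_span_singleton_self _)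
  have key : ∀ ℓ ∈ Lt, w₀ + ∑ j, w j * y j = ℓ → ∀ φ : ℂ →ₗ[QB] QB, (φ 1 = 0 ∨ ℓ = 0) →
      ∀ j, φ (w j) = 0 := by
    intro ℓ hℓ hsum φ hφ
    have hW' : ∀ x ∈ W, x ∈ W ⊔ Submodule.span QB {(1 : ℂ)} := fun x hx =>
      Submodule.mem_sup_left hx
    have h1 := mem_suppI (L := Lt) (Ω := W ⊔ Submodule.span QB {(1 : ℂ)})
      (τ := Option (Option (Fin n)))
      (fun t => t.elim 1 (fun s => s.elim w₀ w)) (fun t => t.elim (-ℓ) (fun s => s.elim 1 y)) (by
        rintro (_ | (_ | j))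
        · exact Submodule.mem_sup_right (Submodule.mem_span_singleton_self _)
        · exact hW' _ hw₀
        · exact hW' _ (hw j)) (by
        rintro (_ | (_ | j))
        · exact Lt.neg_mem hℓ
        · exact Lt_one
        · exact hylog j) (by
        rw [Fintype.sum_option, Fintype.sum_option]
        show (1 : ℂ) * (-ℓ) + (w₀ * 1 + ∑ j, w j * y j) = 0
        rw [← hsum]
        ring) φ
    rw [Fintype.sum_option, Fintype.sum_option] at h1
    have h2 : φ 1 • (-ℓ) + (φ w₀ • (1 : ℂ) + ∑ j, φ (w j) • y j) ∈ E :=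
      Submodule.mem_sup_left h1
    have h3 : φ 1 • (-ℓ) = 0 := by
      rcases hφ with h4 | h4
      · rw [h4, zero_smul]
      · rw [h4, neg_zero, smul_zero]
    rw [h3, zero_add] at h2
    have h5 : ∑ j, φ (w j) • y j ∈ E := by
      have h6 := E.sub_mem h2 (E.smul_mem (φ w₀) h1E)
      rwa [add_sub_cancel_left] at h6
    exact fun j => congrFun (hind _ h5) j
  constructor
  · intro hmem j
    by_contra hna
    have h1 : w j ∉ Submodule.span QB {(1 : ℂ)} := by
      intro h2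
      obtain ⟨c, hc⟩ := Submodule.mem_span_singleton.mp h2
      apply hna
      rw [← hc, Algebra.smul_def, mul_one]
      exact mem_QB.mp c.2
    obtain ⟨φ, hφ1, hφ2⟩ := exists_fun h1
    exact hφ2 (key _ hmem rfl φ (Or.inl (hφ1 1 (Submodule.mem_span_singleton_self _))) j)
  · intro hzero
    have hw0 : ∀ j, w j = 0 := by
      intro j
      by_contra hne
      obtain ⟨φ, -, hφ2⟩ := exists_fun (V := (⊥ : Submodule QB ℂ)) (x := w j) (by
        rw [Submodule.mem_bot]
        exact hne)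
      exact hφ2 (key 0 Lt.zero_mem hzero φ (Or.inr rfl) j)
    refine ⟨?_, hw0⟩
    rw [← hzero, Finset.sum_eq_zero (fun j _ => by rw [hw0 j, zero_mul]), add_zero]

end Pool.Agent.Zk26
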