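import Pool.Agent.Zk26.BD
import Pool.Agent.Zk26.RatVal

set_option autoImplicit false

/-!
Numbers which are algebraic integers up to powers of `m`; if the value of a product of linear
factors at a root of `g` is such a unit then so are the ratios of the values of `g` at the zeros
and poles.
-/

namespace Pool.Agent.Zk26

open NumberField IsDedekindDomain Polynomial
open Pool.Agent.W180.OP (Pl fv fv_apply fv_support_finite)
open Pool.Agent.K1H83.VN

/-- `x` is integral up to powers of `m` -/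
def MI {F : Type} [Field F] (m : ℕ) (x : F) : Prop := ∃ k : ℕ, IsIntegral ℤ ((m : F) ^ k * x)

/-- units -/
def MU {F : Type} [Field F] (m : ℕ) (x : F) : Prop := x ≠ 0 ∧ MI m x ∧ MI m x⁻¹

section basic

variable {F : Type} [Field F]

theorem natCast_int (m : ℕ) : IsIntegral ℤ (m : F) := by
  have := isIntegral_algebraMap (R := ℤ) (A := F) (x := (m : ℤ))
  simpa using this

theorem MI.of_le {m : ℕ} {x : F} {k l : ℕ} (hkl : k ≤ l) (h : IsIntegral ℤ ((m : F) ^ k * x)) :
    IsIntegral ℤ ((m : F) ^ l * x) := by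
  obtain ⟨j, rfl⟩ := Nat.exists_eq_add_of_le hkl
  have h1 : (m : F) ^ (k + j) * x = (m : F) ^ j * ((m : F) ^ k * x) := by ring
  rw [h1]
  exact ((natCast_int m).pow j).mul h

theorem MI.mul {m : ℕ} {x y : F} (hx : MI m x) (hy : MI m y) : MI m (x * y) := by
  obtain ⟨k, hk⟩ := hx
  obtain ⟨l, hl⟩ := hy
  refine ⟨k + l, ?_⟩
  have h1 : (m : F) ^ (k + l) * (x * y) = ((m : F) ^ k * x) * ((m : F) ^ l * y) := by ring
  rw [h1]
  exact hk.mul hl

theorem MI.add {m : ℕ} {x y : F} (hx : MI m x) (hy : MI m y) : MI m (x + y) := by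
  obtain ⟨k, hk⟩ := hx
  obtain ⟨l, hl⟩ := hy
  refine ⟨max k l, ?_⟩
  rw [mul_add]
  exact (MI.of_le (le_max_left k l) hk).add (MI.of_le (le_max_right k l) hl)

theorem MI.neg {m : ℕ} {x : F} (hx : MI m x) : MI m (-x) := by
  obtain ⟨k, hk⟩ := hx
  refine ⟨k, ?_⟩
  rw [mul_neg]
  exact hk.neg

theorem MI.sub {m : ℕ} {x y : F} (hx : MI m x) (hy : MI m y) : MI m (x - y) := by
  rw [sub_eq_add_neg]
  exact hx.add hy.neg

theorem MI.one (m : ℕ) : MI m (1 : F) := ⟨0, by rw [pow_zero, one_mul]; exact isIntegral_one⟩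

theorem MI.mono {m m' : ℕ} (h : m ∣ m') {x : F} (hx : MI m x) : MI m' x := by
  obtain ⟨k, hk⟩ := hx
  obtain ⟨c, rfl⟩ := h
  refine ⟨k, ?_⟩
  have h1 : ((m * c : ℕ) : F) ^ k * x = (c : F) ^ k * ((m : F) ^ k * x) := by push_cast; ring
  rw [h1]
  exact ((natCast_int c).pow k).mul hk

theorem MU.mono {m m' : ℕ} (h : m ∣ m') {x : F} (hx : MU m x) : MU m' x :=
  ⟨hx.1, hx.2.1.mono h, hx.2.2.mono h⟩

theorem MU.one (m : ℕ) : MU m (1 : F) := ⟨one_ne_zero, MI.one m, by rw [inv_one]; exact MI.one m⟩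

theorem MU.mul {m : ℕ} {x y : F} (hx : MU m x) (hy : MU m y) : MU m (x * y) :=
  ⟨mul_ne_zero hx.1 hy.1, hx.2.1.mul hy.2.1, by rw [mul_inv]; exact hx.2.2.mul hy.2.2⟩

theorem MU.inv {m : ℕ} {x : F} (hx : MU m x) : MU m x⁻¹ :=
  ⟨inv_ne_zero hx.1, hx.2.2, by rw [inv_inv]; exact hx.2.1⟩

theorem MU.div {m : ℕ} {x y : F} (hx : MU m x) (hy : MU m y) : MU m (x / y) := by
  rw [div_eq_mul_inv]
  exact hx.mul hy.inv

theorem MU.pow {m : ℕ} {x : F} (hx : MU m x) (n : ℕ) : MU m (x ^ n) := by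
  induction n with
  | zero => rw [pow_zero]; exact MU.one m
  | succ n ih => rw [pow_succ]; exact ih.mul hx

theorem MU.zpow {m : ℕ} {x : F} (hx : MU m x) (n : ℤ) : MU m (x ^ n) := by
  cases n with
  | ofNat n => rw [Int.ofNat_eq_natCast, zpow_natCast]; exact hx.pow n
  | negSucc n => rw [zpow_negSucc]; exact (hx.pow _).inv

theorem MU.prod {m : ℕ} {ι : Type} (s : Finset ι) (f : ι → F) (h : ∀ i ∈ s, MU m (f i)) :
    MU m (∏ i ∈ s, f i) :=
  Finset.prod_induction f (MU m) (fun _ _ => MU.mul) (MU.one m) h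

theorem MI.map_iff {E : Type} [Field E] (φ : F →+* E) (m : ℕ) (x : F) :
    MI m (φ x) ↔ MI m x := by
  unfold MI
  refine exists_congr fun k => ?_
  have h1 : (m : E) ^ k * φ x = φ ((m : F) ^ k * x) := by
    rw [map_mul, map_pow, map_natCast]
  rw [h1]
  exact isIntegral_algHom_iff (φ.toIntAlgHom) φ.injective

theorem MU.map_iff {E : Type} [Field E] (φ : F →+* E) (m : ℕ) (x : F) :
    MU m (φ x) ↔ MU m x := by
  unfold MU
  rw [MI.map_iff, ← map_inv₀, MI.map_iff, _root_.map_ne_zero]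

/-- algebraic numbers are integral up to powers of some `m` -/
theorem exists_MI [CharZero F] {x : F} (hx : IsAlgebraic ℚ x) : ∃ m : ℕ, m ≠ 0 ∧ MI m x := by
  have h1 : IsAlgebraic ℤ x := (IsFractionRing.isAlgebraic_iff ℤ ℚ F).mpr hx
  obtain ⟨y, hy, hyx⟩ := h1.exists_integral_multiple
  refine ⟨y.natAbs, Int.natAbs_ne_zero.mpr hy, 1, ?_⟩
  rw [pow_one]
  have h2 : (y.natAbs : F) = (y : F) ∨ (y.natAbs : F) = -(y : F) := by
    rw [Nat.cast_natAbs]
    rcases abs_choice y with h | h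
    · left; rw [h]
    · right; rw [h, Int.cast_neg]
  rw [zsmul_eq_mul] at hyx
  rcases h2 with h | h
  · rw [h]; exact hyx
  · rw [h, neg_mul]; exact hyx.neg

theorem exists_MU [CharZero F] {x : F} (hx : IsAlgebraic ℚ x) (h0 : x ≠ 0) :
    ∃ m : ℕ, m ≠ 0 ∧ MU m x := by
  obtain ⟨m, hm, h1⟩ := exists_MI hx
  obtain ⟨m', hm', h2⟩ := exists_MI hx.inv
  exact ⟨m * m', mul_ne_zero hm hm', h0, h1.mono (dvd_mul_right _ _), h2.mono (dvd_mul_left _ _)⟩

/-- finitely many algebraic numbers -/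
theorem exists_MI_all [CharZero F] (A B : Finset F) (hA : ∀ x ∈ A, IsAlgebraic ℚ x)
    (hB : ∀ x ∈ B, IsAlgebraic ℚ x ∧ x ≠ 0) :
    ∃ m : ℕ, m ≠ 0 ∧ (∀ x ∈ A, MI m x) ∧ ∀ x ∈ B, MU m x := by
  classical
  have h1 : ∃ m : ℕ, m ≠ 0 ∧ ∀ x ∈ A, MI m x := by
    induction A using Finset.induction_on with
    | empty => exact ⟨1, one_ne_zero, fun x hx => absurd hx (Finset.notMem_empty x)⟩
    | insert a A ha ih =>
      obtain ⟨m, hm, h⟩ := ih (fun x hx => hA x (Finset.mem_insert_of_mem hx))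
      obtain ⟨m', hm', h'⟩ := exists_MI (hA a (Finset.mem_insert_self a A))
      refine ⟨m * m', mul_ne_zero hm hm', fun x hx => ?_⟩
      rcases Finset.mem_insert.mp hx with h2 | h2
      · rw [h2]; exact h'.mono (dvd_mul_left _ _)
      · exact (h x h2).mono (dvd_mul_right _ _)
  have h2 : ∃ m : ℕ, m ≠ 0 ∧ ∀ x ∈ B, MU m x := by
    induction B using Finset.induction_on with
    | empty => exact ⟨1, one_ne_zero, fun x hx => absurd hx (Finset.notMem_empty x)⟩
    | insert a A ha ih =>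
      obtain ⟨m, hm, h⟩ := ih (fun x hx => hB x (Finset.mem_insert_of_mem hx))
      obtain ⟨m', hm', h'⟩ := exists_MU (hB a (Finset.mem_insert_self a A)).1
        (hB a (Finset.mem_insert_self a A)).2
      refine ⟨m * m', mul_ne_zero hm hm', fun x hx => ?_⟩
      rcases Finset.mem_insert.mp hx with h2 | h2
      · rw [h2]; exact h'.mono (dvd_mul_left _ _)
      · exact (h x h2).mono (dvd_mul_right _ _)
  obtain ⟨m, hm, h⟩ := h1
  obtain ⟨m', hm', h'⟩ := h2
  exact ⟨m * m', mul_ne_zero hm hm', fun x hx => (h x hx).mono (dvd_mul_right _ _),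
    fun x hx => (h' x hx).mono (dvd_mul_left _ _)⟩

end basic

section places

variable {K : Type} [Field K] [NumberField K]

theorem fv_le_iff (v : HeightOneSpectrum (𝓞 K)) (x : K) :
    fv v x ≤ 1 ↔ v.valuation K x ≤ 1 := by
  have h1 : fv v x =
      WithZeroMulInt.toNNReal (HeightOneSpectrum.absNorm_ne_zero v) (v.valuation K x) := by
    rw [fv_apply, FinitePlace.mk_apply, FinitePlace.norm_embedding']
  rw [h1, ← WithZeroMulInt.toNNReal_le_one_iff (HeightOneSpectrum.one_lt_absNorm_nnreal v)]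
  exact_mod_cast Iff.rfl

theorem fv_integral (v : HeightOneSpectrum (𝓞 K)) {x : K} (hx : IsIntegral ℤ x) : fv v x ≤ 1 :=
  (fv_le_iff v _).2 (v.valuation_le_one (⟨x, hx⟩ : 𝓞 K))

theorem integral_of_fv {x : K} (h : ∀ v : HeightOneSpectrum (𝓞 K), fv v x ≤ 1) :
    IsIntegral ℤ x := by
  obtain ⟨y, hy⟩ := HeightOneSpectrum.mem_integers_of_valuation_le_one K x
    (fun v => (fv_le_iff v x).1 (h v))
  rw [← hy]
  exact y.2

theorem MI.fv_le {m : ℕ} {v : HeightOneSpectrum (𝓞 K)} (hv : fv v (m : K) = 1) {x : K}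
    (hx : MI m x) : fv v x ≤ 1 := by
  obtain ⟨k, hk⟩ := hx
  have h1 := fv_integral v hk
  rwa [map_mul, map_pow, hv, one_pow, one_mul] at h1

theorem MU.fv_eq {m : ℕ} {v : HeightOneSpectrum (𝓞 K)} (hv : fv v (m : K) = 1) {x : K}
    (hx : MU m x) : fv v x = 1 := by
  have h1 := hx.2.1.fv_le hv
  have h2 := hx.2.2.fv_le hv
  rw [map_inv₀] at h2
  have h3 : 0 < fv v x := (fv v).pos hx.1
  have h4 : 1 ≤ fv v x := by
    rwa [inv_le_one₀ h3] at h2
  exact le_antisymm h1 h4

theorem MI_of_fv {m : ℕ} (hm : m ≠ 0) {x : K}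
    (h : ∀ v : HeightOneSpectrum (𝓞 K), fv v (m : K) = 1 → fv v x ≤ 1) : MI m x := by
  classical
  by_cases hx : x = 0
  · refine ⟨0, ?_⟩
    rw [hx, mul_zero]
    exact isIntegral_zero
  have hm0 : (m : K) ≠ 0 := Nat.cast_ne_zero.mpr hm
  have hfin := fv_support_finite (K := K) hx
  have hle : ∀ v : HeightOneSpectrum (𝓞 K), fv v (m : K) ≤ 1 := fun v =>
    fv_integral v (natCast_int m)
  have h1 : ∀ v : HeightOneSpectrum (𝓞 K), ∃ k : ℕ, ∀ l, k ≤ l → fv v ((m : K) ^ l * x) ≤ 1 := by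
    intro v
    rcases eq_or_lt_of_le (hle v) with h2 | h2
    · refine ⟨0, fun l _ => ?_⟩
      rw [map_mul, map_pow, h2, one_pow, one_mul]
      exact h v h2
    · have h3 : 0 < fv v x := (fv v).pos hx
      obtain ⟨k, hk⟩ := exists_pow_lt_of_lt_one (inv_pos.mpr h3) h2
      refine ⟨k, fun l hl => ?_⟩
      rw [map_mul, map_pow]
      have h4 : fv v (m : K) ^ l ≤ fv v (m : K) ^ k :=
        pow_le_pow_of_le_one ((fv v).nonneg _) (hle v) hl
      have h5 : fv v (m : K) ^ l * fv v x ≤ (fv v x)⁻¹ * fv v x :=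
        mul_le_mul_of_nonneg_right (h4.trans hk.le) h3.le
      rwa [inv_mul_cancel₀ h3.ne'] at h5
  choose k hk using h1
  refine ⟨hfin.toFinset.sup k, integral_of_fv fun v => ?_⟩
  by_cases hv : fv v x = 1
  · rw [map_mul, map_pow, hv, mul_one]
    exact pow_le_one₀ ((fv v).nonneg _) (hle v)
  · exact hk v _ (Finset.le_sup (f := k) (by rw [Set.Finite.mem_toFinset]; exact hv))

theorem MU_of_fv {m : ℕ} (hm : m ≠ 0) {x : K} (hx : x ≠ 0)
    (h : ∀ v : HeightOneSpectrum (𝓞 K), fv v (m : K) = 1 → fv v x = 1) : MU m x :=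
  ⟨hx, MI_of_fv hm (fun v hv => (h v hv).le), MI_of_fv hm (fun v hv => by
    rw [map_inv₀, h v hv, inv_one])⟩

/-- the places which divide `m` -/
theorem exists_S (m : ℕ) (hm : m ≠ 0) : ∃ S : Finset (Pl K), infS K ⊆ S ∧
    ∀ x : K, MU m x → IsSU S x := by
  obtain ⟨S, hS, h⟩ := exists_su_all ({(m : K)} : Finset K) (by
    intro x hx
    rw [Finset.mem_singleton] at hx
    rw [hx]
    exact Nat.cast_ne_zero.mpr hm)
  refine ⟨S, hS, fun x hx => ⟨hx.1, fun v hv => ?_⟩⟩
  exact hx.fv_eq ((h _ (Finset.mem_singleton_self _)).2 v hv)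

end places

/-- **The local argument.** -/
theorem ratio_units {K : Type} [Field K] [NumberField K] {m : ℕ} (hm : m ≠ 0) {P Q g : K[X]}
    (hP : P.Splits) (hQ : Q.Splits) (hP1 : P.Monic) (hQ1 : Q.Monic) (hco : IsCoprime P Q)
    (hroots : ∀ a ∈ (P * Q).roots, MI m a)
    (hdiff : ∀ a ∈ (P * Q).roots, ∀ b ∈ (P * Q).roots, a ≠ b → MU m (a - b))
    {β : K} (hβ : MU m β) (hg : g.Monic) (hdvd : g ∣ P - C β * Q) :
    (∀ a ∈ (P * Q).roots, g.eval a ≠ 0) ∧
    (∀ a ∈ (P * Q).roots, ∀ b ∈ (P * Q).roots, MU m (g.eval a / g.eval b)) ∧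
      (P.natDegree ≠ Q.natDegree → ∀ a ∈ (P * Q).roots, MU m (g.eval a)) := by
  classical
  have hPQ0 : P * Q ≠ 0 := mul_ne_zero hP1.ne_zero hQ1.ne_zero
  let L := g.SplittingField
  have : CharZero L := charZero_of_injective_algebraMap (algebraMap K L).injective
  have : FiniteDimensional ℚ L := FiniteDimensional.trans ℚ K L
  have : NumberField L := { to_charZero := inferInstance, to_finiteDimensional := inferInstance }
  let φ : K →+* L := algebraMap K L
  have hgL : (g.map φ).Splits := SplittingField.splits g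
  have hg1 : (g.map φ).Monic := hg.map φ
  have hrootsL : (P.map φ * Q.map φ).roots = (P * Q).roots.map φ := by
    rw [← Polynomial.map_mul]
    exact Splits.roots_map (hP.mul hQ) φ
  have hP1L : (P.map φ).Monic := hP1.map φ
  have hQ1L : (Q.map φ).Monic := hQ1.map φ
  have hcoL : IsCoprime (P.map φ) (Q.map φ) := hco.map (mapRingHom φ)
  -- the values at the roots of `g`
  have hval : ∀ r ∈ (g.map φ).roots, (P.map φ).eval r ≠ 0 ∧ (Q.map φ).eval r ≠ 0 ∧
      (P.map φ).eval r / (Q.map φ).eval r = φ β := by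
    intro r hr
    have h1 : (g.map φ).eval r = 0 := (mem_roots hg1.ne_zero).mp hr
    have h2 : (P.map φ).eval r = φ β * (Q.map φ).eval r := by
      obtain ⟨h, hh⟩ := hdvd
      have h3 := congrArg (fun p : K[X] => (p.map φ).eval r) hh
      simp only [Polynomial.map_sub, Polynomial.map_mul, map_C, eval_sub, eval_mul, eval_C, h1,
        zero_mul] at h3
      exact sub_eq_zero.mp h3
    have hβ0 : φ β ≠ 0 := by
      rw [_root_.map_ne_zero]
      exact hβ.1
    have h4 : (Q.map φ).eval r ≠ 0 := by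
      intro h5
      rw [h5, mul_zero] at h2
      obtain ⟨u, v, huv⟩ := hcoL
      have h6 := congrArg (fun p => eval r p) huv
      simp only [eval_add, eval_mul, h2, h5, mul_zero, add_zero, eval_one] at h6
      exact zero_ne_one h6
    refine ⟨?_, h4, ?_⟩
    · rw [h2]
      exact mul_ne_zero hβ0 h4
    · rw [h2, mul_div_assoc, div_self h4, mul_one]
  have hne : ∀ a ∈ (P * Q).roots, g.eval a ≠ 0 := by
    intro a ha h0
    have h1 : φ a ∈ (g.map φ).roots := by
      rw [mem_roots hg1.ne_zero, IsRoot.def, eval_map_apply, h0, map_zero]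
    obtain ⟨h2, h3, -⟩ := hval _ h1
    rw [mem_roots hPQ0, IsRoot.def, eval_mul, mul_eq_zero] at ha
    rcases ha with h4 | h4
    · apply h2
      rw [eval_map_apply, h4, map_zero]
    · apply h3
      rw [eval_map_apply, h4, map_zero]
  -- the places of `L`
  have hpl : ∀ v : HeightOneSpectrum (𝓞 L), fv v (m : L) = 1 → ∀ r ∈ (g.map φ).roots,
      (∀ a ∈ (P * Q).roots, fv v (r - φ a) = 1) ∨
        (P.natDegree = Q.natDegree ∧ ∀ a ∈ (P * Q).roots, fv v (r - φ a) = fv v r) := by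
    intro v hv r hr
    obtain ⟨h1, h2, h3⟩ := hval r hr
    have hβ1 : fv v (φ β) = 1 := ((MU.map_iff φ m β).2 hβ).fv_eq hv
    have hna : IsNonarchimedean (fv v) := fun x y => FinitePlace.add_le (FinitePlace.mk v) x y
    have hmem : ∀ a, a ∈ (P.map φ * Q.map φ).roots → ∃ a' ∈ (P * Q).roots, φ a' = a := by
      intro a ha
      rw [hrootsL, Multiset.mem_map] at ha
      exact ha
    have h4 := places (v := fv v) hna (P := P.map φ) (Q := Q.map φ) (hP.map φ) (hQ.map φ)
      (by rw [hP1L.leadingCoeff, map_one]) (by rw [hQ1L.leadingCoeff, map_one]) hP1L.ne_zero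
      hQ1L.ne_zero (by
        intro a ha
        obtain ⟨a', ha', rfl⟩ := hmem a ha
        exact ((MI.map_iff φ m a').2 (hroots a' ha')).fv_le hv) (by
        intro a ha b hb hab
        obtain ⟨a', ha', rfl⟩ := hmem a ha
        obtain ⟨b', hb', rfl⟩ := hmem b hb
        rw [← map_sub]
        exact ((MU.map_iff φ m _).2 (hdiff a' ha' b' hb' (fun h => hab (by rw [h])))).fv_eq hv) (by
        intro a ha hb
        obtain ⟨u, w, huw⟩ := hcoL
        have h6 := congrArg (fun p => eval a p) huw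
        rw [mem_roots hP1L.ne_zero, IsRoot.def] at ha
        rw [mem_roots hQ1L.ne_zero, IsRoot.def] at hb
        simp only [eval_add, eval_mul, ha, hb, mul_zero, add_zero, eval_one] at h6
        exact zero_ne_one h6) (q := r) h1 h2 (by rw [h3]; exact hβ1)
    rcases h4 with h4 | ⟨h4, h5⟩
    · left
      intro a ha
      exact h4 _ (by rw [hrootsL]; exact Multiset.mem_map_of_mem _ ha)
    · right
      refine ⟨by rwa [natDegree_map, natDegree_map] at h4, fun a ha => ?_⟩
      exact (h5 _ (by rw [hrootsL]; exact Multiset.mem_map_of_mem _ ha)).1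
  have hgval : ∀ (v : HeightOneSpectrum (𝓞 L)) (a : K), fv v (φ (g.eval a)) =
      ((g.map φ).roots.map (fun r => fv v (r - φ a))).prod := by
    intro v a
    rw [← eval_map_apply, hgL.eval_eq_prod_roots, hg1.leadingCoeff, one_mul, map_multiset_prod,
      Multiset.map_map]
    congr 1
    refine Multiset.map_congr rfl fun r _ => ?_
    show fv v (φ a - r) = fv v (r - φ a)
    rw [← (fv v).map_neg, neg_sub]
  refine ⟨hne, fun a ha b hb => ?_, fun hdeg a ha => ?_⟩
  · rw [← MU.map_iff φ]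
    refine MU_of_fv hm ?_ fun v hv => ?_
    · rw [_root_.map_ne_zero]
      exact div_ne_zero (hne a ha) (hne b hb)
    · rw [map_div₀, map_div₀, hgval, hgval]
      have h1 : (g.map φ).roots.map (fun r => fv v (r - φ a)) =
          (g.map φ).roots.map (fun r => fv v (r - φ b)) := by
        refine Multiset.map_congr rfl fun r hr => ?_
        rcases hpl v hv r hr with h2 | ⟨-, h2⟩
        · rw [h2 a ha, h2 b hb]
        · rw [h2 a ha, h2 b hb]
      rw [h1]
      refine div_self ?_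
      rw [← hgval, Ne, map_eq_zero, map_eq_zero]
      exact hne b hb
  · rw [← MU.map_iff φ]
    refine MU_of_fv hm ?_ fun v hv => ?_
    · rw [_root_.map_ne_zero]
      exact hne a ha
    · rw [hgval]
      have h1 : (g.map φ).roots.map (fun r => fv v (r - φ a)) =
          (g.map φ).roots.map (fun _ => (1 : ℝ)) := by
        refine Multiset.map_congr rfl fun r hr => ?_
        rcases hpl v hv r hr with h2 | ⟨h2, -⟩
        · exact h2 a ha
        · exact absurd h2 hdeg
      rw [h1, Multiset.map_const', Multiset.prod_replicate, one_pow]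

end Pool.Agent.Zk26
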