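import Pool.Agent.Zk26.BDFin
import Pool.Agent.H301R2.SSE.Forms

set_option autoImplicit false

/-!
Logarithms of the values of rational functions at algebraic numbers of bounded degree and finite
dimensional spaces of linear forms in logarithms.
-/

namespace Pool.Agent.Zk26

open Polynomial
open Pool.Agent.H301R2.SSE (QB mem_QB Lt Lt_mul Lt_one Lt_log Lt_alg)

/-- finite dimensional spaces of linear forms in logarithms -/
theorem fg_le {E : Submodule QB ℂ} (hE : E ≤ Lt) (hf : Module.Finite QB E) :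
    ∃ X : Finset ℂ, (∀ x ∈ X, IsAlgebraic ℚ (Complex.exp x)) ∧
      LinearIndependent ℚ ((↑) : X → ℂ) ∧ E ≤ Submodule.span QB ({1} ∪ (X : Set ℂ)) := by
  classical
  obtain ⟨s, hs⟩ := Module.Finite.iff_fg.mp hf
  have h1 : ∀ x ∈ s, ∃ T : Finset ℂ, (T : Set ℂ) ⊆ {1} ∪ {z : ℂ | IsAlgebraic ℚ (Complex.exp z)} ∧
      x ∈ Submodule.span QB (T : Set ℂ) := by
    intro x hx
    refine Submodule.mem_span_finite_of_mem_span (hE ?_)
    rw [← hs]
    exact Submodule.subset_span hx
  choose T hT1 hT2 using h1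
  let Y : Finset ℂ := (s.attach.biUnion fun x => T x.1 x.2).filter
    fun z => IsAlgebraic ℚ (Complex.exp z)
  obtain ⟨b, hbY, hbs, hbi⟩ := exists_linearIndependent ℚ (Y : Set ℂ)
  have hbf : b.Finite := (Finset.finite_toSet Y).subset hbY
  have hbX : (hbf.toFinset : Set ℂ) = b := hbf.coe_toFinset
  refine ⟨hbf.toFinset, ?_, ?_, ?_⟩
  · intro x hx
    have h2 : x ∈ b := (Set.Finite.mem_toFinset hbf).mp hx
    exact (Finset.mem_filter.mp (Finset.mem_coe.mp (hbY h2))).2
  · have h3 : LinearIndepOn ℚ id (hbf.toFinset : Set ℂ) := by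
      rw [hbX]
      exact hbi
    exact h3
  · rw [hbX, ← hs, Submodule.span_le]
    intro x hx
    have h2 := hT2 x hx
    refine Submodule.span_le.mpr ?_ h2
    intro z hz
    rcases hT1 x hx hz with h3 | h3
    · exact Submodule.subset_span (Or.inl h3)
    · have h4 : z ∈ (Y : Set ℂ) := by
        rw [Finset.mem_coe, Finset.mem_filter, Finset.mem_biUnion]
        exact ⟨⟨⟨x, hx⟩, Finset.mem_attach _ _, hz⟩, h3⟩
      have h5 : z ∈ Submodule.span ℚ b := by
        rw [hbs]
        exact Submodule.subset_span h4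
      have h6 : z ∈ Submodule.span QB b := Submodule.span_subset_span ℚ QB b h5
      exact Submodule.span_mono Set.subset_union_right h6

/-- dependence modulo a finite dimensional space of linear forms in logarithms -/
theorem log_dep {n : ℕ} (X : Finset ℂ) (hX : ∀ x ∈ X, IsAlgebraic ℚ (Complex.exp x))
    (hXi : LinearIndependent ℚ ((↑) : X → ℂ)) (y : Fin n → ℂ)
    (hy : ∀ j, IsAlgebraic ℚ (Complex.exp (y j))) (c : Fin n → QB) (hc : c ≠ 0)
    (h : ∑ j, c j • y j ∈ Submodule.span QB ({1} ∪ (X : Set ℂ))) :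
    ∃ a : Fin n → ℤ, a ≠ 0 ∧ ∃ t : X → ℤ, ∑ j, (a j : ℂ) * y j = ∑ x, (t x : ℂ) * (x : ℂ) := by
  classical
  have hnot : ¬ LinearIndependent ℚ (Sum.elim y ((↑) : X → ℂ)) := by
    intro hli
    rw [Submodule.span_union, Submodule.mem_sup] at h
    obtain ⟨u, hu, v, hv, huv⟩ := h
    obtain ⟨c₀, rfl⟩ := Submodule.mem_span_singleton.mp hu
    have hv' : v ∈ Submodule.span QB (Set.range ((↑) : X → ℂ)) := by
      have h1 : Set.range ((↑) : X → ℂ) = (X : Set ℂ) := Subtype.range_coe
      rw [h1]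
      exact hv
    obtain ⟨b, rfl⟩ := (Submodule.mem_span_range_iff_exists_fun QB).mp hv'
    have hB := Pool.Agent.H297R2.baker_inhom (Sum.elim y ((↑) : X → ℂ)) (by
      rintro (j | x)
      · exact hy j
      · exact hX x x.2) hli (-(c₀ : ℂ)) (mem_QB.mp (QB.neg_mem c₀.2))
      (Sum.elim (fun j => ((c j : QB) : ℂ)) (fun x => -((b x : QB) : ℂ))) (by
      rintro (j | x)
      · exact mem_QB.mp (c j).2
      · exact mem_QB.mp (QB.neg_mem (b x).2)) (by
      rw [Fintype.sum_sum_type]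
      simp only [Sum.elim_inl, Sum.elim_inr]
      have h2 : ∑ j, ((c j : QB) : ℂ) * y j = (c₀ : ℂ) * 1 + ∑ x, ((b x : QB) : ℂ) * (x : ℂ) := by
        have h3 := huv.symm
        simp only [Algebra.smul_def] at h3
        exact h3
      rw [h2]
      simp only [neg_mul, Finset.sum_neg_distrib]
      ring)
    apply hc
    funext j
    exact Subtype.ext (hB.2 (Sum.inl j))
  rw [← LinearIndependent.iff_fractionRing ℤ ℚ, Fintype.not_linearIndependent_iff] at hnot
  obtain ⟨g, hg, i, hi⟩ := hnot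
  rw [Fintype.sum_sum_type] at hg
  simp only [Sum.elim_inl, Sum.elim_inr, zsmul_eq_mul] at hg
  refine ⟨fun j => g (Sum.inl j), ?_, fun x => - g (Sum.inr x), ?_⟩
  · intro h0
    have h1 : ∀ j, g (Sum.inl j) = 0 := fun j => congrFun h0 j
    rw [← LinearIndependent.iff_fractionRing ℤ ℚ, Fintype.linearIndependent_iff] at hXi
    have h2 := hXi (fun x => g (Sum.inr x)) (by
      simp only [zsmul_eq_mul]
      have h3 : ∑ j, ((g (Sum.inl j) : ℤ) : ℂ) * y j = 0 := by
        refine Finset.sum_eq_zero fun j _ => ?_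
        rw [h1 j]
        simp
      rw [h3, zero_add] at hg
      exact hg)
    rcases i with j | x
    · exact hi (h1 j)
    · exact hi (h2 x)
  · push_cast
    simp only [neg_mul, Finset.sum_neg_distrib]
    linear_combination hg

/-- a common number field -/
theorem exists_field (K₀ : IntermediateField ℚ ℂ) [FiniteDimensional ℚ K₀] (A : Finset ℂ)
    (hA : ∀ a ∈ A, IsAlgebraic ℚ a) :
    ∃ K : IntermediateField ℚ ℂ, FiniteDimensional ℚ K ∧ K₀ ≤ K ∧ ∀ a ∈ A, a ∈ K := by
  have h1 : FiniteDimensional ℚ (IntermediateField.adjoin ℚ (A : Set ℂ)) :=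
    IntermediateField.finiteDimensional_adjoin fun x hx => (hA x hx).isIntegral
  refine ⟨K₀ ⊔ IntermediateField.adjoin ℚ (A : Set ℂ), ?_, le_sup_left, fun a ha => ?_⟩
  · exact IntermediateField.finiteDimensional_sup _ _
  · exact (le_sup_right : IntermediateField.adjoin ℚ (A : Set ℂ) ≤ _)
      (IntermediateField.subset_adjoin ℚ _ ha)

theorem minpoly_le {K₀ K : IntermediateField ℚ ℂ} (h : K₀ ≤ K) {q : ℂ} (hq : IsIntegral K₀ q) :
    IsIntegral K q ∧ (minpoly K q).natDegree ≤ (minpoly K₀ q).natDegree := by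
  let φ : K₀ →+* K := (IntermediateField.inclusion h : K₀ →+* K)
  have hφ : (algebraMap K ℂ).comp φ = algebraMap K₀ ℂ := by
    ext x
    rfl
  have h1 : aeval q ((minpoly K₀ q).map φ) = 0 := by
    rw [aeval_def, eval₂_map, hφ, ← aeval_def]
    exact minpoly.aeval K₀ q
  have h2 : ((minpoly K₀ q).map φ).Monic := (minpoly.monic hq).map φ
  refine ⟨⟨_, h2, by rw [← aeval_def]; exact h1⟩, ?_⟩
  have h3 := natDegree_le_of_dvd (minpoly.dvd K q h1) h2.ne_zero
  rwa [natDegree_map] at h3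

/-- the order of `P / Q` at a point of the projective line -/
noncomputable def ordQ (P Q : QB[X]) (o : Option QB) : ℤ :=
  o.elim ((Q.natDegree : ℤ) - P.natDegree)
    (fun z => (P.rootMultiplicity z : ℤ) - Q.rootMultiplicity z)

theorem QB_splits (P : QB[X]) : P.Splits := by
  have : IsAlgClosed (algebraicClosure ℚ ℂ) := (algebraicClosure.isAlgClosure ℚ ℂ).isAlgClosed
  exact IsAlgClosed.splits P

theorem sum_mult (P : QB[X]) (Z : Finset QB) (hZ : ∀ z ∈ P.roots, z ∈ Z) :
    ∑ z ∈ Z, (P.rootMultiplicity z : ℤ) = P.natDegree := by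
  classical
  have h1 : P.roots.toFinset ⊆ Z := fun z hz => hZ z (Multiset.mem_toFinset.mp hz)
  rw [← Finset.sum_subset h1]
  · have h2 := Multiset.toFinset_sum_count_eq P.roots
    rw [← (QB_splits P).natDegree_eq_card_roots] at h2
    rw [← h2]
    push_cast
    refine Finset.sum_congr rfl fun z _ => ?_
    rw [count_roots]
  · intro z _ hz
    rw [Multiset.mem_toFinset] at hz
    have h3 := Multiset.count_eq_zero_of_notMem hz
    rw [count_roots] at h3
    rw [h3]
    rfl

theorem aeval_prod (P : QB[X]) (Z : Finset QB) (hZ : ∀ z ∈ P.roots, z ∈ Z) (q : ℂ) :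
    aeval q P = (P.leadingCoeff : ℂ) * ∏ z ∈ Z, (q - (z : ℂ)) ^ (P.rootMultiplicity z : ℤ) := by
  classical
  have h1 : P.roots.toFinset ⊆ Z := fun z hz => hZ z (Multiset.mem_toFinset.mp hz)
  rw [← Finset.prod_subset h1]
  · conv_lhs => rw [(QB_splits P).eq_prod_roots]
    rw [map_mul, aeval_C, map_multiset_prod, Multiset.map_map, Finset.prod_multiset_map_count]
    congr 1
    refine Finset.prod_congr rfl fun z _ => ?_
    rw [count_roots, zpow_natCast]
    congr 1
    show aeval q (X - C z) = q - (z : ℂ)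
    rw [map_sub, aeval_X, aeval_C]
    rfl
  · intro z _ hz
    rw [Multiset.mem_toFinset] at hz
    have h3 := Multiset.count_eq_zero_of_notMem hz
    rw [count_roots] at h3
    rw [h3]
    simp

/-- **Logarithms of the values at algebraic numbers of bounded degree are independent modulo finite
dimensional spaces, with finitely many exceptions.** -/
theorem log_bd {E : Submodule QB ℂ} (hE : E ≤ Lt) (hf : Module.Finite QB E)
    (K₀ : IntermediateField ℚ ℂ) [FiniteDimensional ℚ K₀] (d n : ℕ) (P Q : Fin n → QB[X])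
    (hP : ∀ j, P j ≠ 0) (hQ : ∀ j, Q j ≠ 0)
    (h : ∀ a : Fin n → ℤ, a ≠ 0 → 2 * d + 1 ≤ {o | ∑ j, a j * ordQ (P j) (Q j) o ≠ 0}.ncard) :
    {q : ℂ | IsIntegral K₀ q ∧ (minpoly K₀ q).natDegree ≤ d ∧
      (∀ j, aeval q (P j) ≠ 0 ∧ aeval q (Q j) ≠ 0) ∧
      ∃ y : Fin n → ℂ, (∀ j, Complex.exp (y j) = aeval q (P j) / aeval q (Q j)) ∧
        ∃ c : Fin n → QB, c ≠ 0 ∧ ∑ j, c j • y j ∈ E}.Finite := by
  classical
  obtain ⟨X, hX, hXi, hEX⟩ := fg_le hE hf
  set ZQ : Finset QB := Finset.univ.biUnion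
    (fun j => (P j).roots.toFinset ∪ (Q j).roots.toFinset) with hZQ
  have hZP : ∀ j, ∀ z ∈ (P j).roots, z ∈ ZQ := fun j z hz => by
    rw [hZQ, Finset.mem_biUnion]
    exact ⟨j, Finset.mem_univ j, Finset.mem_union_left _ (Multiset.mem_toFinset.mpr hz)⟩
  have hZQ' : ∀ j, ∀ z ∈ (Q j).roots, z ∈ ZQ := fun j z hz => by
    rw [hZQ, Finset.mem_biUnion]
    exact ⟨j, Finset.mem_univ j, Finset.mem_union_right _ (Multiset.mem_toFinset.mpr hz)⟩
  -- the numbers which should be units
  set A : Finset ℂ := ZQ.image (fun z : QB => (z : ℂ)) with hA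
  set B₁ : Finset ℂ := (Finset.univ : Finset (Fin n)).image (fun j => ((P j).leadingCoeff : ℂ)) ∪
    (Finset.univ : Finset (Fin n)).image (fun j => ((Q j).leadingCoeff : ℂ)) ∪
      X.image Complex.exp with hB₁
  set B₂ : Finset ℂ := ((ZQ ×ˢ ZQ).filter (fun p => p.1 ≠ p.2)).image
    (fun p => ((p.1 : QB) : ℂ) - (p.2 : ℂ)) with hB₂
  have hAa : ∀ x ∈ A, IsAlgebraic ℚ x := by
    intro x hx
    obtain ⟨z, -, rfl⟩ := Finset.mem_image.mp hx
    exact mem_QB.mp z.2
  have hB₁a : ∀ x ∈ B₁, IsAlgebraic ℚ x ∧ x ≠ 0 := by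
    intro x hx
    rw [hB₁, Finset.mem_union, Finset.mem_union] at hx
    rcases hx with (hx | hx) | hx
    · obtain ⟨j, -, rfl⟩ := Finset.mem_image.mp hx
      refine ⟨mem_QB.mp ((P j).leadingCoeff).2, fun h0 => hP j ?_⟩
      exact leadingCoeff_eq_zero.mp (Subtype.ext h0)
    · obtain ⟨j, -, rfl⟩ := Finset.mem_image.mp hx
      refine ⟨mem_QB.mp ((Q j).leadingCoeff).2, fun h0 => hQ j ?_⟩
      exact leadingCoeff_eq_zero.mp (Subtype.ext h0)
    · obtain ⟨w, hw, rfl⟩ := Finset.mem_image.mp hx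
      exact ⟨hX w hw, Complex.exp_ne_zero w⟩
  have hB₂a : ∀ x ∈ B₂, IsAlgebraic ℚ x ∧ x ≠ 0 := by
    intro x hx
    obtain ⟨p, hp, rfl⟩ := Finset.mem_image.mp hx
    refine ⟨mem_QB.mp (QB.sub_mem p.1.2 p.2.2), fun h0 => ?_⟩
    exact (Finset.mem_filter.mp hp).2 (Subtype.ext (sub_eq_zero.mp h0))
  obtain ⟨m, hm, hmA, hmB⟩ := exists_MI_all A (B₁ ∪ B₂) hAa (by
    intro x hx
    rcases Finset.mem_union.mp hx with h1 | h1
    · exact hB₁a x h1
    · exact hB₂a x h1)
  obtain ⟨K, hKf, hK₀, hK⟩ := exists_field K₀ (A ∪ B₁) (by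
    intro x hx
    rcases Finset.mem_union.mp hx with h1 | h1
    · exact hAa x h1
    · exact (hB₁a x h1).1)
  have : NumberField K := { to_charZero := inferInstance, to_finiteDimensional := hKf }
  have hKQ : K ≤ QB := by
    intro x hx
    have h1 : IsAlgebraic ℚ (⟨x, hx⟩ : K) := Algebra.IsAlgebraic.isAlgebraic _
    have h2 := h1.algebraMap (A := ℂ)
    exact mem_QB.mpr h2
  let ψ : K →+* QB := (IntermediateField.inclusion hKQ : K →+* QB)
  have hψ : ∀ z : K, ((ψ z : QB) : ℂ) = (z : ℂ) := fun z => rfl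
  let ι : K →+* ℂ := algebraMap K ℂ
  set Z : Finset K := ZQ.preimage ψ ψ.injective.injOn with hZ
  have hZmem : ∀ z, z ∈ Z ↔ ψ z ∈ ZQ := fun z => Finset.mem_preimage
  have hrange : ∀ w ∈ ZQ, ∃ z : K, ψ z = w := by
    intro w hw
    refine ⟨⟨(w : ℂ), hK _ (Finset.mem_union_left _ (Finset.mem_image_of_mem _ hw))⟩, ?_⟩
    exact Subtype.ext rfl
  have hZ1 : ∀ z ∈ Z, MI m z := by
    intro z hz
    rw [← MI.map_iff ι]
    exact hmA _ (Finset.mem_image_of_mem _ ((hZmem z).1 hz))
  have hZ2 : ∀ z ∈ Z, ∀ w ∈ Z, z ≠ w → MU m (z - w) := by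
    intro z hz w hw hzw
    rw [← MU.map_iff ι, map_sub]
    refine hmB _ (Finset.mem_union_right _ ?_)
    rw [hB₂, Finset.mem_image]
    refine ⟨(ψ z, ψ w), ?_, rfl⟩
    rw [Finset.mem_filter, Finset.mem_product]
    exact ⟨⟨(hZmem z).1 hz, (hZmem w).1 hw⟩, fun h0 => hzw (ψ.injective h0)⟩
  refine (bd_finite (Ω := ℂ) hm Z hZ1 hZ2 d).subset ?_
  rintro q ⟨hq, hqd, hq0, y, hy, c, hc, hcE⟩
  obtain ⟨hqK, hqKd⟩ := minpoly_le hK₀ hq
  refine ⟨hqK, hqKd.trans hqd, ?_⟩
  have hqalg : IsAlgebraic ℚ q := by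
    have h1 : IsAlgebraic K₀ q := hq.isAlgebraic
    exact h1.restrictScalars ℚ
  have hyalg : ∀ j, IsAlgebraic ℚ (Complex.exp (y j)) := by
    intro j
    rw [hy j]
    have h2 : ∀ R : QB[X], IsAlgebraic ℚ (aeval q R) := by
      intro R
      rw [← mem_QB]
      have h3 : aeval q R = ((R.eval (⟨q, mem_QB.mpr hqalg⟩ : QB) : QB) : ℂ) := by
        have h4 := aeval_algebraMap_apply ℂ (⟨q, mem_QB.mpr hqalg⟩ : QB) R
        rw [← coe_aeval_eq_eval]
        exact h4
      rw [h3]
      exact (R.eval (⟨q, mem_QB.mpr hqalg⟩ : QB)).2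
    rw [div_eq_mul_inv]
    exact (h2 _).mul (h2 _).inv
  obtain ⟨a, ha, t, hat⟩ := log_dep X hX hXi y hyalg c hc (hEX hcE)
  set Ew : QB → ℤ := fun w => ∑ j, a j * ((P j).rootMultiplicity w - (Q j).rootMultiplicity w)
    with hEw
  refine ⟨fun z => Ew (ψ z), ?_, ?_⟩
  · refine (h a ha).trans ?_
    have hsum : ∑ z ∈ Z, Ew (ψ z) = ∑ w ∈ ZQ, Ew w := by
      rw [hZ]
      refine Finset.sum_preimage ψ ZQ ψ.injective.injOn Ew fun w hw hw' => ?_
      exact absurd (hrange w hw) (fun h0 => hw' h0)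
    have hsum2 : ∑ w ∈ ZQ, Ew w = ∑ j, a j * (((P j).natDegree : ℤ) - (Q j).natDegree) := by
      rw [hEw]
      rw [Finset.sum_comm]
      refine Finset.sum_congr rfl fun j _ => ?_
      rw [← Finset.mul_sum, Finset.sum_sub_distrib, sum_mult (P j) ZQ (hZP j),
        sum_mult (Q j) ZQ (hZQ' j)]
    have hsub : {o | ∑ j, a j * ordQ (P j) (Q j) o ≠ 0} ⊆
        ((fun z => some (ψ z)) '' {z ∈ (Z : Set K) | Ew (ψ z) ≠ 0}) ∪
          (if ∑ z ∈ Z, Ew (ψ z) = 0 then ∅ else {none}) := by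
      intro o ho
      cases o with
      | none =>
        right
        have h1 : ∑ z ∈ Z, Ew (ψ z) ≠ 0 := by
          rw [hsum, hsum2]
          intro h0
          apply ho
          have h2 : ∑ j, a j * ordQ (P j) (Q j) none =
              -∑ j, a j * (((P j).natDegree : ℤ) - (Q j).natDegree) := by
            rw [← Finset.sum_neg_distrib]
            refine Finset.sum_congr rfl fun j _ => ?_
            show a j * (((Q j).natDegree : ℤ) - (P j).natDegree) = _
            ring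
          rw [h2, h0, neg_zero]
        rw [if_neg h1]
        exact rfl
      | some w =>
        left
        have h1 : Ew w ≠ 0 := ho
        have h2 : w ∈ ZQ := by
          by_contra hw
          apply h1
          refine Finset.sum_eq_zero fun j _ => ?_
          have h3 : (P j).rootMultiplicity w = 0 := by
            rw [← count_roots]
            exact Multiset.count_eq_zero_of_notMem fun h0 => hw (hZP j w h0)
          have h4 : (Q j).rootMultiplicity w = 0 := by
            rw [← count_roots]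
            exact Multiset.count_eq_zero_of_notMem fun h0 => hw (hZQ' j w h0)
          rw [h3, h4]
          simp
        obtain ⟨z, rfl⟩ := hrange w h2
        exact ⟨z, ⟨(hZmem z).2 h2, h1⟩, rfl⟩
    have hfin1 : ({z ∈ (Z : Set K) | Ew (ψ z) ≠ 0}).Finite :=
      (Finset.finite_toSet Z).subset fun z hz => hz.1
    have hfin2 : (if ∑ z ∈ Z, Ew (ψ z) = 0 then (∅ : Set (Option QB)) else {none}).Finite := by
      split_ifs
      · exact Set.finite_empty
      · exact Set.finite_singleton _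
    refine (Set.ncard_le_ncard hsub ((hfin1.image _).union hfin2)).trans ?_
    refine (Set.ncard_union_le _ _).trans ?_
    refine add_le_add (Set.ncard_image_le hfin1) ?_
    split_ifs
    · rw [Set.ncard_empty]
    · rw [Set.ncard_singleton]
  · -- the product
    set lam : Fin n → ℂ := fun j => ((P j).leadingCoeff : ℂ) / ((Q j).leadingCoeff : ℂ) with hlam
    set β : ℂ := (∏ x : X, Complex.exp x ^ (t x)) / ∏ j, lam j ^ (a j) with hβ
    have hlamK : ∀ j, lam j ∈ K := fun j => K.div_mem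
      (hK _ (Finset.mem_union_right _ (Finset.mem_union_left _ (Finset.mem_union_left _
        (Finset.mem_image_of_mem _ (Finset.mem_univ j))))))
      (hK _ (Finset.mem_union_right _ (Finset.mem_union_left _ (Finset.mem_union_right _
        (Finset.mem_image_of_mem _ (Finset.mem_univ j))))))
    have hexpK : ∀ x : X, Complex.exp x ∈ K := fun x =>
      hK _ (Finset.mem_union_right _ (Finset.mem_union_right _ (Finset.mem_image_of_mem _ x.2)))
    have hβK : β ∈ K := K.div_mem (K.prod_mem fun x _ => K.toSubfield.zpow_mem (hexpK x) _)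
      (K.prod_mem fun j _ => K.toSubfield.zpow_mem (hlamK j) _)
    have hlamU : ∀ j, MU m (lam j) := fun j =>
      (hmB _ (Finset.mem_union_left _ (Finset.mem_union_left _ (Finset.mem_union_left _
        (Finset.mem_image_of_mem _ (Finset.mem_univ j)))))).div
      (hmB _ (Finset.mem_union_left _ (Finset.mem_union_left _ (Finset.mem_union_right _
        (Finset.mem_image_of_mem _ (Finset.mem_univ j))))))
    have hexpU : ∀ x : X, MU m (Complex.exp x) := fun x =>
      hmB _ (Finset.mem_union_left _ (Finset.mem_union_right _ (Finset.mem_image_of_mem _ x.2)))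
    have hβU : MU m β := (MU.prod _ _ fun x _ => (hexpU x).zpow _).div
      (MU.prod _ _ fun j _ => (hlamU j).zpow _)
    refine ⟨⟨β, hβK⟩, (MU.map_iff ι m _).1 hβU, ?_⟩
    show ∏ z ∈ Z, (q - (z : ℂ)) ^ Ew (ψ z) = β
    have hprod : ∏ z ∈ Z, (q - (z : ℂ)) ^ Ew (ψ z) = ∏ w ∈ ZQ, (q - (w : ℂ)) ^ Ew w := by
      rw [hZ]
      refine Finset.prod_preimage ψ ZQ ψ.injective.injOn (fun w => (q - (w : ℂ)) ^ Ew w)
        fun w hw hw' => ?_
      exact absurd (hrange w hw) (fun h0 => hw' h0)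
    have hqw : ∀ w ∈ ZQ, q - (w : ℂ) ≠ 0 := by
      intro w hw h0
      have h1 : q = (w : ℂ) := sub_eq_zero.mp h0
      rw [hZQ, Finset.mem_biUnion] at hw
      obtain ⟨j, -, hj⟩ := hw
      have h2 : ∀ R : QB[X], w ∈ R.roots → aeval q R = 0 := by
        intro R hR
        have h3 : aeval q R = ((R.eval w : QB) : ℂ) := by
          rw [h1]
          have h4 := aeval_algebraMap_apply ℂ w R
          rw [← coe_aeval_eq_eval]
          exact h4
        rw [h3, (mem_roots'.mp hR).2]
        rfl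
      rcases Finset.mem_union.mp hj with h3 | h3
      · exact (hq0 j).1 (h2 _ (Multiset.mem_toFinset.mp h3))
      · exact (hq0 j).2 (h2 _ (Multiset.mem_toFinset.mp h3))
    have hval : ∀ j, Complex.exp (y j) = lam j *
        ∏ w ∈ ZQ, (q - (w : ℂ)) ^ (((P j).rootMultiplicity w : ℤ) - (Q j).rootMultiplicity w) := by
      intro j
      rw [hy j, aeval_prod (P j) ZQ (hZP j), aeval_prod (Q j) ZQ (hZQ' j)]
      have h3 : ∏ w ∈ ZQ, (q - (w : ℂ)) ^ (((P j).rootMultiplicity w : ℤ) -
          (Q j).rootMultiplicity w) = (∏ w ∈ ZQ, (q - (w : ℂ)) ^ ((P j).rootMultiplicity w : ℤ)) /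
            ∏ w ∈ ZQ, (q - (w : ℂ)) ^ ((Q j).rootMultiplicity w : ℤ) := by
        rw [← Finset.prod_div_distrib]
        refine Finset.prod_congr rfl fun w hw => ?_
        rw [zpow_sub₀ (hqw w hw)]
      rw [h3, hlam]
      simp only
      rw [div_mul_div_comm]
    have hexp : ∏ j, Complex.exp (y j) ^ a j = ∏ x : X, Complex.exp x ^ t x := by
      have h3 := congrArg Complex.exp hat
      rw [Complex.exp_sum, Complex.exp_sum] at h3
      rw [Finset.prod_congr rfl (fun j _ => (Complex.exp_int_mul (y j) (a j)).symm),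
        Finset.prod_congr rfl (fun (x : X) _ => (Complex.exp_int_mul (x : ℂ) (t x)).symm)]
      exact h3
    rw [hprod, hβ, ← hexp, eq_div_iff (Finset.prod_ne_zero_iff.mpr fun j _ =>
      zpow_ne_zero _ (hlamU j).1)]
    have h4 : ∀ j, Complex.exp (y j) ^ a j = lam j ^ a j * ∏ w ∈ ZQ, (q - (w : ℂ)) ^
        (a j * (((P j).rootMultiplicity w : ℤ) - (Q j).rootMultiplicity w)) := by
      intro j
      rw [hval j, mul_zpow, ← Finset.prod_zpow]
      congr 1
      refine Finset.prod_congr rfl fun w _ => ?_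
      rw [← zpow_mul, mul_comm]
    rw [Finset.prod_congr rfl (fun j _ => h4 j), Finset.prod_mul_distrib, mul_comm]
    congr 1
    rw [Finset.prod_comm]
    refine Finset.prod_congr rfl fun w hw => ?_
    rw [hEw]
    simp only
    have h5 : ∀ (s : Finset (Fin n)) (f : Fin n → ℤ), (q - (w : ℂ)) ^ (∑ j ∈ s, f j) =
        ∏ j ∈ s, (q - (w : ℂ)) ^ f j := by
      intro s f
      induction s using Finset.induction_on with
      | empty => simp
      | insert i s hi ih =>
        rw [Finset.sum_insert hi, Finset.prod_insert hi, zpow_add₀ (hqw w hw), ih]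
    exact h5 _ _

end Pool.Agent.Zk26
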