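import Pool.Agent.H301R2.SSE.Forms

set_option autoImplicit false

/-!
Consequences of the strong six exponentials theorem for multiplicatively independent positive
algebraic numbers.
-/

namespace Pool.Agent.Zk26

open Pool.Agent.H301R2.SSE

/-- linear forms in logarithms of positive algebraic numbers, without constant term -/
noncomputable def Lr : Submodule QB ℂ :=
  Submodule.span QB {z : ℂ | ∃ a : ℝ, 0 < a ∧ IsAlgebraic ℚ a ∧ z = ((Real.log a : ℝ) : ℂ)}

theorem toC {a : ℝ} (h : IsAlgebraic ℚ a) : IsAlgebraic ℚ (a : ℂ) := by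
  have := h.algebraMap (A := ℂ)
  simpa using this

theorem ofC {a : ℝ} (h : IsAlgebraic ℚ (a : ℂ)) : IsAlgebraic ℚ a := by
  have h1 : IsAlgebraic ℚ (algebraMap ℝ ℂ a) := h
  exact (isAlgebraic_algebraMap_iff (algebraMap ℝ ℂ).injective).mp h1

theorem exp_log {a : ℝ} (ha : 0 < a) : Complex.exp ((Real.log a : ℝ) : ℂ) = (a : ℂ) := by
  rw [← Complex.ofReal_exp, Real.exp_log ha]

theorem Lr_log {a : ℝ} (ha : 0 < a) (h : IsAlgebraic ℚ a) : ((Real.log a : ℝ) : ℂ) ∈ Lr :=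
  Submodule.subset_span ⟨a, ha, h, rfl⟩

theorem Lr_mul {a z : ℂ} (ha : IsAlgebraic ℚ a) (hz : z ∈ Lr) : a * z ∈ Lr :=
  Lr.smul_mem (⟨a, mem_QB.mpr ha⟩ : QB) hz

theorem Lt_logr {a : ℝ} (ha : 0 < a) (h : IsAlgebraic ℚ a) : ((Real.log a : ℝ) : ℂ) ∈ Lt :=
  Lt_log (by rw [exp_log ha]; exact toC h)

theorem Lr_le_LB : Lr ≤ LB := by
  unfold Lr
  rw [Submodule.span_le]
  rintro z ⟨a, ha, h, rfl⟩
  exact LB_log (by rw [exp_log ha]; exact toC h)

/-- logarithms of multiplicatively independent positive numbers -/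
theorem log_indep {n : ℕ} {f : Fin n → ℝ} (hf0 : ∀ i, 0 < f i)
    (hf : ∀ m : Fin n → ℤ, ∏ i, f i ^ m i = 1 → m = 0) :
    LinearIndependent ℚ (fun i => ((Real.log (f i) : ℝ) : ℂ)) := by
  rw [← LinearIndependent.iff_fractionRing ℤ ℚ, Fintype.linearIndependent_iff]
  intro m hm
  have h1 : ∑ i, (m i : ℝ) * Real.log (f i) = 0 := by
    have : ((∑ i, (m i : ℝ) * Real.log (f i) : ℝ) : ℂ) = 0 := by
      rw [← hm]
      push_cast
      apply Finset.sum_congr rfl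
      intro i _
      rw [zsmul_eq_mul]
    exact_mod_cast this
  have h2 : ∏ i, f i ^ m i = 1 := by
    have h3 : Real.log (∏ i, f i ^ m i) = 0 := by
      rw [Real.log_prod (fun i _ => (zpow_pos (hf0 i) _).ne')]
      rw [← h1]
      apply Finset.sum_congr rfl
      intro i _
      rw [Real.log_zpow]
    have h4 : 0 < ∏ i, f i ^ m i := Finset.prod_pos (fun i _ => zpow_pos (hf0 i) _)
    exact Real.eq_one_of_pos_of_log_eq_zero h4 h3
  intro i
  rw [hf m h2]
  rfl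

/-- Baker's theorem for the logarithms of multiplicatively independent positive numbers -/
theorem baker_log {n : ℕ} {f : Fin n → ℝ} (hf0 : ∀ i, 0 < f i) (hfa : ∀ i, IsAlgebraic ℚ (f i))
    (hf : ∀ m : Fin n → ℤ, ∏ i, f i ^ m i = 1 → m = 0) (c : Fin n → ℂ)
    (hc : ∀ i, IsAlgebraic ℚ (c i)) (h : ∑ i, c i * ((Real.log (f i) : ℝ) : ℂ) = 0) :
    ∀ i, c i = 0 := by
  refine (Pool.Agent.H297R2.baker_inhom (fun i => ((Real.log (f i) : ℝ) : ℂ)) ?_
    (log_indep hf0 hf) 0 isAlgebraic_zero c hc (by rw [zero_add]; exact h)).2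
  intro i
  rw [exp_log (hf0 i)]
  exact toC (hfa i)

theorem lin_two {θ : ℂ} (hθ : Transcendental ℚ θ) (a b : ℂ) (ha : IsAlgebraic ℚ a)
    (hb : IsAlgebraic ℚ b) (h : a * 1 + b * θ = 0) : a = 0 ∧ b = 0 := by
  have hb0 : b = 0 := by
    by_contra hb0
    apply hθ
    have : θ = -a / b := by
      field_simp
      linear_combination h
    rw [this]
    exact ha.neg.mul hb.inv
  refine ⟨?_, hb0⟩
  rw [hb0] at h
  simpa using h

/-- the case with a further number `w` that is not a linear form in real logarithms -/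
theorem six_core {θ w : ℂ} (hθ : Transcendental ℚ θ) (hw : w ∉ Lr) (hwL : w ∈ Lt)
    (hwθ : θ * w ∈ Lt) {f : Fin 2 → ℝ} (hf0 : ∀ i, 0 < f i) (hfa : ∀ i, IsAlgebraic ℚ (f i))
    (h : ∀ i, θ * ((Real.log (f i) : ℝ) : ℂ) ∈ Lt) :
    ∃ m : Fin 2 → ℤ, m ≠ 0 ∧ ∏ i, f i ^ m i = 1 := by
  by_contra hcon
  have hf : ∀ m : Fin 2 → ℤ, ∏ i, f i ^ m i = 1 → m = 0 := by
    intro m hm
    by_contra h0
    exact hcon ⟨m, h0, hm⟩
  refine strong_six ![1, θ] ![w, ((Real.log (f 0) : ℝ) : ℂ), ((Real.log (f 1) : ℝ) : ℂ)]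
    (fun a b ha hb hab => lin_two hθ a b ha hb hab) ?_ ?_
  · intro c hc hsum
    rw [Fin.sum_univ_three] at hsum
    have e0 : c 0 * w + c 1 * ((Real.log (f 0) : ℝ) : ℂ) + c 2 * ((Real.log (f 1) : ℝ) : ℂ) = 0 :=
      hsum
    have h0 : c 0 = 0 := by
      by_contra h0
      apply hw
      have : w = (-(c 1) / c 0) * ((Real.log (f 0) : ℝ) : ℂ) +
          (-(c 2) / c 0) * ((Real.log (f 1) : ℝ) : ℂ) := by
        field_simp
        linear_combination e0
      rw [this]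
      exact Lr.add_mem (Lr_mul ((hc 1).neg.mul (hc 0).inv) (Lr_log (hf0 0) (hfa 0)))
        (Lr_mul ((hc 2).neg.mul (hc 0).inv) (Lr_log (hf0 1) (hfa 1)))
    rw [h0, zero_mul, zero_add] at e0
    have hb := baker_log hf0 hfa hf ![c 1, c 2] (by
      intro i
      fin_cases i
      · exact hc 1
      · exact hc 2) (by
      rw [Fin.sum_univ_two]
      exact e0)
    intro j
    fin_cases j
    · exact h0
    · exact hb 0
    · exact hb 1
  · intro i j
    fin_cases i <;> fin_cases j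
    · change (1 : ℂ) * w ∈ Lt
      rw [one_mul]; exact hwL
    · change (1 : ℂ) * ((Real.log (f 0) : ℝ) : ℂ) ∈ Lt
      rw [one_mul]; exact Lt_logr (hf0 0) (hfa 0)
    · change (1 : ℂ) * ((Real.log (f 1) : ℝ) : ℂ) ∈ Lt
      rw [one_mul]; exact Lt_logr (hf0 1) (hfa 1)
    · exact hwθ
    · exact h 0
    · exact h 1

/-- three real logarithms -/
theorem six_core3 {θ : ℂ} (hθ : Transcendental ℚ θ) {f : Fin 3 → ℝ} (hf0 : ∀ i, 0 < f i)
    (hfa : ∀ i, IsAlgebraic ℚ (f i)) (h : ∀ i, θ * ((Real.log (f i) : ℝ) : ℂ) ∈ Lt) :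
    ∃ m : Fin 3 → ℤ, m ≠ 0 ∧ ∏ i, f i ^ m i = 1 := by
  by_contra hcon
  have hf : ∀ m : Fin 3 → ℤ, ∏ i, f i ^ m i = 1 → m = 0 := by
    intro m hm
    by_contra h0
    exact hcon ⟨m, h0, hm⟩
  refine strong_six ![1, θ] (fun i => ((Real.log (f i) : ℝ) : ℂ))
    (fun a b ha hb hab => lin_two hθ a b ha hb hab) ?_ ?_
  · intro c hc hsum
    exact baker_log hf0 hfa hf c hc hsum
  · intro i j
    fin_cases i
    · change (1 : ℂ) * ((Real.log (f j) : ℝ) : ℂ) ∈ Lt
      rw [one_mul]; exact Lt_logr (hf0 j) (hfa j)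
    · exact h j

end Pool.Agent.Zk26
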