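import Pool.Agent.Zk26.UnitPos

set_option autoImplicit false

/-!
Lower bounds for sums of `S`-units at a real place.
-/

namespace Pool.Agent.Zk26

open NumberField IsDedekindDomain Height Filter Topology
open Pool.Agent.W180.OP (Pl av wt fv)
open Pool.Agent.K1H83.VN

variable {K : Type} [Field K] [NumberField K]

/-- the infinite place of a real embedding -/
noncomputable def realPl (τ : K →+* ℝ) : Pl K :=
  Sum.inl (InfinitePlace.mk ((algebraMap ℝ ℂ).comp τ))

theorem av_realPl (τ : K →+* ℝ) (x : K) : av (realPl τ) x = |τ x| := by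
  show (InfinitePlace.mk ((algebraMap ℝ ℂ).comp τ)) x = _
  rw [InfinitePlace.apply]
  simp

/-- sums of `S`-units without vanishing proper subsums are large -/
theorem su_ineq (τ : K →+* ℝ) (S : Finset (Pl K)) (hS : infS K ⊆ S) {n : ℕ}
    (a : Fin (n + 1) → K) (ε : ℝ) (hε : 0 < ε) :
    {y : Fin n → K | (∀ i, IsSU S (y i)) ∧
      (∀ J : Finset (Fin (n + 1)), J.Nonempty → J ≠ Finset.univ →
        ∑ i ∈ J, a i * (Fin.cons 1 y : Fin (n + 1) → K) i ≠ 0) ∧
      |τ (∑ i, a i * (Fin.cons 1 y : Fin (n + 1) → K) i)| ≤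
        Real.exp (-ε * ∑ i, logHeight₁ (y i))}.Finite := by
  classical
  by_contra hinf
  have hinf : {y : Fin n → K | (∀ i, IsSU S (y i)) ∧
      (∀ J : Finset (Fin (n + 1)), J.Nonempty → J ≠ Finset.univ →
        ∑ i ∈ J, a i * (Fin.cons 1 y : Fin (n + 1) → K) i ≠ 0) ∧
      |τ (∑ i, a i * (Fin.cons 1 y : Fin (n + 1) → K) i)| ≤
        Real.exp (-ε * ∑ i, logHeight₁ (y i))}.Infinite := hinf
  have hS' : ∀ w : InfinitePlace K, (Sum.inl w : Pl K) ∈ S := fun w => hS (mem_infS w)
  obtain ⟨x, hinj, hx⟩ : ∃ x : ℕ → (Fin n → K), Function.Injective x ∧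
      ∀ t, x t ∈ {y : Fin n → K | (∀ i, IsSU S (y i)) ∧
        (∀ J : Finset (Fin (n + 1)), J.Nonempty → J ≠ Finset.univ →
          ∑ i ∈ J, a i * (Fin.cons 1 y : Fin (n + 1) → K) i ≠ 0) ∧
        |τ (∑ i, a i * (Fin.cons 1 y : Fin (n + 1) → K) i)| ≤
          Real.exp (-ε * ∑ i, logHeight₁ (y i))} :=
    ⟨fun t => (hinf.natEmbedding _ t : Fin n → K), fun s t h => (hinf.natEmbedding _).injective
      (Subtype.ext h), fun t => (hinf.natEmbedding _ t).2⟩
  have hlim : Tendsto (fun t => ∑ i, logHeight₁ (x t i)) atTop atTop := by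
    rw [← Nat.cofinite_eq_atTop]
    have h1 : Tendsto (fun y : Fin n → K => ∑ i, logHeight₁ (y i)) cofinite atTop := by
      rw [← northcott_iff_tendsto]
      exact ⟨fun B => height_finite B⟩
    exact h1.comp hinj.tendsto_cofinite
  let σ : Sc := ⟨hyperfilter ℕ, _, hlim.mono_left Nat.hyperfilter_le_atTop⟩
  have hσL : ∀ t, σ.L t = ∑ i, logHeight₁ (x t i) := fun t => rfl
  let U : Fin (n + 1) → G K σ := fun i => gm σ (fun t => (Fin.cons 1 (x t) : Fin (n + 1) → K) i)
  have hUrep : ∀ i, ∀ᶠ t in (σ.𝒰 : Filter ℕ),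
      rep (U i) t = (Fin.cons 1 (x t) : Fin (n + 1) → K) i := fun i => rep_gm _
  have hconsSU : ∀ t i, IsSU S ((Fin.cons 1 (x t) : Fin (n + 1) → K) i) := by
    intro t i
    refine Fin.cases ?_ (fun i => ?_) i
    · exact IsSU.one S
    · exact (hx t).1 i
  have hUS : ∀ i, SU S (U i) := by
    intro i
    filter_upwards [hUrep i] with t ht
    rw [ht]
    exact hconsSU t i
  have hUB : ∀ i, U i ∈ BB K σ := by
    intro i
    rw [mem_BB]
    refine ⟨1, ?_⟩
    filter_upwards [hUrep i] with t ht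
    rw [ht, hσL, one_mul]
    refine Fin.cases ?_ (fun i => ?_) i
    · rw [Fin.cons_zero, logHeight₁_one]
      exact Finset.sum_nonneg fun j _ => zero_le_logHeight₁ _
    · rw [Fin.cons_succ]
      exact Finset.single_le_sum (f := fun i => logHeight₁ (x t i))
        (fun j _ => zero_le_logHeight₁ _) (Finset.mem_univ i)
  have hU0 : ∀ i, U i ≠ 0 := fun i => (hUS i).ne_zero
  have hUone : U 0 = 1 := by
    show gm σ (fun t => (1 : K)) = 1
    exact map_one (gm σ)
  have hsum : ∀ J : Finset (Fin (n + 1)), ∑ i ∈ J, algebraMap K (G K σ) (a i) * U i =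
      gm σ (fun t => ∑ i ∈ J, a i * (Fin.cons 1 (x t) : Fin (n + 1) → K) i) := by
    intro J
    have h4 : ∀ j, algebraMap K (G K σ) (a j) * U j =
        gm σ ((fun _ => a j) * (fun t => (Fin.cons 1 (x t) : Fin (n + 1) → K) j)) := by
      intro j
      rw [alg_eq, ← map_mul]
    rw [Finset.sum_congr rfl (fun j _ => h4 j), ← map_sum]
    congr 1
    funext t
    rw [Finset.sum_apply]
    rfl
  -- the classes
  let s : Setoid (Fin (n + 1)) :=
    { r := fun o o' => U o / U o' ∈ FF K σ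
      iseqv := by
        refine ⟨fun o => ?_, fun {o o'} h => ?_, fun {o o' o''} h h' => ?_⟩
        · rw [div_self (hU0 o)]; exact (FF K σ).one_mem
        · have := (FF K σ).inv_mem h
          rwa [inv_div] at this
        · have := (FF K σ).mul_mem h h'
          rwa [div_mul_div_cancel₀ (hU0 o')] at this }
  let C : Quotient s → G K σ := fun q =>
    ∑ o ∈ Finset.univ.filter (fun o => (⟦o⟧ : Quotient s) = q),
      algebraMap K (G K σ) (a o) * (U o / U q.out)
  have hout : ∀ o : Fin (n + 1), U o / U ((⟦o⟧ : Quotient s).out) ∈ FF K σ := by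
    intro o
    have h1 : s.r ((⟦o⟧ : Quotient s).out) o := Quotient.mk_out o
    exact s.symm h1
  have hCF : ∀ q, C q ∈ FF K σ := by
    intro q
    refine (FF K σ).sum_mem fun o ho => ?_
    rw [Finset.mem_filter] at ho
    rw [← ho.2]
    exact (FF K σ).mul_mem (alg_mem _) (hout o)
  have hCU : ∀ q, C q * U q.out =
      gm σ (fun t => ∑ i ∈ Finset.univ.filter (fun o => (⟦o⟧ : Quotient s) = q),
        a i * (Fin.cons 1 (x t) : Fin (n + 1) → K) i) := by
    intro q
    rw [← hsum]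
    show (∑ o ∈ Finset.univ.filter (fun o => (⟦o⟧ : Quotient s) = q),
      algebraMap K (G K σ) (a o) * (U o / U q.out)) * U q.out = _
    rw [Finset.sum_mul]
    refine Finset.sum_congr rfl fun o _ => ?_
    have := hU0 q.out
    field_simp
  have hCsum : ∑ q, C q * U q.out =
      gm σ (fun t => ∑ i, a i * (Fin.cons 1 (x t) : Fin (n + 1) → K) i) := by
    rw [← hsum, ← Finset.sum_fiberwise Finset.univ (fun o => (⟦o⟧ : Quotient s))
      (fun o => algebraMap K (G K σ) (a o) * U o)]
    refine Finset.sum_congr rfl fun q _ => ?_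
    rw [hCU, ← hsum]
  -- there are at least two classes
  have htwo : ∀ q : Quotient s,
      Finset.univ.filter (fun o => (⟦o⟧ : Quotient s) = q) ≠ Finset.univ := by
    intro q hq
    have hall : ∀ i, U i ∈ FF K σ := by
      intro i
      have h1 : (⟦i⟧ : Quotient s) = q := by
        have : i ∈ Finset.univ.filter (fun o => (⟦o⟧ : Quotient s) = q) := by
          rw [hq]; exact Finset.mem_univ i
        exact (Finset.mem_filter.mp this).2
      have h2 : (⟦0⟧ : Quotient s) = q := by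
        have : (0 : Fin (n + 1)) ∈ Finset.univ.filter (fun o => (⟦o⟧ : Quotient s) = q) := by
          rw [hq]; exact Finset.mem_univ _
        exact (Finset.mem_filter.mp this).2
      have h3 : U i / U 0 ∈ FF K σ := Quotient.exact (h1.trans h2.symm)
      rwa [hUone, div_one] at h3
    have h1 : ∀ i : Fin n, ∀ᶠ t in (σ.𝒰 : Filter ℕ),
        logHeight₁ (rep (U i.succ) t) ≤ 1 / (2 * (n + 1)) * σ.L t := fun i =>
      (mem_FF _).1 (hall i.succ) _ (by positivity)
    have h2 : ∀ᶠ t in (σ.𝒰 : Filter ℕ), ∀ i : Fin n,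
        logHeight₁ (rep (U i.succ) t) ≤ 1 / (2 * (n + 1)) * σ.L t := by
      rw [Filter.eventually_all]
      exact h1
    have h3 : ∀ᶠ t in (σ.𝒰 : Filter ℕ), ∀ i : Fin n, rep (U i.succ) t = x t i := by
      rw [Filter.eventually_all]
      exact fun i => hUrep i.succ
    obtain ⟨t, ht1, ht2, ht3⟩ := (h2.and (h3.and (L_pos (σ := σ)))).exists
    have h4 : σ.L t ≤ ∑ i : Fin n, 1 / (2 * ((n : ℝ) + 1)) * σ.L t := by
      conv_lhs => rw [hσL]
      refine Finset.sum_le_sum fun i _ => ?_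
      have := ht1 i
      rwa [ht2 i] at this
    rw [Finset.sum_const, Finset.card_univ, Fintype.card_fin, nsmul_eq_mul] at h4
    have h5 : (n : ℝ) * (1 / (2 * ((n : ℝ) + 1)) * σ.L t) =
        (n / (2 * ((n : ℝ) + 1))) * σ.L t := by ring
    rw [h5] at h4
    have h6 : (n : ℝ) / (2 * ((n : ℝ) + 1)) < 1 := by
      rw [div_lt_one (by positivity)]
      have : (0 : ℝ) ≤ n := Nat.cast_nonneg n
      linarith
    nlinarith
  have hC0 : ∀ q, C q ≠ 0 := by
    intro q h0
    have h1 := hCU q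
    rw [h0, zero_mul] at h1
    have h2 : gm σ (fun t => ∑ i ∈ Finset.univ.filter (fun o => (⟦o⟧ : Quotient s) = q),
        a i * (Fin.cons 1 (x t) : Fin (n + 1) → K) i) ≠ 0 := by
      rw [gm_ne]
      refine Eventually.of_forall fun t => ?_
      refine (hx t).2.1 _ ?_ (htwo q)
      obtain ⟨o, ho⟩ := Quotient.exists_rep q
      exact ⟨o, Finset.mem_filter.mpr ⟨Finset.mem_univ _, ho⟩⟩
    exact h2 h1.symm
  have hlb := lb hS' (fun q : Quotient s => U q.out) (fun q => hUS _) (fun q => hUB _) (by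
    intro q q' hqq h
    apply hqq
    have h1 : s.r q.out q'.out := h
    have h2 := Quotient.sound h1
    rwa [Quotient.out_eq, Quotient.out_eq] at h2) C hCF hC0 (realPl τ) (hS' _) ⟦0⟧
  rw [hCsum] at hlb
  -- the germ of the first unit has valuation one
  have hval : (OO σ (av (realPl τ))).valuation (U ((⟦0⟧ : Quotient s).out)) =
      (OO σ (av (realPl τ))).valuation 1 := by
    have h1 : s.r ((⟦0⟧ : Quotient s).out) 0 := Quotient.mk_out 0
    have h2 : U ((⟦0⟧ : Quotient s).out) / U 0 ∈ FF K σ := h1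
    rw [hUone, div_one] at h2
    rw [val_FF (realPl τ) h2 (hU0 _), map_one]
  have hlb' : (OO σ (av (realPl τ))).valuation (1 : G K σ) ≤ (OO σ (av (realPl τ))).valuation
      (gm σ (fun t => ∑ i, a i * (Fin.cons 1 (x t) : Fin (n + 1) → K) i)) := by
    rw [← hval]
    exact hlb
  have h1 := val_le (av (realPl τ)) hlb' (ε / 2) (by positivity)
  obtain ⟨t, ht1, ht2, ht3, ht4⟩ := (h1.and ((rep_one (k := K) (σ := σ)).and
    ((rep_gm (σ := σ) (fun t => ∑ i, a i * (Fin.cons 1 (x t) : Fin (n + 1) → K) i)).and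
      (L_pos (σ := σ))))).exists
  rw [ht2, ht3, av_realPl, av_realPl, map_one, abs_one] at ht1
  have h2 := (hx t).2.2
  rw [← hσL] at h2
  have h3 : (1 : ℝ) ≤ Real.exp (-ε * σ.L t) * Real.exp (ε / 2 * σ.L t) :=
    ht1.trans (mul_le_mul_of_nonneg_right h2 (Real.exp_pos _).le)
  rw [← Real.exp_add] at h3
  have h4 : -ε * σ.L t + ε / 2 * σ.L t < 0 := by nlinarith
  have h5 := Real.exp_lt_exp.mpr h4
  rw [Real.exp_zero] at h5
  linarith

end Pool.Agent.Zk26
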