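import Pool.Agent.Zk26.Core
import Pool.Agent.H340R2.LW

set_option autoImplicit false

/-!
`π + c` is not a linear form in real logarithms; numbers `e ^ z`, `z` a linear form in `1` and
logarithms.
-/

namespace Pool.Agent.Zk26

open Module Pool.Agent.H301R2.SSE

theorem ratCast_alg (q : ℚ) : IsAlgebraic ℚ (q : ℂ) := isAlgebraic_algebraMap q

/-- `β π + c` is not a linear form in real logarithms, except if `β = c = 0` -/
theorem Lr_pi {c β : ℂ} (hc : IsAlgebraic ℚ c) (hβ : IsAlgebraic ℚ β)
    (h : β * (Real.pi : ℂ) + c ∈ Lr) : β = 0 ∧ c = 0 := by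
  classical
  unfold Lr at h
  rw [Submodule.mem_span_iff_exists_finset_subset] at h
  obtain ⟨f, t, ht, -, hf⟩ := h
  obtain ⟨κ, a, ha, hsp, hli⟩ := exists_linearIndependent' ℚ (fun w : t => (w : ℂ))
  haveI : Finite κ := Finite.of_injective a ha
  haveI : Fintype κ := Fintype.ofFinite κ
  have hrep : ∀ w : t, ∃ q : κ → ℚ, (w : ℂ) = ∑ k, (q k : ℂ) * ((a k : t) : ℂ) := by
    intro w
    have h1 : (w : ℂ) ∈ Submodule.span ℚ (Set.range ((fun w : t => (w : ℂ)) ∘ a)) := by
      rw [hsp]; exact Submodule.subset_span ⟨w, rfl⟩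
    rw [Submodule.mem_span_range_iff_exists_fun] at h1
    obtain ⟨q, hq⟩ := h1
    refine ⟨q, ?_⟩
    rw [← hq]
    apply Finset.sum_congr rfl
    intro k _
    rw [Rat.smul_def]
    rfl
  choose q hq using hrep
  have hreal : ∀ w : t, ((w : ℂ)).im = 0 := by
    intro w
    obtain ⟨b, -, -, hb⟩ := ht w.2
    rw [hb]
    exact Complex.ofReal_im _
  let e := Fintype.equivFin κ
  let ω : Option (Fin (Fintype.card κ)) → ℂ := fun o =>
    o.elim ((Real.pi : ℂ) * Complex.I) (fun k => ((a (e.symm k) : t) : ℂ))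
  have hli2 : LinearIndependent ℚ (fun k => ((a (e.symm k) : t) : ℂ)) :=
    hli.comp e.symm e.symm.injective
  have hω : LinearIndependent ℚ ω := by
    rw [Fintype.linearIndependent_iff] at hli2 ⊢
    intro g hg
    rw [Fintype.sum_option] at hg
    have him := congrArg Complex.im hg
    have h0 : g none = 0 := by
      have e1 : (g none • ω none).im = (g none : ℝ) * Real.pi := by
        change (g none • ((Real.pi : ℂ) * Complex.I)).im = _
        rw [Rat.smul_def]
        simp
      have e2 : (∑ i : Fin (Fintype.card κ), g (some i) • ω (some i)).im = 0 := by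
        rw [Complex.im_sum]
        apply Finset.sum_eq_zero
        intro i _
        change (g (some i) • ((a (e.symm i) : t) : ℂ)).im = 0
        rw [Rat.smul_def, Complex.mul_im, hreal (a (e.symm i))]
        simp
      rw [Complex.add_im, e1, e2, add_zero, Complex.zero_im] at him
      have := (mul_eq_zero.mp him).resolve_right Real.pi_ne_zero
      exact_mod_cast this
    rw [h0, zero_smul, zero_add] at hg
    have h1 := hli2 (fun i => g (some i)) hg
    intro o
    cases o with
    | none => exact h0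
    | some i => exact h1 i
  have hb := Pool.Agent.H297R2.baker_inhom (ι := Option (Fin (Fintype.card κ))) ω
    (by
      intro o
      cases o with
      | none =>
        change IsAlgebraic ℚ (Complex.exp ((Real.pi : ℂ) * Complex.I))
        rw [Complex.exp_pi_mul_I]
        exact isAlgebraic_one.neg
      | some k =>
        obtain ⟨b, hb0, hb1, hb⟩ := ht (a (e.symm k)).2
        change IsAlgebraic ℚ (Complex.exp ((a (e.symm k) : t) : ℂ))
        rw [hb, exp_log hb0]
        exact toC hb1) hω (-c) hc.neg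
    (fun o => o.elim (β * Complex.I) (fun k => ∑ w : t, (f w : ℂ) * (q w (e.symm k) : ℂ)))
    (by
      intro o
      cases o with
      | none => exact hβ.mul Pool.Agent.H340R2.LW.isAlgebraic_I
      | some k =>
        change IsAlgebraic ℚ (∑ w : t, (f w : ℂ) * (q w (e.symm k) : ℂ))
        rw [← mem_QB]
        apply sum_mem
        intro w _
        exact mul_mem (f w).2 (mem_QB.mpr (ratCast_alg _)))
    (by
      rw [Fintype.sum_option]
      change -c + ((β * Complex.I) * ((Real.pi : ℂ) * Complex.I) +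
        ∑ k : Fin (Fintype.card κ), (∑ w : t, (f w : ℂ) * (q w (e.symm k) : ℂ)) *
          ((a (e.symm k) : t) : ℂ)) = 0
      have h1 : ∑ k : Fin (Fintype.card κ), (∑ w : t, (f w : ℂ) * (q w (e.symm k) : ℂ)) *
          ((a (e.symm k) : t) : ℂ) =
          ∑ k : κ, (∑ w : t, (f w : ℂ) * (q w k : ℂ)) * ((a k : t) : ℂ) :=
        Equiv.sum_comp e.symm
          (fun k => (∑ w : t, (f w : ℂ) * (q w k : ℂ)) * ((a k : t) : ℂ))
      have h2 : ∑ k : κ, (∑ w : t, (f w : ℂ) * (q w k : ℂ)) * ((a k : t) : ℂ) =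
          β * (Real.pi : ℂ) + c := by
        rw [← hf, ← Finset.sum_coe_sort t (fun w => f w • w)]
        simp only [Finset.sum_mul]
        rw [Finset.sum_comm]
        apply Finset.sum_congr rfl
        intro w _
        have h3 : f (w : ℂ) • (w : ℂ) = (f (w : ℂ) : ℂ) * (w : ℂ) := by
          rw [Algebra.smul_def]; rfl
        have h4 : (f (w : ℂ) : ℂ) * (w : ℂ)
            = (f (w : ℂ) : ℂ) * ∑ k, ((q w k : ℚ) : ℂ) * ((a k : t) : ℂ) :=
          congrArg (fun v => (f (w : ℂ) : ℂ) * v) (hq w)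
        rw [h3, h4, Finset.mul_sum]
        apply Finset.sum_congr rfl
        intro k _
        ring
      rw [h1, h2]
      have hI : Complex.I * Complex.I = -1 := Complex.I_mul_I
      linear_combination (β * (Real.pi : ℂ)) * hI)
  refine ⟨?_, neg_eq_zero.mp hb.1⟩
  have h5 := hb.2 none
  have h6 : β * Complex.I = 0 := h5
  exact (mul_eq_zero.mp h6).resolve_right Complex.I_ne_zero

theorem Lt_pi : (Real.pi : ℂ) ∈ Lt := by
  have h1 : (Real.pi : ℂ) * Complex.I ∈ Lt :=
    Lt_log (by rw [Complex.exp_pi_mul_I]; exact isAlgebraic_one.neg)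
  have h2 := Lt_mul (Pool.Agent.H340R2.LW.isAlgebraic_I.neg) h1
  have h3 : -Complex.I * ((Real.pi : ℂ) * Complex.I) = (Real.pi : ℂ) := by
    linear_combination (-(Real.pi : ℂ)) * Complex.I_mul_I
  rwa [h3] at h2

/-- a number outside of the real linear forms has a transcendental exponential -/
theorem exp_trans {u : ℝ} (hu : (u : ℂ) ∉ Lr) : Transcendental ℚ (Real.exp u) := by
  intro h
  apply hu
  have := Lr_log (Real.exp_pos u) h
  rwa [Real.log_exp] at this

/-- `e ^ z` with `z` a linear form -/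
def InB (x : ℝ) : Prop := ∃ z ∈ Lt, Complex.exp z = (x : ℂ)

theorem InB_of_alg {x : ℝ} (hx : x ≠ 0) (h : IsAlgebraic ℚ x) : InB x := by
  have hx' : (x : ℂ) ≠ 0 := by exact_mod_cast hx
  refine ⟨Complex.log x, Lt_log ?_, Complex.exp_log hx'⟩
  rw [Complex.exp_log hx']
  exact toC h

theorem InB_rpow {x w : ℝ} (hx : 0 < x) (h : InB (x ^ w)) :
    (w : ℂ) * ((Real.log x : ℝ) : ℂ) ∈ Lt := by
  obtain ⟨z, hz, he⟩ := h
  have h1 : ((x ^ w : ℝ) : ℂ) = Complex.exp ((w : ℂ) * ((Real.log x : ℝ) : ℂ)) := by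
    rw [Real.rpow_def_of_pos hx, Complex.ofReal_exp]
    congr 1
    push_cast
    ring
  rw [h1, Complex.exp_eq_exp_iff_exists_int] at he
  obtain ⟨n, hn⟩ := he
  have h2 : (2 * (Real.pi : ℂ) * Complex.I) ∈ Lt := Lt_log (by
    rw [Complex.exp_two_pi_mul_I]; exact isAlgebraic_one)
  have h3 : (n : ℂ) * (2 * (Real.pi : ℂ) * Complex.I) ∈ Lt :=
    Lt_mul (by
      have := ratCast_alg (n : ℚ)
      simpa using this) h2
  have h4 : (w : ℂ) * ((Real.log x : ℝ) : ℂ) = z - (n : ℂ) * (2 * (Real.pi : ℂ) * Complex.I) := by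
    rw [hn]; ring
  rw [h4]
  exact Lt.sub_mem hz h3

end Pool.Agent.Zk26
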