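import Pool.Agent.Zk26.Forms2

set_option autoImplicit false

/-!
The sets of all positive algebraic `r` with `θ (log r + w)` a linear form in logarithms, and the
numbers `x + y`, `x y` for multiples.
-/

namespace Pool.Agent.Zk26

open Pool.Agent.H301R2.SSE

/-- the quotients of the elements of `S` generate a group of rank at most `k` -/
def Rk (k : ℕ) (S : Set ℝ) : Prop :=
  ∀ a ∈ S, ∀ f : Fin (k + 1) → ℝ, (∀ i, f i ∈ S) →
    ∃ m : Fin (k + 1) → ℤ, m ≠ 0 ∧ ∏ i, (f i / a) ^ m i = 1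

theorem diff_mem {θ w : ℂ} {a b : ℝ} (ha : 0 < a) (hb : 0 < b)
    (h1 : θ * (((Real.log a : ℝ) : ℂ) + w) ∈ Lt) (h2 : θ * (((Real.log b : ℝ) : ℂ) + w) ∈ Lt) :
    θ * ((Real.log (b / a) : ℝ) : ℂ) ∈ Lt := by
  have h3 := Lt.sub_mem h2 h1
  have h4 : θ * (((Real.log b : ℝ) : ℂ) + w) - θ * (((Real.log a : ℝ) : ℂ) + w) =
      θ * ((Real.log (b / a) : ℝ) : ℂ) := by
    rw [Real.log_div hb.ne' ha.ne']
    push_cast
    ring
  rwa [h4] at h3

/-- the sets `{r : θ (log r + w) ∈ 𝓛}` -/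
def eSet (θ w : ℂ) : Set ℝ :=
  {r : ℝ | 0 < r ∧ IsAlgebraic ℚ r ∧ θ * (((Real.log r : ℝ) : ℂ) + w) ∈ Lt}

theorem eSet_rank {θ w v : ℂ} (hθ : Transcendental ℚ θ) (hv : v ∉ Lr) (hvL : v ∈ Lt)
    (hvθ : θ * v ∈ Lt) : Rk 1 (eSet θ w) := by
  intro a ha f hf
  exact six_core hθ hv hvL hvθ (fun i => div_pos (hf i).1 ha.1)
    (fun i => by
      have := (hf i).2.1.mul ha.2.1.inv
      rwa [← div_eq_mul_inv] at this)
    (fun i => diff_mem ha.1 (hf i).1 ha.2.2 (hf i).2.2)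

theorem eSet_rank2 {θ w : ℂ} (hθ : Transcendental ℚ θ) : Rk 2 (eSet θ w) := by
  intro a ha f hf
  exact six_core3 hθ (fun i => div_pos (hf i).1 ha.1)
    (fun i => by
      have := (hf i).2.1.mul ha.2.1.inv
      rwa [← div_eq_mul_inv] at this)
    (fun i => diff_mem ha.1 (hf i).1 ha.2.2 (hf i).2.2)

theorem transC {x : ℝ} (h : Transcendental ℚ x) : Transcendental ℚ (x : ℂ) :=
  fun h1 => h (ofC h1)

/-- the exponent of a power is moved out -/
theorem pow_mem {r t X E : ℝ} (hr : 0 < r) (hX : 0 < X) (ht : t ≠ 0) (hta : IsAlgebraic ℚ t)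
    (h : InB ((r * X) ^ (t * E))) :
    (E : ℂ) * (((Real.log r : ℝ) : ℂ) + ((Real.log X : ℝ) : ℂ)) ∈ Lt := by
  have h1 := InB_rpow (mul_pos hr hX) h
  have h2 := Lt_mul (toC hta.inv) h1
  have ht' : (t : ℂ) ≠ 0 := by exact_mod_cast ht
  have h3 : ((t⁻¹ : ℝ) : ℂ) * (((t * E : ℝ) : ℂ) * ((Real.log (r * X) : ℝ) : ℂ)) =
      (E : ℂ) * (((Real.log r : ℝ) : ℂ) + ((Real.log X : ℝ) : ℂ)) := by
    rw [Real.log_mul hr.ne' hX.ne']
    push_cast
    field_simp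
  rwa [h3] at h2

/-- the three sets of exceptional multipliers -/
theorem three_sets {x₀ u₀ : ℝ} (hxt : Transcendental ℚ x₀)
    (hxL : (x₀ : ℂ) ∈ Lt) (huL : (u₀ : ℂ) ∈ Lt) (huR : (u₀ : ℂ) ∉ Lr) :
    Rk 1 (eSet (x₀ : ℂ) ((Real.log x₀ : ℝ) : ℂ)) ∧
    Rk 2 (eSet ((Real.exp u₀ : ℝ) : ℂ) ((Real.log x₀ : ℝ) : ℂ)) ∧
    Rk 1 (eSet ((Real.exp u₀ : ℝ) : ℂ) (u₀ : ℂ)) := by
  have hθ : Transcendental ℚ (Real.exp u₀) := exp_trans huR
  have h1R : (1 : ℂ) ∉ Lr := fun h => one_ne_zero (LB_alg (Lr_le_LB h) isAlgebraic_one)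
  refine ⟨eSet_rank (transC hxt) h1R Lt_one (by rw [mul_one]; exact hxL),
    eSet_rank2 (transC hθ), ?_⟩
  intro a ha f hf
  refine eSet_rank (v := ((Real.log a : ℝ) : ℂ) + (u₀ : ℂ)) (transC hθ) ?_ ?_ ha.2.2 a ha f hf
  · intro h
    apply huR
    have := Lr.sub_mem h (Lr_log ha.1 ha.2.1)
    rwa [add_sub_cancel_left] at this
  · exact Lt.add_mem (Lt_logr ha.1 ha.2.1) huL

/-- the ratio for which a sum of multiples can be algebraic -/
theorem exists_ratio {x₀ E : ℝ} (hθ : Transcendental ℚ E) :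
    ∃ ρ : ℝ, ∀ r t : ℝ, 0 < r → 0 < t → IsAlgebraic ℚ r → IsAlgebraic ℚ t →
        IsAlgebraic ℚ (r * x₀ + t * E) → t = ρ * r := by
  by_cases hex : ∃ r t : ℝ, 0 < r ∧ IsAlgebraic ℚ r ∧ IsAlgebraic ℚ t ∧
      IsAlgebraic ℚ (r * x₀ + t * E)
  · obtain ⟨r₁, t₁, hr₁, hra₁, hta₁, h₁⟩ := hex
    refine ⟨t₁ / r₁, fun r t hr ht hra hta h => ?_⟩
    by_contra hne
    have h2 : IsAlgebraic ℚ ((t * r₁ - t₁ * r) * E) := by
      have h3 : (t * r₁ - t₁ * r) * E =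
          r₁ * (r * x₀ + t * E) - r * (r₁ * x₀ + t₁ * E) := by ring
      rw [h3]
      exact (hra₁.mul h).sub (hra.mul h₁)
    have h4 : t * r₁ - t₁ * r ≠ 0 := by
      intro h4
      apply hne
      field_simp
      linarith
    apply hθ
    have h5 : E = (t * r₁ - t₁ * r)⁻¹ * ((t * r₁ - t₁ * r) * E) := by
      field_simp
    rw [h5]
    exact ((hta.mul hra₁).sub (hta₁.mul hra)).inv.mul h2
  · exact ⟨0, fun r t hr ht hra hta h => (hex ⟨r, t, hr, hra, hta, h⟩).elim⟩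

/-- `(π + c) e ^ s` is transcendental with at most one exception -/
theorem one_exception : ∃ c₀ s₀ : ℝ, ∀ c s : ℝ, IsAlgebraic ℚ c → IsAlgebraic ℚ s → s ≠ 0 →
    (c, s) ≠ (c₀, s₀) → Transcendental ℚ ((Real.pi + c) * Real.exp s) := by
  by_cases hex : ∃ c₀ s₀ : ℝ, IsAlgebraic ℚ c₀ ∧ IsAlgebraic ℚ s₀ ∧ s₀ ≠ 0 ∧
      IsAlgebraic ℚ ((Real.pi + c₀) * Real.exp s₀)
  · obtain ⟨c₀, s₀, hc₀, hs₀, hs₀0, hk⟩ := hex
    refine ⟨c₀, s₀, fun c s hc hs hs0 hne hk' => hne ?_⟩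
    obtain ⟨κ, hκ⟩ : ∃ κ : ℝ, κ = (Real.pi + c₀) * Real.exp s₀ := ⟨_, rfl⟩
    obtain ⟨κ', hκ'⟩ : ∃ κ' : ℝ, κ' = (Real.pi + c) * Real.exp s := ⟨_, rfl⟩
    rw [← hκ] at hk
    rw [← hκ'] at hk'
    have e1 : κ * Real.exp (-s₀) = Real.pi + c₀ := by
      rw [hκ, mul_assoc, ← Real.exp_add]; simp
    have e2 : κ' * Real.exp (-s) = Real.pi + c := by
      rw [hκ', mul_assoc, ← Real.exp_add]; simp
    by_cases hss : s = s₀
    · subst hss
      have h1 : (κ' - κ) * Real.exp (-s) = c - c₀ := by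
        rw [sub_mul, e1, e2]; ring
      have h2 : c = c₀ := by
        by_contra hcc
        have h3 : κ' - κ ≠ 0 := by
          intro h3
          rw [h3, zero_mul] at h1
          exact hcc (by linarith)
        have h4 : Real.exp (-s) = (c - c₀) / (κ' - κ) := by
          rw [← h1]; field_simp
        have h5 : IsAlgebraic ℚ (Real.exp (-s)) := by
          rw [h4, div_eq_mul_inv]
          exact (hc.sub hc₀).mul (hk'.sub hk).inv
        have h6 := Pool.Agent.H340R2.LW.transcendental_cexp ((-s : ℝ) : ℂ) (toC hs.neg)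
          (by
            have : -s ≠ 0 := neg_ne_zero.mpr hs0
            exact_mod_cast this)
        apply h6
        rw [← Complex.ofReal_exp]
        exact toC h5
      rw [h2]
    · exfalso
      have h1 : ((c - c₀ : ℝ) : ℂ) + ((κ : ℝ) : ℂ) * Complex.exp (((-s₀ : ℝ) : ℂ)) +
          ((-κ' : ℝ) : ℂ) * Complex.exp (((-s : ℝ) : ℂ)) = 0 := by
        have h2 : (c - c₀) + κ * Real.exp (-s₀) + (-κ') * Real.exp (-s) = 0 := by
          rw [neg_mul, e1, e2]; ring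
        rw [← Complex.ofReal_exp, ← Complex.ofReal_exp]
        exact_mod_cast congrArg (fun v : ℝ => (v : ℂ)) h2
      have h3 := Pool.Agent.H340R2.LW.exp_linearIndependent_aux _ _ _ _ _ (toC hs₀.neg)
        (toC hs.neg)
        (by
          have : -s₀ ≠ 0 := neg_ne_zero.mpr hs₀0
          exact_mod_cast this)
        (by
          have : -s ≠ 0 := neg_ne_zero.mpr hs0
          exact_mod_cast this)
        (by
          intro h4
          have h5 : -s₀ = -s := by exact_mod_cast h4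
          exact hss (neg_injective h5).symm)
        (toC (hc.sub hc₀)) (toC hk) (toC hk'.neg) h1
      have h4 : κ = 0 := by exact_mod_cast h3.2.1
      rw [h4, zero_mul] at e1
      have h5 : Real.pi = -c₀ := by linarith
      exact Pool.Agent.H340R2.LW.transcendental_pi (by rw [h5]; exact hc₀.neg)
  · exact ⟨0, 0, fun c s hc hs hs0 _ h => hex ⟨c, s, hc, hs, hs0, h⟩⟩

theorem pi_add_proper {c : ℝ} (hc : IsAlgebraic ℚ c) :
    ((Real.pi + c : ℝ) : ℂ) ∈ Lt ∧ ((Real.pi + c : ℝ) : ℂ) ∉ Lr ∧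
      Transcendental ℚ (Real.pi + c) := by
  refine ⟨?_, ?_, ?_⟩
  · push_cast
    exact Lt.add_mem Lt_pi (Lt_alg (toC hc))
  · intro h
    have h1 : (1 : ℂ) * (Real.pi : ℂ) + (c : ℂ) ∈ Lr := by
      push_cast at h
      rwa [one_mul]
    exact one_ne_zero (Lr_pi (toC hc) isAlgebraic_one h1).1
  · intro h
    have h1 := h.sub hc
    rw [add_sub_cancel_right] at h1
    exact Pool.Agent.H340R2.LW.transcendental_pi h1

theorem alg_proper {s : ℝ} (hs : IsAlgebraic ℚ s) (hs0 : s ≠ 0) :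
    (s : ℂ) ∈ Lt ∧ (s : ℂ) ∉ Lr := by
  refine ⟨Lt_alg (toC hs), fun h => ?_⟩
  have h2 := LB_alg (Lr_le_LB h) (toC hs)
  exact hs0 (by exact_mod_cast h2)

end Pool.Agent.Zk26
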