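import Pool.Agent.Zk26.UnitPos
import Pool.Agent.Zk26.Sets

set_option autoImplicit false

/-!
Positive solutions of an equation with positive coefficients whose powers lie in a real field lie
in this field; finiteness of the solutions in groups of finite rank.
-/

namespace Pool.Agent.Zk26

open Polynomial NumberField
open Pool.Agent.K1H83.VN (IsSU)
open Pool.Agent.W180.OP (Pl)

/-- radicals of positive numbers with a positive linear relation -/
theorem mem_field_of_pos (K : IntermediateField ℚ ℝ) {ι : Type} [Fintype ι] (a x : ι → ℝ)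
    (ha : ∀ i, a i ∈ K) (ha0 : ∀ i, 0 < a i) (hx0 : ∀ i, 0 < x i) (N : ι → ℕ)
    (hN : ∀ i, N i ≠ 0) (hxN : ∀ i, x i ^ N i ∈ K) (hsum : ∑ i, a i * x i ∈ K) (i₀ : ι) :
    x i₀ ∈ K := by
  classical
  have hint : ∀ i, IsIntegral K (x i) := fun i =>
    IsIntegral.of_pow (Nat.pos_of_ne_zero (hN i))
      (isIntegral_algebraMap (R := K) (A := ℝ) (x := ⟨_, hxN i⟩))
  have hS : ∀ s ∈ Set.range x, IsIntegral K s ∧
      ((minpoly K s).map (algebraMap K ℂ)).Splits := by
    rintro s ⟨i, rfl⟩
    exact ⟨hint i, IsAlgClosed.splits _⟩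
  have hmem : ∀ i, x i ∈ IntermediateField.adjoin K (Set.range x) := fun i =>
    IntermediateField.subset_adjoin K _ ⟨i, rfl⟩
  -- all conjugates of `x i₀` are equal to `x i₀`
  have hroot : ∀ w : ℂ, aeval w (minpoly K (x i₀)) = 0 → w = (x i₀ : ℂ) := by
    intro w hw
    obtain ⟨φ, hφ⟩ := IntermediateField.exists_algHom_adjoin_of_splits_of_aeval hS (hmem i₀) hw
    have hpow : ∀ i, (φ ⟨x i, hmem i⟩) ^ N i = ((x i : ℝ) : ℂ) ^ N i := by
      intro i
      rw [← map_pow]
      have h1 : (⟨x i, hmem i⟩ : IntermediateField.adjoin K (Set.range x)) ^ N i =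
          algebraMap K _ ⟨_, hxN i⟩ := by
        apply Subtype.ext
        rfl
      rw [h1, φ.commutes]
      change (((⟨_, hxN i⟩ : K) : ℝ) : ℂ) = _
      push_cast
      rfl
    have hnorm : ∀ i, ‖φ ⟨x i, hmem i⟩‖ = x i := by
      intro i
      have h1 := congrArg (fun z : ℂ => ‖z‖) (hpow i)
      simp only [norm_pow, Complex.norm_real, Real.norm_eq_abs, abs_of_pos (hx0 i)] at h1
      exact (pow_left_inj₀ (norm_nonneg _) (hx0 i).le (hN i)).mp h1
    have hsum' : ∑ i, (a i : ℂ) * φ ⟨x i, hmem i⟩ = ((∑ i, a i * x i : ℝ) : ℂ) := by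
      have h1 : ∀ i, (a i : ℂ) * φ ⟨x i, hmem i⟩ =
          φ (algebraMap K _ ⟨a i, ha i⟩ * ⟨x i, hmem i⟩) := by
        intro i
        rw [map_mul, φ.commutes]
        rfl
      rw [Finset.sum_congr rfl (fun i _ => h1 i), ← map_sum]
      have h2 : ∑ i, (algebraMap K (IntermediateField.adjoin K (Set.range x)) ⟨a i, ha i⟩ *
          ⟨x i, hmem i⟩) = algebraMap K _ ⟨_, hsum⟩ := by
        apply Subtype.ext
        rw [AddSubmonoidClass.coe_finsetSum]
        rfl
      rw [h2, φ.commutes]
      rfl
    have hre : ∑ i, a i * (x i - (φ ⟨x i, hmem i⟩).re) = 0 := by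
      have h1 := congrArg Complex.re hsum'
      rw [Complex.re_sum, Complex.ofReal_re] at h1
      simp only [Complex.re_ofReal_mul] at h1
      simp only [mul_sub, Finset.sum_sub_distrib]
      rw [h1, sub_self]
    have hle : ∀ i, (φ ⟨x i, hmem i⟩).re ≤ x i := fun i =>
      (Complex.re_le_norm _).trans (hnorm i).le
    have hz := (Finset.sum_eq_zero_iff_of_nonneg (fun i _ =>
      mul_nonneg (ha0 i).le (sub_nonneg.mpr (hle i)))).mp hre i₀ (Finset.mem_univ _)
    have hz2 : (φ ⟨x i₀, hmem i₀⟩).re = x i₀ := by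
      have := (mul_eq_zero.mp hz).resolve_left (ha0 i₀).ne'
      linarith
    have hz3 : (φ ⟨x i₀, hmem i₀⟩).im = 0 := by
      have h1 := Complex.sq_norm (φ ⟨x i₀, hmem i₀⟩)
      rw [hnorm, Complex.normSq_apply, hz2] at h1
      have h2 : (φ ⟨x i₀, hmem i₀⟩).im * (φ ⟨x i₀, hmem i₀⟩).im = 0 := by nlinarith
      exact mul_self_eq_zero.mp h2
    rw [← hφ]
    apply Complex.ext
    · rw [hz2, Complex.ofReal_re]
    · rw [hz3, Complex.ofReal_im]
  -- the degree is one
  have hsep : ((minpoly K (x i₀)).map (algebraMap K ℂ)).Separable :=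
    ((minpoly.irreducible (hint i₀)).separable).map
  have hspl : ((minpoly K (x i₀)).map (algebraMap K ℂ)).Splits := IsAlgClosed.splits _
  have hne : (minpoly K (x i₀)).map (algebraMap K ℂ) ≠ 0 :=
    (Polynomial.map_ne_zero_iff (algebraMap K ℂ).injective).mpr (minpoly.ne_zero (hint i₀))
  have hcard : Multiset.card ((minpoly K (x i₀)).map (algebraMap K ℂ)).roots ≤ 1 := by
    rw [← Multiset.toFinset_card_of_nodup (nodup_roots hsep)]
    apply Finset.card_le_one.mpr
    intro u hu v hv
    rw [Multiset.mem_toFinset, mem_roots hne, IsRoot.def, eval_map_algebraMap] at hu hv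
    rw [hroot u hu, hroot v hv]
  rw [← hspl.natDegree_eq_card_roots, natDegree_map] at hcard
  have hdeg : (minpoly K (x i₀)).natDegree = 1 :=
    le_antisymm hcard (minpoly.natDegree_pos (hint i₀))
  obtain ⟨y, hy⟩ := minpoly.natDegree_eq_one_iff.mp hdeg
  rw [← hy]
  exact y.2

/-- the rational space generated by the logarithms of the elements of `F` -/
noncomputable def LS (F : Finset ℝ) : Submodule ℚ ℝ := Submodule.span ℚ (Real.log '' (F : Set ℝ))

theorem LS_mono {F F' : Finset ℝ} (h : F ⊆ F') : LS F ≤ LS F' :=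
  Submodule.span_mono (Set.image_mono h)

theorem LS_mem {F : Finset ℝ} {g : ℝ} (hg : g ∈ F) : Real.log g ∈ LS F :=
  Submodule.subset_span ⟨g, hg, rfl⟩

/-- a set of finite rank is contained in the divisible group generated by finitely many of its
elements -/
theorem gens_of_rank (k : ℕ) (R : Set ℝ) (hpos : ∀ r ∈ R, 0 < r) (h : Rk k R) :
    ∃ F : Finset ℝ, (∀ g ∈ F, g ∈ R) ∧ ∀ r ∈ R, Real.log r ∈ LS F := by
  classical
  induction k with
  | zero =>
    by_cases hM : ∃ a, a ∈ R
    · obtain ⟨a, ha⟩ := hM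
      refine ⟨{a}, fun g hg => by rw [Finset.mem_singleton.mp hg]; exact ha, fun r hr => ?_⟩
      obtain ⟨m, hm, hmx⟩ := h a ha (fun _ => r) (fun _ => hr)
      rw [Fin.prod_univ_one] at hmx
      have hm0 : m 0 ≠ 0 := by
        intro h1
        apply hm
        funext i
        fin_cases i
        exact h1
      have h1 : r / a = 1 := by
        by_contra h2
        exact hm0 ((zpow_eq_one_iff_right₀ (div_pos (hpos r hr) (hpos a ha)).le h2).mp hmx)
      have h2 : r = a := eq_of_div_eq_one h1
      rw [h2]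
      exact LS_mem (Finset.mem_singleton_self a)
    · exact ⟨∅, fun g hg => absurd hg (Finset.notMem_empty g), fun r hr => (hM ⟨r, hr⟩).elim⟩
  | succ k ih =>
    by_cases hk : Rk k R
    · exact ih hk
    · unfold Rk at hk
      push Not at hk
      obtain ⟨a, ha, f, hf, hind⟩ := hk
      refine ⟨insert a (Finset.univ.image f), ?_, fun r hr => ?_⟩
      · intro g hg
        rcases Finset.mem_insert.mp hg with h1 | h1
        · rw [h1]; exact ha
        · obtain ⟨i, -, h2⟩ := Finset.mem_image.mp h1
          rw [← h2]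
          exact hf i
      · have hFa : Real.log a ∈ LS (insert a (Finset.univ.image f)) :=
          LS_mem (Finset.mem_insert_self _ _)
        have hFf : ∀ i, Real.log (f i) ∈ LS (insert a (Finset.univ.image f)) := fun i =>
          LS_mem (Finset.mem_insert_of_mem (Finset.mem_image_of_mem f (Finset.mem_univ i)))
        obtain ⟨m, hm, hmx⟩ := h a ha (Fin.cons r f) (by
          intro i
          refine Fin.cases ?_ (fun i => ?_) i
          · exact hr
          · exact hf i)
        rw [Fin.prod_univ_succ] at hmx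
        simp only [Fin.cons_zero, Fin.cons_succ] at hmx
        have hm0 : m 0 ≠ 0 := by
          intro h1
          rw [h1, zpow_zero, one_mul] at hmx
          refine hind (fun i => m i.succ) ?_ hmx
          intro h2
          apply hm
          funext i
          refine Fin.cases ?_ (fun i => ?_) i
          · exact h1
          · exact congrFun h2 i
        have ha0 := hpos a ha
        have hr0 := hpos r hr
        have hlog : (m 0 : ℝ) * (Real.log r - Real.log a) +
            ∑ i : Fin (k + 1), (m i.succ : ℝ) * (Real.log (f i) - Real.log a) = 0 := by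
          have h1 := congrArg Real.log hmx
          rw [Real.log_mul (zpow_pos (div_pos hr0 ha0) _).ne'
            (Finset.prod_pos (fun i _ => zpow_pos (div_pos (hpos _ (hf i)) ha0) _)).ne',
            Real.log_prod (fun i _ => (zpow_pos (div_pos (hpos _ (hf i)) ha0) _).ne'),
            Real.log_zpow, Real.log_div hr0.ne' ha0.ne', Real.log_one] at h1
          rw [← h1]
          congr 1
          refine Finset.sum_congr rfl fun i _ => ?_
          rw [Real.log_zpow, Real.log_div (hpos _ (hf i)).ne' ha0.ne']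
        have h3 : Real.log r = Real.log a - ((m 0 : ℚ)⁻¹) •
            ∑ i : Fin (k + 1), (m i.succ : ℚ) • (Real.log (f i) - Real.log a) := by
          have hm0' : (m 0 : ℝ) ≠ 0 := by exact_mod_cast hm0
          have h4 : ∀ (q : ℚ) (y : ℝ), q • y = (q : ℝ) * y := fun q y => Rat.smul_def q y
          rw [h4]
          simp only [h4]
          push_cast
          field_simp
          linear_combination hlog
        rw [h3]
        refine Submodule.sub_mem _ hFa (Submodule.smul_mem _ _ (Submodule.sum_mem _ fun i _ =>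
          Submodule.smul_mem _ _ (Submodule.sub_mem _ (hFf i) hFa)))

/-- some power of an element of the divisible group is a product of powers of the generators -/
theorem pow_of_LS {F : Finset ℝ} (hF : ∀ g ∈ F, 0 < g) {x : ℝ} (hx : 0 < x)
    (h : Real.log x ∈ LS F) : ∃ N : ℕ, N ≠ 0 ∧ ∃ m : F → ℤ, x ^ N = ∏ g : F, (g : ℝ) ^ m g := by
  classical
  unfold LS at h
  rw [Submodule.mem_span_image_finset_iff_exists_fun] at h
  obtain ⟨c, hc⟩ := h
  let N : ℕ := ∏ g : F, (c g).den
  have hN : N ≠ 0 := Finset.prod_ne_zero_iff.mpr fun g _ => (c g).den_ne_zero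
  have hdvd : ∀ g : F, ∃ z : ℤ, (N : ℚ) * c g = z := by
    intro g
    obtain ⟨d, hd⟩ : (c g).den ∣ N := Finset.dvd_prod_of_mem _ (Finset.mem_univ g)
    refine ⟨d * (c g).num, ?_⟩
    rw [hd]
    push_cast
    have := Rat.mul_den_eq_num (c g)
    linear_combination (d : ℚ) * this
  choose m hm using hdvd
  refine ⟨N, hN, m, ?_⟩
  have hF' : ∀ g : F, (0 : ℝ) < g := fun g => hF g g.2
  have hprod : 0 < ∏ g : F, (g : ℝ) ^ m g :=
    Finset.prod_pos fun g _ => zpow_pos (hF' g) _
  apply Real.log_injOn_pos (Set.mem_Ioi.mpr (pow_pos hx N)) (Set.mem_Ioi.mpr hprod)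
  rw [Real.log_pow, Real.log_prod (fun g _ => (zpow_pos (hF' g) _).ne'), ← hc, Finset.mul_sum]
  refine Finset.sum_congr rfl fun g _ => ?_
  rw [Real.log_zpow, Rat.smul_def, ← mul_assoc]
  congr 1
  have := hm g
  exact_mod_cast this

/-- **Finiteness** of the positive solutions of a positive linear equation in the divisible group
generated by finitely many positive algebraic numbers. -/
theorem pos_finite {ι : Type} [Fintype ι] (F : Finset ℝ) (hF : ∀ g ∈ F, 0 < g)
    (hFa : ∀ g ∈ F, IsAlgebraic ℚ g) (a : ι → ℝ) (ha : ∀ i, 0 < a i)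
    (haa : ∀ i, IsAlgebraic ℚ (a i)) :
    {y : ι → ℝ | (∀ i, 0 < y i ∧ Real.log (y i) ∈ LS F) ∧ ∑ i, a i * y i = 1}.Finite := by
  classical
  let T : Finset ℝ := F ∪ Finset.univ.image a
  let K : IntermediateField ℚ ℝ := IntermediateField.adjoin ℚ (T : Set ℝ)
  haveI : FiniteDimensional ℚ K := by
    apply IntermediateField.finiteDimensional_adjoin
    intro x hx
    rcases Finset.mem_union.mp hx with h | h
    · exact (hFa x h).isIntegral
    · obtain ⟨i, -, rfl⟩ := Finset.mem_image.mp h
      exact (haa i).isIntegral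
  haveI : NumberField K := ⟨⟩
  have hFK : ∀ g ∈ F, g ∈ K := fun g hg =>
    IntermediateField.subset_adjoin ℚ (T : Set ℝ) (Finset.mem_union_left _ hg)
  have haK : ∀ i, a i ∈ K := fun i =>
    IntermediateField.subset_adjoin ℚ (T : Set ℝ) (Finset.mem_union_right _
      (Finset.mem_image_of_mem a (Finset.mem_univ i)))
  -- a finite set of places
  have hFK' : ∀ g : F, (g : ℝ) ∈ K := fun g => hFK g g.2
  obtain ⟨S, hS, hSU⟩ := exists_su_all (K := K)
    (Finset.univ.image (fun g : F => (⟨(g : ℝ), hFK' g⟩ : K))) (by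
    intro x hx
    obtain ⟨g, -, rfl⟩ := Finset.mem_image.mp hx
    intro h0
    exact (hF g g.2).ne' (congrArg Subtype.val h0))
  let e := Fintype.equivFin ι
  have hfin := unit_pos (K := K) (algebraMap K ℝ) S hS (fun j => ⟨a (e.symm j), haK _⟩)
    (fun j => ha _)
  refine (hfin.image (fun x : Fin (Fintype.card ι) → K => fun i => ((x (e i) : K) : ℝ))).subset ?_
  rintro y ⟨hy, hsum⟩
  have hpow := fun i => pow_of_LS hF (hy i).1 (hy i).2
  choose N hN m hm using hpow
  have hyK : ∀ i, y i ∈ K := by
    refine mem_field_of_pos K a y haK ha (fun i => (hy i).1) N hN (fun i => ?_) ?_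
    · rw [hm i]
      exact prod_mem fun g _ => zpow_mem (hFK' g) _
    · rw [hsum]
      exact K.one_mem
  refine ⟨fun j => ⟨y (e.symm j), hyK _⟩, ⟨fun j => ⟨?_, (hy _).1⟩, ?_⟩, ?_⟩
  · -- a unit
    have h1 : IsSU S ((⟨y (e.symm j), hyK _⟩ : K) ^ ((N (e.symm j) : ℕ) : ℤ)) := by
      have h2 : (⟨y (e.symm j), hyK _⟩ : K) ^ ((N (e.symm j) : ℕ) : ℤ) =
          ∏ g : F, (⟨(g : ℝ), hFK' g⟩ : K) ^ m (e.symm j) g := by
        apply Subtype.ext
        rw [zpow_natCast]
        have h3 := hm (e.symm j)
        rw [SubmonoidClass.coe_pow, SubmonoidClass.coe_finsetProd]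
        exact h3
      rw [h2]
      refine isSU_prod _ _ fun g _ => isSU_zpow (hSU _ ?_) _
      exact Finset.mem_image.mpr ⟨g, Finset.mem_univ _, rfl⟩
    exact isSU_of_zpow (Nat.cast_ne_zero.mpr (hN _)) h1
  · apply Subtype.ext
    rw [AddSubmonoidClass.coe_finsetSum]
    have h1 : ∑ j, a (e.symm j) * y (e.symm j) = ∑ i, a i * y i :=
      Equiv.sum_comp e.symm (fun i => a i * y i)
    change ∑ j, a (e.symm j) * y (e.symm j) = 1
    rw [h1, hsum]
  · funext i
    simp

end Pool.Agent.Zk26
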