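import Pool.Agent.K1H83.TW.UnitTwo

set_option autoImplicit false

/-!
Sets of finite rank in a number field consist of `S`-units; the values of a rational function with
at least three zeros and poles are rarely `S`-units.
-/

namespace Pool.Agent.Zk26

open NumberField IsDedekindDomain Polynomial
open Pool.Agent.W180.OP (Pl fv fv_support_finite)
open Pool.Agent.K1H83.VN

variable {K : Type} [Field K] [NumberField K]

theorem isSU_mono {S T : Finset (Pl K)} (h : S ⊆ T) {x : K} (hx : IsSU S x) : IsSU T x :=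
  ⟨hx.1, fun v hv => hx.2 v (fun h1 => hv (h h1))⟩

/-- the infinite places -/
noncomputable def infS (K : Type) [Field K] [NumberField K] : Finset (Pl K) :=
  (Finset.univ : Finset (InfinitePlace K)).map ⟨Sum.inl, Sum.inl_injective⟩

theorem mem_infS (w : InfinitePlace K) : (Sum.inl w : Pl K) ∈ infS K := by
  simp [infS]

theorem exists_su (x : K) (hx : x ≠ 0) : ∃ S : Finset (Pl K), IsSU S x := by
  refine ⟨(fv_support_finite hx).toFinset.map ⟨Sum.inr, Sum.inr_injective⟩, hx, fun v hv => ?_⟩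
  by_contra h
  apply hv
  simp [h]

theorem exists_su_all (F : Finset K) (hF : ∀ x ∈ F, x ≠ 0) :
    ∃ S : Finset (Pl K), infS K ⊆ S ∧ ∀ x ∈ F, IsSU S x := by
  classical
  induction F using Finset.induction_on with
  | empty => exact ⟨infS K, subset_rfl, fun x hx => absurd hx (Finset.notMem_empty x)⟩
  | insert a F ha ih =>
    obtain ⟨S, h1, h2⟩ := ih (fun x hx => hF x (Finset.mem_insert_of_mem hx))
    obtain ⟨T, hT⟩ := exists_su a (hF a (Finset.mem_insert_self a F))
    refine ⟨S ∪ T, h1.trans Finset.subset_union_left, fun x hx => ?_⟩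
    rcases Finset.mem_insert.mp hx with h | h
    · rw [h]
      exact isSU_mono Finset.subset_union_right hT
    · exact isSU_mono Finset.subset_union_left (h2 x h)

theorem isSU_zpow {S : Finset (Pl K)} {x : K} (hx : IsSU S x) (m : ℤ) : IsSU S (x ^ m) :=
  ⟨zpow_ne_zero _ hx.1, fun v hv => by rw [map_zpow₀, hx.2 v hv, one_zpow]⟩

theorem isSU_prod {S : Finset (Pl K)} {ι : Type} (s : Finset ι) (f : ι → K)
    (h : ∀ i ∈ s, IsSU S (f i)) : IsSU S (∏ i ∈ s, f i) :=
  Finset.prod_induction f (IsSU S) (fun _ _ => IsSU.mul) (IsSU.one S) h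

theorem isSU_of_zpow {S : Finset (Pl K)} {x : K} {m : ℤ} (hm : m ≠ 0) (hx : IsSU S (x ^ m)) :
    IsSU S x := by
  refine ⟨fun h => hx.1 (by rw [h, zero_zpow m hm]), fun v hv => ?_⟩
  have h1 := hx.2 v hv
  rw [map_zpow₀] at h1
  by_contra h2
  exact hm ((zpow_eq_one_iff_right₀ ((fv v).nonneg x) h2).mp h1)

/-- a set of finite rank consists of `S`-units for some finite set `S` of places -/
theorem su_of_rank (k : ℕ) (M : Set K) (h0 : ∀ x ∈ M, x ≠ 0)
    (h : ∀ a ∈ M, ∀ f : Fin (k + 1) → K, (∀ i, f i ∈ M) →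
      ∃ m : Fin (k + 1) → ℤ, m ≠ 0 ∧ ∏ i, (f i / a) ^ m i = 1) :
    ∃ S : Finset (Pl K), infS K ⊆ S ∧ ∀ x ∈ M, IsSU S x := by
  classical
  induction k with
  | zero =>
    by_cases hM : ∃ a, a ∈ M
    · obtain ⟨a, ha⟩ := hM
      obtain ⟨S, hS, hS'⟩ := exists_su_all {a} (by
        intro x hx
        rw [Finset.mem_singleton] at hx
        rw [hx]
        exact h0 a ha)
      refine ⟨S, hS, fun x hx => ?_⟩
      obtain ⟨m, hm, hmx⟩ := h a ha (fun _ => x) (fun _ => hx)
      rw [Fin.prod_univ_one] at hmx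
      have hm0 : m 0 ≠ 0 := by
        intro h1
        apply hm
        funext i
        fin_cases i
        exact h1
      have h1 : IsSU S (x / a) := isSU_of_zpow hm0 (by rw [hmx]; exact IsSU.one S)
      have h2 := h1.mul (hS' a (Finset.mem_singleton_self a))
      rwa [div_mul_cancel₀ x (h0 a ha)] at h2
    · exact ⟨infS K, subset_rfl, fun x hx => (hM ⟨x, hx⟩).elim⟩
  | succ k ih =>
    by_cases hk : ∀ a ∈ M, ∀ f : Fin (k + 1) → K, (∀ i, f i ∈ M) →
      ∃ m : Fin (k + 1) → ℤ, m ≠ 0 ∧ ∏ i, (f i / a) ^ m i = 1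
    · exact ih hk
    · push Not at hk
      obtain ⟨a, ha, f, hf, hind⟩ := hk
      obtain ⟨S, hS, hS'⟩ := exists_su_all (insert a (Finset.univ.image f)) (by
        intro x hx
        rcases Finset.mem_insert.mp hx with h1 | h1
        · rw [h1]; exact h0 a ha
        · obtain ⟨i, -, h2⟩ := Finset.mem_image.mp h1
          rw [← h2]
          exact h0 _ (hf i))
      have hSa : IsSU S a := hS' a (Finset.mem_insert_self _ _)
      have hSf : ∀ i, IsSU S (f i) := fun i => hS' _ (Finset.mem_insert_of_mem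
        (Finset.mem_image_of_mem f (Finset.mem_univ i)))
      refine ⟨S, hS, fun x hx => ?_⟩
      obtain ⟨m, hm, hmx⟩ := h a ha (Fin.cons x f) (by
        intro i
        refine Fin.cases ?_ (fun i => ?_) i
        · exact hx
        · exact hf i)
      rw [Fin.prod_univ_succ] at hmx
      simp only [Fin.cons_zero, Fin.cons_succ] at hmx
      have hm0 : m 0 ≠ 0 := by
        intro h1
        rw [h1, zpow_zero, one_mul] at hmx
        refine hind (fun i => m i.succ) ?_ hmx
        intro h2
        apply hm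
        funext i
        refine Fin.cases ?_ (fun i => ?_) i
        · exact h1
        · exact congrFun h2 i
      have h1 : IsSU S ((x / a) ^ m 0) := by
        have h3 : IsSU S (∏ i : Fin (k + 1), (f i / a) ^ m i.succ) :=
          isSU_prod _ _ (fun i _ => isSU_zpow ((hSf i).div hSa) _)
        have h4 := eq_inv_of_mul_eq_one_left hmx
        rw [h4]
        exact h3.inv
      have h2 := (isSU_of_zpow hm0 h1).mul hSa
      rwa [div_mul_cancel₀ x (h0 a ha)] at h2

/-- products of numbers of `[0, 1]` -/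
theorem prod_le_one' (s : Multiset ℝ) (h : ∀ x ∈ s, 0 ≤ x ∧ x ≤ 1) :
    0 ≤ s.prod ∧ s.prod ≤ 1 ∧ ((∃ x ∈ s, x < 1) → s.prod < 1) := by
  induction s using Multiset.induction_on with
  | empty => simp
  | cons a s ih =>
    obtain ⟨h1, h2, h3⟩ := ih (fun x hx => h x (Multiset.mem_cons_of_mem hx))
    obtain ⟨ha0, ha1⟩ := h a (Multiset.mem_cons_self a s)
    rw [Multiset.prod_cons]
    refine ⟨mul_nonneg ha0 h1, mul_le_one₀ ha1 h1 h2, ?_⟩
    rintro ⟨x, hx, hx1⟩
    rcases Multiset.mem_cons.mp hx with h4 | h4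
    · rw [h4] at hx1
      exact lt_of_le_of_lt (mul_le_of_le_one_right ha0 h2) hx1
    · exact lt_of_le_of_lt (mul_le_of_le_one_left h1 ha1) (h3 ⟨x, h4, hx1⟩)

end Pool.Agent.Zk26
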