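import Pool.Agent.Zk26.SU

set_option autoImplicit false

/-!
The unit equation in any number of variables over a real number field, for positive solutions.
-/

namespace Pool.Agent.Zk26

open NumberField IsDedekindDomain Height Filter Topology
open Pool.Agent.W180.OP (Pl av wt fv)
open Pool.Agent.K1H83.VN

variable {K : Type} [Field K] [NumberField K]

theorem height_finite {n : ℕ} (B : ℝ) :
    {x : Fin n → K | ∑ i, logHeight₁ (x i) ≤ B}.Finite := by
  have h1 : {x : K | logHeight₁ x ≤ B}.Finite := by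
    refine (NumberField.finite_setOfPred_mulHeight₁_le K (Real.exp B)).subset fun x hx => ?_
    show mulHeight₁ x ≤ Real.exp B
    have h2 : Real.log (mulHeight₁ x) ≤ B := hx
    exact (Real.log_le_iff_le_exp (mulHeight₁_pos x)).1 h2
  have h2 : (Set.univ.pi (fun _ : Fin n => {x : K | logHeight₁ x ≤ B})).Finite :=
    Set.Finite.pi' (fun _ => h1) |>.subset (by
      intro x hx i
      exact hx i (Set.mem_univ i))
  refine h2.subset fun x hx i _ => ?_
  have hx' : ∑ i, logHeight₁ (x i) ≤ B := hx
  exact (Finset.single_le_sum (f := fun i => logHeight₁ (x i))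
    (fun j _ => zero_le_logHeight₁ _) (Finset.mem_univ i)).trans hx'

/-- the unit equation with positive terms -/
theorem unit_pos (τ : K →+* ℝ) (S : Finset (Pl K)) (hS : infS K ⊆ S) {n : ℕ} (a : Fin n → K)
    (ha : ∀ i, 0 < τ (a i)) :
    {x : Fin n → K | (∀ i, IsSU S (x i) ∧ 0 < τ (x i)) ∧ ∑ i, a i * x i = 1}.Finite := by
  classical
  by_contra hinf
  have hinf : {x : Fin n → K | (∀ i, IsSU S (x i) ∧ 0 < τ (x i)) ∧
    ∑ i, a i * x i = 1}.Infinite := hinf
  have hS' : ∀ w : InfinitePlace K, (Sum.inl w : Pl K) ∈ S := fun w => hS (mem_infS w)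
  obtain ⟨x, hinj, hx⟩ : ∃ x : ℕ → (Fin n → K), Function.Injective x ∧
      ∀ t, (∀ i, IsSU S (x t i) ∧ 0 < τ (x t i)) ∧ ∑ i, a i * x t i = 1 :=
    ⟨fun t => (hinf.natEmbedding _ t : Fin n → K), fun s t h => (hinf.natEmbedding _).injective
      (Subtype.ext h), fun t => (hinf.natEmbedding _ t).2⟩
  have hlim : Tendsto (fun t => ∑ i, logHeight₁ (x t i)) atTop atTop := by
    rw [← Nat.cofinite_eq_atTop]
    have h1 : Tendsto (fun y : Fin n → K => ∑ i, logHeight₁ (y i)) cofinite atTop := by
      rw [← northcott_iff_tendsto]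
      exact ⟨fun B => height_finite B⟩
    exact h1.comp hinj.tendsto_cofinite
  let σ : Sc := ⟨hyperfilter ℕ, _, hlim.mono_left Nat.hyperfilter_le_atTop⟩
  have hσL : ∀ t, σ.L t = ∑ i, logHeight₁ (x t i) := fun t => rfl
  let U : Option (Fin n) → G K σ := fun o => o.elim 1 (fun i => gm σ (fun t => x t i))
  let c : Option (Fin n) → G K σ := fun o => o.elim (-1) (fun i => algebraMap K (G K σ) (a i))
  have hUrep : ∀ i, ∀ᶠ t in (σ.𝒰 : Filter ℕ), rep (U (some i)) t = x t i := fun i => rep_gm _
  have hUS : ∀ o, SU S (U o) := by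
    intro o
    cases o with
    | none => exact SU.one
    | some i =>
      filter_upwards [hUrep i] with t ht
      rw [ht]
      exact ((hx t).1 i).1
  have hUB : ∀ o, U o ∈ BB K σ := by
    intro o
    cases o with
    | none => exact (BB K σ).one_mem
    | some i =>
      rw [mem_BB]
      refine ⟨1, ?_⟩
      filter_upwards [hUrep i] with t ht
      rw [ht, hσL, one_mul]
      exact Finset.single_le_sum (f := fun i => logHeight₁ (x t i))
        (fun j _ => zero_le_logHeight₁ _) (Finset.mem_univ i)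
  have hU0 : ∀ o, U o ≠ 0 := fun o => (hUS o).ne_zero
  have hcF : ∀ o, c o ∈ FF K σ := by
    intro o
    cases o with
    | none => exact (FF K σ).neg_mem (FF K σ).one_mem
    | some i => exact alg_mem (a i)
  have hrel : ∑ o, c o * U o = 0 := by
    rw [Fintype.sum_option]
    show (-1 : G K σ) * 1 + ∑ i, algebraMap K (G K σ) (a i) * gm σ (fun t => x t i) = 0
    have h1 : ∑ i, algebraMap K (G K σ) (a i) * gm σ (fun t => x t i) = 1 := by
      have h2 : ∀ i, algebraMap K (G K σ) (a i) * gm σ (fun t => x t i) =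
          gm σ ((fun _ => a i) * (fun t => x t i)) := by
        intro i
        rw [alg_eq, ← map_mul]
      rw [Finset.sum_congr rfl (fun i _ => h2 i), ← map_sum]
      have h3 : ∑ i, ((fun _ => a i) * (fun t => x t i) : ℕ → K) = 1 := by
        funext t
        rw [Finset.sum_apply]
        exact (hx t).2
      rw [h3, map_one]
    rw [h1]; ring
  -- the classes
  let s : Setoid (Option (Fin n)) :=
    { r := fun o o' => U o / U o' ∈ FF K σ
      iseqv := by
        refine ⟨fun o => ?_, fun {o o'} h => ?_, fun {o o' o''} h h' => ?_⟩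
        · rw [div_self (hU0 o)]; exact (FF K σ).one_mem
        · have := (FF K σ).inv_mem h
          rwa [inv_div] at this
        · have := (FF K σ).mul_mem h h'
          rwa [div_mul_div_cancel₀ (hU0 o')] at this }
  have hsrel : ∀ o o', s.r o o' ↔ U o / U o' ∈ FF K σ := fun o o' => Iff.rfl
  let C : Quotient s → G K σ := fun q =>
    ∑ o ∈ Finset.univ.filter (fun o => (⟦o⟧ : Quotient s) = q), c o * (U o / U q.out)
  have hout : ∀ o : Option (Fin n), U o / U ((⟦o⟧ : Quotient s).out) ∈ FF K σ := by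
    intro o
    have h1 : s.r ((⟦o⟧ : Quotient s).out) o := Quotient.mk_out o
    exact s.symm h1
  have hCF : ∀ q, C q ∈ FF K σ := by
    intro q
    refine (FF K σ).sum_mem fun o ho => ?_
    rw [Finset.mem_filter] at ho
    rw [← ho.2]
    exact (FF K σ).mul_mem (hcF o) (hout o)
  have hCsum : ∑ q, C q * U q.out = 0 := by
    rw [← hrel, ← Finset.sum_fiberwise Finset.univ (fun o => (⟦o⟧ : Quotient s))
      (fun o => c o * U o)]
    refine Finset.sum_congr rfl fun q _ => ?_
    show (∑ o ∈ Finset.univ.filter (fun o => (⟦o⟧ : Quotient s) = q), c o * (U o / U q.out)) *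
      U q.out = _
    rw [Finset.sum_mul]
    refine Finset.sum_congr rfl fun o _ => ?_
    have := hU0 q.out
    field_simp
  have hC0 := sui hS' (fun q : Quotient s => U q.out) (fun q => hUS _) (fun q => hUB _) (by
    intro q q' hqq h
    apply hqq
    have h1 : s.r q.out q'.out := h
    have h2 := Quotient.sound h1
    rwa [Quotient.out_eq, Quotient.out_eq] at h2) C hCF hCsum
  -- all classes are equal
  have hall : ∀ i, U (some i) ∈ FF K σ := by
    intro i
    by_contra hi
    have hq := hC0 ⟦some i⟧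
    have hnone : ¬ ((⟦none⟧ : Quotient s) = ⟦some i⟧) := by
      intro h
      have h1 : U none / U (some i) ∈ FF K σ := Quotient.exact h
      have h2 : U none = 1 := rfl
      rw [h2, one_div] at h1
      have h3 := (FF K σ).inv_mem h1
      rw [inv_inv] at h3
      exact hi h3
    have h1 : ∑ o ∈ Finset.univ.filter (fun o => (⟦o⟧ : Quotient s) = ⟦some i⟧), c o * U o = 0 := by
      have h2 : (∑ o ∈ Finset.univ.filter (fun o => (⟦o⟧ : Quotient s) = ⟦some i⟧),
          c o * (U o / U ((⟦some i⟧ : Quotient s).out))) * U ((⟦some i⟧ : Quotient s).out) = 0 := by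
        have h3 : (∑ o ∈ Finset.univ.filter (fun o => (⟦o⟧ : Quotient s) = ⟦some i⟧),
          c o * (U o / U ((⟦some i⟧ : Quotient s).out))) = 0 := hq
        rw [h3, zero_mul]
      rw [Finset.sum_mul] at h2
      rw [← h2]
      refine Finset.sum_congr rfl fun o _ => ?_
      have := hU0 ((⟦some i⟧ : Quotient s).out)
      field_simp
    let J : Finset (Fin n) := Finset.univ.filter (fun j => (⟦some j⟧ : Quotient s) = ⟦some i⟧)
    have h2 : ∑ j ∈ J, algebraMap K (G K σ) (a j) * gm σ (fun t => x t j) = 0 := by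
      have e := h1
      rw [Finset.sum_filter, Fintype.sum_option, if_neg hnone, zero_add] at e
      rw [Finset.sum_filter]
      exact e
    have h3 : gm σ (fun t => ∑ j ∈ J, a j * x t j) = 0 := by
      rw [← h2]
      have h4 : ∀ j, algebraMap K (G K σ) (a j) * gm σ (fun t => x t j) =
          gm σ ((fun _ => a j) * (fun t => x t j)) := by
        intro j
        rw [alg_eq, ← map_mul]
      rw [Finset.sum_congr rfl (fun j _ => h4 j), ← map_sum]
      congr 1
      funext t
      rw [Finset.sum_apply]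
      rfl
    have h5 : gm σ (fun t => ∑ j ∈ J, a j * x t j) = gm σ (fun _ => 0) := by
      rw [h3]
      exact (map_zero (gm σ)).symm
    rw [gm_eq] at h5
    obtain ⟨t, ht⟩ := h5.exists
    have h6 : 0 < ∑ j ∈ J, τ (a j) * τ (x t j) := by
      refine Finset.sum_pos (fun j _ => mul_pos (ha j) ((hx t).1 j).2) ⟨i, ?_⟩
      rw [Finset.mem_filter]
      exact ⟨Finset.mem_univ _, rfl⟩
    have h7 := congrArg τ ht
    rw [map_sum, map_zero] at h7
    simp only [map_mul] at h7
    rw [h7] at h6
    exact lt_irrefl _ h6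
  -- contradiction with the heights
  have h1 : ∀ i, ∀ᶠ t in (σ.𝒰 : Filter ℕ),
      logHeight₁ (rep (U (some i)) t) ≤ 1 / (2 * (n + 1)) * σ.L t := fun i =>
    (mem_FF _).1 (hall i) _ (by positivity)
  have h2 : ∀ᶠ t in (σ.𝒰 : Filter ℕ), ∀ i,
      logHeight₁ (rep (U (some i)) t) ≤ 1 / (2 * (n + 1)) * σ.L t := by
    rw [Filter.eventually_all]
    exact h1
  have h3 : ∀ᶠ t in (σ.𝒰 : Filter ℕ), ∀ i, rep (U (some i)) t = x t i := by
    rw [Filter.eventually_all]
    exact hUrep
  obtain ⟨t, ht1, ht2, ht3⟩ := (h2.and (h3.and (L_pos (σ := σ)))).exists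
  have h4 : σ.L t ≤ ∑ i : Fin n, 1 / (2 * ((n : ℝ) + 1)) * σ.L t := by
    conv_lhs => rw [hσL]
    refine Finset.sum_le_sum fun i _ => ?_
    have := ht1 i
    rwa [ht2 i] at this
  rw [Finset.sum_const, Finset.card_univ, Fintype.card_fin, nsmul_eq_mul] at h4
  have h5 : (n : ℝ) * (1 / (2 * ((n : ℝ) + 1)) * σ.L t) = (n / (2 * ((n : ℝ) + 1))) * σ.L t := by
    ring
  rw [h5] at h4
  have h6 : (n : ℝ) / (2 * ((n : ℝ) + 1)) < 1 := by
    rw [div_lt_one (by positivity)]
    have : (0 : ℝ) ≤ n := Nat.cast_nonneg n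
    linarith
  nlinarith

end Pool.Agent.Zk26
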